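import Pool.Agent.W_MP_37527c_al.System

/-!
# Operation 3 preserves complete systems
-/

set_option autoImplicit false

universe u

namespace Pool.Agent.W_MP_37527c_al

theorem root_mul (x : ℂˣ) : root x * root x = x := by
  ext
  simp only [root, Units.val_mul, Units.val_mk0]
  rw [← Complex.exp_add, add_halves, Complex.exp_log x.ne_zero]

theorem eta_sq (x : ℂˣ) : (root x)⁻¹ * (root x)⁻¹ * x = 1 := by
  rw [← mul_inv, root_mul, inv_mul_cancel]

theorem eta_sq' (x : ℂˣ) : (-(root x)⁻¹) * (-(root x)⁻¹) * x = 1 := by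
  rw [neg_mul_neg, eta_sq]

theorem ncard_two {A : Type} [Group A] [Finite A] {X Y : Set A} (a : A) (h1 : ∀ x ∈ X, x ∈ Y)
    (h2 : ∀ x ∈ X, a * x ∈ Y) (h3 : ∀ x ∈ X, a * x ∉ X) (h4 : ∀ y ∈ Y, y ∈ X ∨ a⁻¹ * y ∈ X) :
    Y.ncard = 2 * X.ncard := by
  have e : Y = X ∪ (fun x => a * x) '' X := by
    ext y
    simp only [Set.mem_union, Set.mem_image]
    constructor
    · intro hy
      rcases h4 y hy with h | h
      · exact Or.inl h
      · exact Or.inr ⟨_, h, by group⟩
    · rintro (h | ⟨x, hx, rfl⟩)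
      · exact h1 _ h
      · exact h2 _ hx
  rw [e, Set.ncard_union_eq, Set.ncard_image_of_injective _ (mul_right_injective a)]
  · ring
  · rw [Set.disjoint_left]
    rintro x hx ⟨y, hy, rfl⟩
    exact h3 y hy hx

section

variable {A Q Q' : Type} [Group A] [Group Q] [Group Q']
  {G : Subgroup A} {π : A →* Q} {p : Q →* Q'} {z : Q} {s : Q' → Q} {D : Dat A Q} {H : Subgroup A}

theorem corr_z (hq : Quot G π p z s) (η : ℂˣ) : D.corr p z s η z = η * D.α z 1 := by
  unfold Dat.corr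
  rw [hq.pz, hq.one, if_neg (fun h => hq.ne h.symm)]

/-- Goodness of the members of `D.push`. -/
theorem push_good (hq : Quot G π p z s) (hD : Good G π D) :
    ∀ D' ∈ D.push p z s π, Good G (p.comp π) D' := by
  classical
  obtain ⟨H, hH, hG, hc, hS⟩ := hD
  have hM : ∀ m, m ∈ D.M ↔ m ∈ H := fun m => by rw [← hH]; rfl
  have hSmem : ∀ m ∈ H, π m ∈ D.S := fun m hm => by rw [hS]; exact ⟨m, (hM m).2 hm, rfl⟩
  have hSex : ∀ t ∈ D.S, ∃ m ∈ H, π m = t := fun t ht => by
    rw [hS] at ht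
    obtain ⟨m, hm, rfl⟩ := ht
    exact ⟨m, (hM m).1 hm, rfl⟩
  intro D' hD'
  unfold Dat.push at hD'
  dsimp only at hD'
  by_cases hz : z ∈ D.S
  · rw [if_pos hz] at hD'
    obtain ⟨mz, hmz, hπz⟩ := hSex z hz
    have good1 : ∀ η : ℂˣ, η * η * D.α z z = 1 → (∀ t ∈ D.S, D.α t z = D.α z t) →
        Good G (p.comp π) (D.descend p z s π D.S (D.corr p z s η)) := by
      intro η hη hall
      refine descend_good hq hH hG hc hS subset_rfl (H₁ := H)
        (fun m => ⟨fun hm => ⟨hm, hSmem m hm⟩, fun hm => hm.1⟩) (corr_one hq) ?_ ?_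
      · intro t ht u hu _
        obtain ⟨m, hm, rfl⟩ := hSex t ht
        obtain ⟨n, hn, rfl⟩ := hSex u hu
        exact FF_left hq hG hc hmz hπz hη hm hn
      · intro t ht u hu _
        obtain ⟨m, hm, rfl⟩ := hSex t ht
        obtain ⟨n, hn, rfl⟩ := hSex u hu
        exact FF_right hq hG hc hmz hπz hη hm hn (hall _ ht)
    by_cases hall : ∀ t ∈ D.S, D.α t z = D.α z t
    · rw [if_pos hall] at hD'
      simp only [List.mem_cons, List.not_mem_nil, or_false] at hD'
      rcases hD' with rfl | rfl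
      · exact good1 _ (eta_sq _) hall
      · exact good1 _ (eta_sq' _) hall
    · rw [if_neg hall] at hD'
      simp only [List.mem_cons, List.not_mem_nil, or_false] at hD'
      subst hD'
      have hcent : ∀ m ∈ H, π m * π mz = π mz * π m := fun m hm => by
        rw [hπz]; exact hq.cent m (hG hm)
      have hsub : {t | t ∈ D.S ∧ D.α t z = D.α z t} ⊆ D.S := fun t ht => ht.1
      refine descend_good hq hH hG hc hS hsub
        (H₁ := (chi hc hmz hcent).ker.map H.subtype) ?_ (corr_one hq) ?_ ?_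
      · intro m
        simp only [Subgroup.mem_map, MonoidHom.mem_ker, Set.mem_setOf_eq]
        constructor
        · rintro ⟨x, hx, rfl⟩
          refine ⟨x.2, hSmem _ x.2, ?_⟩
          have := (chi_eq_one_iff hc hmz hcent x).1 hx
          rw [hπz] at this
          exact this
        · rintro ⟨hm, _, h⟩
          refine ⟨⟨m, hm⟩, ?_, rfl⟩
          rw [chi_eq_one_iff, hπz]
          exact h
      · intro t ht u hu _
        obtain ⟨m, hm, rfl⟩ := hSex t ht.1
        obtain ⟨n, hn, rfl⟩ := hSex u hu.1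
        exact FF_left hq hG hc hmz hπz (eta_sq _) hm hn
      · intro t ht u hu _
        obtain ⟨m, hm, rfl⟩ := hSex t ht.1
        obtain ⟨n, hn, rfl⟩ := hSex u hu.1
        exact FF_right hq hG hc hmz hπz (eta_sq _) hm hn ht.2
  · rw [if_neg hz] at hD'
    simp only [List.mem_cons, List.not_mem_nil, or_false] at hD'
    subst hD'
    have hno : ∀ t ∈ D.S, z * t ∈ D.S → False := by
      intro t ht hzt
      obtain ⟨m, hm, rfl⟩ := hSex t ht
      obtain ⟨n, hn, hn'⟩ := hSex _ hzt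
      apply hz
      have : z = π (n * m⁻¹) := by rw [map_mul, hn', map_inv, mul_inv_cancel_right]
      rw [this]
      exact hSmem _ (H.mul_mem hn (H.inv_mem hm))
    refine descend_good hq hH hG hc hS subset_rfl (H₁ := H)
      (fun m => ⟨fun hm => ⟨hm, hSmem m hm⟩, fun hm => hm.1⟩) rfl ?_ ?_
    · intro t ht u hu h; exact (hno t ht h).elim
    · intro t ht u hu h; exact (hno u hu h).elim

/-- The kernel part doubles if `z` lies in `S₁`. -/
theorem ker_card [Finite A] (hq : Quot G π p z s) (hG : H ≤ G) {S₁ : Set Q} (h1 : (1 : Q) ∈ S₁)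
    (hz : z ∈ S₁) {mz : A} (hmz : mz ∈ H) (hπz : π mz = z) :
    Set.ncard {m | (m ∈ H ∧ π m ∈ S₁) ∧ p (π m) = 1} = 2 * Set.ncard {m | m ∈ H ∧ π m = 1} := by
  refine ncard_two mz ?_ ?_ ?_ ?_
  · rintro m ⟨hm, hm1⟩
    exact ⟨⟨hm, by rw [hm1]; exact h1⟩, by rw [hm1, map_one]⟩
  · rintro m ⟨hm, hm1⟩
    have e : π (mz * m) = z := by rw [map_mul, hπz, hm1, mul_one]
    exact ⟨⟨H.mul_mem hmz hm, by rw [e]; exact hz⟩, by rw [e, hq.pz]⟩
  · rintro m ⟨hm, hm1⟩ ⟨_, h⟩
    rw [map_mul, hπz, hm1, mul_one] at h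
    exact hq.ne h
  · rintro m ⟨⟨hm, _⟩, h⟩
    rcases hq.ker m (hG hm) h with h | h
    · exact Or.inl ⟨hm, h⟩
    · right
      refine ⟨H.mul_mem (H.inv_mem hmz) hm, ?_⟩
      rw [map_mul, map_inv, hπz, h, inv_mul_cancel]

/-- The weights of the members of `D.push` add up to the weight of `D`. -/
theorem push_count [Finite A] (hq : Quot G π p z s) (hD : Good G π D) :
    ((D.push p z s π).map (wt (p.comp π))).sum = wt π D := by
  classical
  obtain ⟨H, hH, hG, hc, hS⟩ := hD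
  have hM : ∀ m, m ∈ D.M ↔ m ∈ H := fun m => by rw [← hH]; rfl
  have hSmem : ∀ m ∈ H, π m ∈ D.S := fun m hm => by rw [hS]; exact ⟨m, (hM m).2 hm, rfl⟩
  have hSex : ∀ t ∈ D.S, ∃ m ∈ H, π m = t := fun t ht => by
    rw [hS] at ht
    obtain ⟨m, hm, rfl⟩ := ht
    exact ⟨m, (hM m).1 hm, rfl⟩
  have hwt : wt π D = ((Set.ncard (H : Set A) : ℚ) * Set.ncard {m | m ∈ H ∧ π m = 1})⁻¹ := by
    unfold wt
    rw [Nat.card_coe_set_eq, Nat.card_coe_set_eq, hH]
    simp only [hM]
  have hwt' : ∀ (S₁ : Set Q) (c : Q → ℂˣ), wt (p.comp π) (D.descend p z s π S₁ c) =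
      ((Set.ncard {m | m ∈ H ∧ π m ∈ S₁} : ℚ) *
        Set.ncard {m | (m ∈ H ∧ π m ∈ S₁) ∧ p (π m) = 1})⁻¹ := by
    intro S₁ c
    unfold wt
    rw [Nat.card_coe_set_eq, Nat.card_coe_set_eq]
    have e1 : (D.descend p z s π S₁ c).M = {m | m ∈ H ∧ π m ∈ S₁} := by
      ext m
      show m ∈ D.M ∧ π m ∈ S₁ ↔ _
      rw [hM]; rfl
    rw [e1]
    rfl
  have h1S : (1 : Q) ∈ D.S := by
    have := hSmem 1 H.one_mem
    rwa [map_one] at this
  have eS : {m | m ∈ H ∧ π m ∈ D.S} = (H : Set A) := by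
    ext m
    exact ⟨fun h => h.1, fun h => ⟨h, hSmem m h⟩⟩
  unfold Dat.push
  dsimp only
  by_cases hz : z ∈ D.S
  · rw [if_pos hz]
    obtain ⟨mz, hmz, hπz⟩ := hSex z hz
    by_cases hall : ∀ t ∈ D.S, D.α t z = D.α z t
    · rw [if_pos hall]
      simp only [List.map_cons, List.map_nil, List.sum_cons, List.sum_nil, add_zero, hwt', hwt,
        ker_card hq hG h1S hz hmz hπz, eS]
      push_cast
      rw [show (Set.ncard (H : Set A) : ℚ) * (2 * Set.ncard {m | m ∈ H ∧ π m = 1}) =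
        2 * (Set.ncard (H : Set A) * Set.ncard {m | m ∈ H ∧ π m = 1}) by ring, mul_inv]
      ring
    · rw [if_neg hall]
      have hcent : ∀ m ∈ H, π m * π mz = π mz * π m := fun m hm => by
        rw [hπz]; exact hq.cent m (hG hm)
      have hsq : π mz * π mz = 1 := by rw [hπz, hq.sq]
      have hz1 : z ∈ {t | t ∈ D.S ∧ D.α t z = D.α z t} := ⟨hz, rfl⟩
      have h11 : (1 : Q) ∈ {t | t ∈ D.S ∧ D.α t z = D.α z t} := by
        refine ⟨h1S, ?_⟩
        rw [← hπz, hc.α_one_left hmz, hc.α_one_right hmz]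
      have hiff : ∀ m (hm : m ∈ H), D.α (π m) z = D.α z (π m) ↔ chi hc hmz hcent ⟨m, hm⟩ = 1 := by
        intro m hm
        rw [chi_eq_one_iff, hπz]
      push Not at hall
      obtain ⟨t, ht, hne⟩ := hall
      obtain ⟨m0, hm0, rfl⟩ := hSex t ht
      have hval : ∀ x : H, chi hc hmz hcent x = 1 ∨ chi hc hmz hcent x = -1 := by
        intro x
        have := chi_sq hc hmz hcent hsq x
        have h2 : ((chi hc hmz hcent x : ℂˣ) : ℂ) * (chi hc hmz hcent x : ℂˣ) = 1 := by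
          rw [← Units.val_mul, this]; rfl
        rcases mul_self_eq_one_iff.1 h2 with h | h
        · left; ext; exact h
        · right; ext; rw [h]; rfl
      have hm0' : chi hc hmz hcent ⟨m0, hm0⟩ = -1 :=
        (hval ⟨m0, hm0⟩).resolve_left (fun h => hne ((hiff m0 hm0).2 h))
      have hneg : (-1 : ℂˣ) ≠ 1 := by
        intro h
        have := congrArg (fun x : ℂˣ => (x : ℂ)) h
        simp only [Units.val_neg, Units.val_one] at this
        norm_num at this
      have hcard : Set.ncard (H : Set A) =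
          2 * Set.ncard {m | m ∈ H ∧ π m ∈ {t | t ∈ D.S ∧ D.α t z = D.α z t}} := by
        refine ncard_two m0 ?_ ?_ ?_ ?_
        · rintro m ⟨hm, _⟩; exact hm
        · rintro m ⟨hm, _⟩; exact H.mul_mem hm0 hm
        · rintro m ⟨hm, _, h1⟩ ⟨hm2, _, h2⟩
          rw [hiff m hm] at h1
          rw [hiff _ hm2] at h2
          have e : (⟨m0 * m, hm2⟩ : H) = ⟨m0, hm0⟩ * ⟨m, hm⟩ := rfl
          rw [e, map_mul, h1, hm0', mul_one] at h2
          exact hneg h2
        · intro m hm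
          rcases hval ⟨m, hm⟩ with h | h
          · left; exact ⟨hm, hSmem m hm, (hiff m hm).2 h⟩
          · right
            have hm2 : m0⁻¹ * m ∈ H := H.mul_mem (H.inv_mem hm0) hm
            refine ⟨hm2, hSmem _ hm2, (hiff _ hm2).2 ?_⟩
            have e : (⟨m0⁻¹ * m, hm2⟩ : H) = ⟨m0, hm0⟩⁻¹ * ⟨m, hm⟩ := rfl
            rw [e, map_mul, map_inv, h, hm0', inv_mul_cancel]
      simp only [List.map_cons, List.map_nil, List.sum_cons, List.sum_nil, add_zero, hwt', hwt,
        ker_card hq hG h11 hz1 hmz hπz, hcard]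
      push_cast
      congr 1
      ring
  · rw [if_neg hz]
    simp only [List.map_cons, List.map_nil, List.sum_cons, List.sum_nil, add_zero, hwt', hwt, eS]
    congr 3
    congr 1
    ext m
    constructor
    · rintro ⟨⟨hm, _⟩, h⟩
      rcases hq.ker m (hG hm) h with h | h
      · exact ⟨hm, h⟩
      · exact (hz (h ▸ hSmem m hm)).elim
    · rintro ⟨hm, h⟩
      exact ⟨⟨hm, hSmem m hm⟩, by rw [h, map_one]⟩


/-- Final part of the covering argument. -/
theorem push_cover_fin {W : Type u} [AddCommGroup W] [Module ℂ W] (hq : Quot G π p z s)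
    (hH : (H : Set A) = D.M) (hG : H ≤ G) (hc : Coc π H D.lam D.α) {ρ : A → W →ₗ[ℂ] W}
    (hρ : ∀ x ∈ G, ∀ y ∈ G, p (π x) = 1 → p (π y) = 1 → ρ (x * y) = ρ x ∘ₗ ρ y)
    {g : A} (hg : g ∈ G) {w : W} (hw : ∀ m ∈ H, π m = 1 → ρ (g * m * g⁻¹) w = (D.lam m : ℂ) • w)
    {mz : A} (hmz : mz ∈ H) (hπz : π mz = z) {η : ℂˣ}
    (hN : ρ (g * mz * g⁻¹) w = ((η * D.lam mz : ℂˣ) : ℂ) • w) (S₁ : Set Q) :
    ∀ m ∈ (D.descend p z s π S₁ (D.corr p z s η)).M, p.comp π m = 1 →
      ρ (g * m * g⁻¹) w = ((D.descend p z s π S₁ (D.corr p z s η)).lam m : ℂ) • w := by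
  have hM : ∀ m, m ∈ D.M ↔ m ∈ H := fun m => by rw [← hH]; rfl
  rintro m ⟨hm, _⟩ hm1
  have hm := (hM m).1 hm
  show ρ (g * m * g⁻¹) w = ((D.corr p z s η (π m) * D.lam m : ℂˣ) : ℂ) • w
  rcases hq.ker m (hG hm) hm1 with h | h
  · rw [h, corr_one hq, one_mul]
    exact hw m hm h
  · have hk : mz⁻¹ * m ∈ H := H.mul_mem (H.inv_mem hmz) hm
    have hk1 : π (mz⁻¹ * m) = 1 := by rw [map_mul, map_inv, hπz, h, inv_mul_cancel]
    have e : g * m * g⁻¹ = (g * mz * g⁻¹) * (g * (mz⁻¹ * m) * g⁻¹) := by group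
    have hpz : p (π (g * mz * g⁻¹)) = 1 := by
      simp only [map_mul, hπz, hq.pz, map_inv]
      group
    have hpk : p (π (g * (mz⁻¹ * m) * g⁻¹)) = 1 := by
      rw [map_mul π, map_mul π, hk1, mul_one, ← map_mul π, mul_inv_cancel, map_one, map_one]
    have hgm : g * mz * g⁻¹ ∈ G := G.mul_mem (G.mul_mem hg (hG hmz)) (G.inv_mem hg)
    have hgk : g * (mz⁻¹ * m) * g⁻¹ ∈ G := G.mul_mem (G.mul_mem hg (hG hk)) (G.inv_mem hg)
    rw [e, hρ _ hgm _ hgk hpz hpk, LinearMap.comp_apply, hw _ hk hk1, map_smul, hN, h,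
      corr_z hq, smul_smul]
    have h2 : D.lam m = D.lam mz * D.lam (mz⁻¹ * m) := by
      conv_lhs => rw [show m = mz * (mz⁻¹ * m) by group]
      exact hc.mul_ker hk hk1 hmz
    have h3 : D.α z 1 = 1 := by rw [← hπz]; exact hc.α_one_right hmz
    rw [h2, h3]
    congr 1
    push_cast
    ring

/-- Operation 3 preserves the covering property. -/
theorem push_covers (hq : Quot G π p z s) {L : List (Dat A Q)} (hL : ∀ D ∈ L, Good G π D)
    (hcov : Covers.{u} G π L) : Covers.{u} G (p.comp π) (push p z s π L) := by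
  classical
  intro W _ _ ρ hρ1 hρ E hE hinv
  obtain ⟨D, hD, g, hg, w, hw, hw0, heig⟩ := hcov W ρ hρ1
    (fun x hx y hy h1 h2 => hρ x hx y hy (by simp [h1]) (by simp [h2])) E hE
    (fun x hx h1 => hinv x hx (by simp [h1]))
  obtain ⟨H, hH, hG, hc, hS⟩ := hL D hD
  have hM : ∀ m, m ∈ D.M ↔ m ∈ H := fun m => by rw [← hH]; rfl
  have hSmem : ∀ m ∈ H, π m ∈ D.S := fun m hm => by rw [hS]; exact ⟨m, (hM m).2 hm, rfl⟩
  have hSex : ∀ t ∈ D.S, ∃ m ∈ H, π m = t := fun t ht => by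
    rw [hS] at ht
    obtain ⟨m, hm, rfl⟩ := ht
    exact ⟨m, (hM m).1 hm, rfl⟩
  have heig' : ∀ m ∈ H, π m = 1 → ρ (g * m * g⁻¹) w = (D.lam m : ℂ) • w :=
    fun m hm => heig m ((hM m).2 hm)
  have hmem : ∀ D' ∈ D.push p z s π, D' ∈ push p z s π L := fun D' hD' =>
    List.mem_flatMap.2 ⟨D, hD, hD'⟩
  by_cases hz : z ∈ D.S
  · obtain ⟨mz, hmz, hπz⟩ := hSex z hz
    have hcent : ∀ m ∈ H, π m * π mz = π mz * π m := fun m hm => by
      rw [hπz]; exact hq.cent m (hG hm)
    have hsq : π mz * π mz = 1 := by rw [hπz, hq.sq]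
    have hpi : ∀ m ∈ H, p (π m) = 1 → ∀ g' ∈ G, p (π (g' * m * g'⁻¹)) = 1 := by
      intro m _ h1 g' _
      simp only [map_mul, h1, map_inv, mul_one, mul_inv_cancel]
    have hGm : ∀ m ∈ H, ∀ g' ∈ G, g' * m * g'⁻¹ ∈ G := fun m hm g' hg' =>
      G.mul_mem (G.mul_mem hg' (hG hm)) (G.inv_mem hg')
    have hpz : p (π mz) = 1 := by rw [hπz, hq.pz]
    have hp1 : ∀ m, π m = 1 → p (π m) = 1 := fun m h => by rw [h, map_one]
    -- the operator
    set N : W →ₗ[ℂ] W := ρ (g * mz * g⁻¹) with hNdef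
    set η : ℂˣ := (root (D.α z z))⁻¹ with hη
    set κ : ℂˣ := η * D.lam mz with hκ
    have hη2 : η * η * D.α z z = 1 := eta_sq _
    have hzz : mz * mz ∈ H := H.mul_mem hmz hmz
    have hzz1 : π (mz * mz) = 1 := by rw [map_mul, hsq]
    have hκ2 : κ * κ = D.lam (mz * mz) := by
      have h1 := hc.mul mz hmz mz hmz
      rw [hπz] at h1
      calc κ * κ = η * η * (D.lam mz * D.lam mz) := by
            rw [hκ]; simp only [mul_comm, mul_left_comm, mul_assoc]
        _ = (η * η * D.α z z) * D.lam (mz * mz) := by rw [h1, ← mul_assoc]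
        _ = _ := by rw [hη2, one_mul]
    have hNN : N (N w) = ((κ * κ : ℂˣ) : ℂ) • w := by
      rw [hNdef, ← LinearMap.comp_apply, ← hρ _ (hGm mz hmz g hg) _ (hGm mz hmz g hg)
        (hpi mz hmz hpz g hg) (hpi mz hmz hpz g hg), hκ2, ← heig' _ hzz hzz1]
      congr 2
      group
    have hNeig : ∀ m ∈ H, π m = 1 → ρ (g * m * g⁻¹) (N w) = (D.lam m : ℂ) • N w := by
      intro m hm h1
      have hk : mz⁻¹ * m * mz⁻¹⁻¹ ∈ H := H.mul_mem (H.mul_mem (H.inv_mem hmz) hm)
        (H.inv_mem (H.inv_mem hmz))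
      have hk1 : π (mz⁻¹ * m * mz⁻¹⁻¹) = 1 := by
        simp only [map_mul, h1, map_inv, mul_one, mul_inv_cancel]
      have e : g * m * g⁻¹ * (g * mz * g⁻¹) = g * mz * g⁻¹ * (g * (mz⁻¹ * m * mz⁻¹⁻¹) * g⁻¹) := by
        group
      rw [hNdef, ← LinearMap.comp_apply, ← hρ _ (hGm m hm g hg) _ (hGm mz hmz g hg)
        (hpi m hm (hp1 m h1) g hg) (hpi mz hmz hpz g hg), e,
        hρ _ (hGm mz hmz g hg) _ (hGm _ hk g hg) (hpi mz hmz hpz g hg)
        (hpi _ hk (hp1 _ hk1) g hg), LinearMap.comp_apply, heig' _ hk hk1,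
        hc.conj hm h1 (H.inv_mem hmz), map_smul]
    have hNE : N w ∈ E := hinv _ (hGm mz hmz g hg) (hpi mz hmz hpz g hg) w hw
    -- an eigenvector with sign `ε`
    obtain ⟨ε, w', hε, hw'E, hw'0, hw'eig, hw'N⟩ : ∃ (ε : ℂˣ) (w' : W), (ε = 1 ∨ ε = -1) ∧
        w' ∈ E ∧ w' ≠ 0 ∧ (∀ m ∈ H, π m = 1 → ρ (g * m * g⁻¹) w' = (D.lam m : ℂ) • w') ∧
        N w' = ((ε * κ : ℂˣ) : ℂ) • w' := by
      by_cases h0 : N w + (κ : ℂ) • w = 0
      · refine ⟨-1, w, Or.inr rfl, hw, hw0, heig', ?_⟩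
        rw [eq_neg_of_add_eq_zero_left h0]
        push_cast
        rw [neg_one_mul, neg_smul]
      · refine ⟨1, N w + (κ : ℂ) • w, Or.inl rfl, E.add_mem hNE (E.smul_mem _ hw), h0, ?_, ?_⟩
        · intro m hm h1
          rw [map_add, hNeig m hm h1, map_smul, heig' m hm h1, smul_add, smul_comm (κ : ℂ)]
        · rw [map_add, hNN, map_smul, one_mul, smul_add, smul_smul, Units.val_mul, add_comm]
    by_cases hall : ∀ t ∈ D.S, D.α t z = D.α z t
    · -- both signs occur
      refine ⟨D.descend p z s π D.S (D.corr p z s (ε * η)), hmem _ ?_, g, hg, w', hw'E, hw'0, ?_⟩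
      · unfold Dat.push
        dsimp only
        rw [if_pos hz, if_pos hall]
        rcases hε with rfl | rfl
        · rw [one_mul]; exact List.mem_cons_self
        · rw [neg_one_mul]; exact List.mem_cons_of_mem _ List.mem_cons_self
      · refine push_cover_fin hq hH hG hc hρ hg hw'eig hmz hπz ?_ D.S
        have h5 : ε * η * D.lam mz = ε * κ := by rw [hκ, mul_assoc]
        rw [h5]
        exact hw'N
    · -- only one sign, up to conjugation
      have hD' : D.descend p z s π {t | t ∈ D.S ∧ D.α t z = D.α z t} (D.corr p z s η) ∈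
          D.push p z s π := by
        unfold Dat.push
        dsimp only
        rw [if_pos hz, if_neg hall]
        exact List.mem_cons_self
      rcases hε with rfl | rfl
      · refine ⟨_, hmem _ hD', g, hg, w', hw'E, hw'0, ?_⟩
        refine push_cover_fin hq hH hG hc hρ hg hw'eig hmz hπz ?_ _
        rw [one_mul] at hw'N
        exact hw'N
      · push Not at hall
        obtain ⟨t, ht, hne⟩ := hall
        obtain ⟨m0, hm0, rfl⟩ := hSex t ht
        have hm0' : chi hc hmz hcent ⟨m0, hm0⟩ = -1 := by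
          have h1 := chi_sq hc hmz hcent hsq ⟨m0, hm0⟩
          have h2 : ((chi hc hmz hcent ⟨m0, hm0⟩ : ℂˣ) : ℂ) *
              (chi hc hmz hcent ⟨m0, hm0⟩ : ℂˣ) = 1 := by
            rw [← Units.val_mul, h1]; rfl
          rcases mul_self_eq_one_iff.1 h2 with h | h
          · exfalso
            apply hne
            have h3 : chi hc hmz hcent ⟨m0, hm0⟩ = 1 := by ext; exact h
            rw [chi_eq_one_iff, hπz] at h3
            exact h3
          · ext; rw [h]; rfl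
        refine ⟨_, hmem _ hD', g * m0, G.mul_mem hg (hG hm0), w', hw'E, hw'0, ?_⟩
        refine push_cover_fin hq hH hG hc hρ (G.mul_mem hg (hG hm0)) ?_ hmz hπz ?_ _
        · intro m hm h1
          have hk : m0 * m * m0⁻¹ ∈ H := H.mul_mem (H.mul_mem hm0 hm) (H.inv_mem hm0)
          have hk1 : π (m0 * m * m0⁻¹) = 1 := by
            simp only [map_mul, h1, map_inv, mul_one, mul_inv_cancel]
          have e : g * m0 * m * (g * m0)⁻¹ = g * (m0 * m * m0⁻¹) * g⁻¹ := by group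
          rw [e, hw'eig _ hk hk1, hc.conj hm h1 hm0]
        · have hk := kap_mem hmz hm0
          have hk1 : π (m0 * mz * m0⁻¹ * mz⁻¹) = 1 := kap_ker (hcent _ hm0)
          have e : g * m0 * mz * (g * m0)⁻¹ =
              (g * (m0 * mz * m0⁻¹ * mz⁻¹) * g⁻¹) * (g * mz * g⁻¹) := by group
          have hv : D.lam (m0 * mz * m0⁻¹ * mz⁻¹) = -1 := hm0'
          rw [e, hρ _ (hGm _ hk g hg) _ (hGm mz hmz g hg) (hpi _ hk (hp1 _ hk1) g hg)
            (hpi mz hmz hpz g hg), LinearMap.comp_apply, ← hNdef, hw'N, map_smul,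
            hw'eig _ hk hk1, hv, smul_smul]
          congr 1
          rw [hκ]
          push_cast
          ring
  · -- `z` is not in `S`
    refine ⟨D.descend p z s π D.S 1, hmem _ ?_, g, hg, w, hw, hw0, ?_⟩
    · unfold Dat.push
      dsimp only
      rw [if_neg hz]
      exact List.mem_cons_self
    · rintro m ⟨hm, _⟩ h1
      have hm' := (hM m).1 hm
      show ρ (g * m * g⁻¹) w = ((1 * D.lam m : ℂˣ) : ℂ) • w
      rw [one_mul]
      rcases hq.ker m (hG hm') h1 with h | h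
      · exact heig' m hm' h
      · exact (hz (h ▸ hSmem m hm')).elim

/-- Operation 3 preserves complete systems. -/
theorem push_system [Finite A] (hq : Quot G π p z s) {L : List (Dat A Q)}
    (h : System.{u} G π L) : System.{u} G (p.comp π) (push p z s π L) where
  good := by
    intro D' hD'
    obtain ⟨D, hD, hD'⟩ := List.mem_flatMap.1 hD'
    exact push_good hq (h.good D hD) D' hD'
  covers := push_covers hq h.good h.covers
  count := by
    rw [← h.count]
    exact sum_flatMap L _ _ _ (fun D hD => push_count hq (h.good D hD))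

end

end Pool.Agent.W_MP_37527c_al
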