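import Pool.Agent.W_MP_37527c_al.System

/-!
# Operation 2 preserves complete systems
-/

set_option autoImplicit false

universe u

namespace Pool.Agent.W_MP_37527c_al

section

variable {A Q : Type} [Group A] [Group Q]
  {G : Subgroup A} {π : A →* Q} {D : Dat A Q} {Γ : Subgroup Q}

theorem conj_good (hD : Good G π D) {g : A} {q : Q} (hg : g ∈ G) (hq : π g = q) :
    Good (G ⊓ Γ.comap π) π (D.conj Γ π q g) := by
  obtain ⟨H, hH, hG, hc, hS⟩ := hD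
  have hM : ∀ m, m ∈ D.M ↔ m ∈ H := fun m => by rw [← hH]; rfl
  have hGg : ∀ h : A, g⁻¹ * h * g ∈ H → h ∈ G := by
    intro h hh
    have : h = g * (g⁻¹ * h * g) * g⁻¹ := by group
    rw [this]
    exact G.mul_mem (G.mul_mem hg (hG hh)) (G.inv_mem hg)
  let H' : Subgroup A :=
    { carrier := {h | π h ∈ Γ ∧ g⁻¹ * h * g ∈ H}
      one_mem' := ⟨by rw [map_one]; exact Γ.one_mem, by simp⟩
      mul_mem' := by
        rintro x y ⟨hx1, hx2⟩ ⟨hy1, hy2⟩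
        refine ⟨by rw [map_mul]; exact Γ.mul_mem hx1 hy1, ?_⟩
        have := H.mul_mem hx2 hy2
        convert this using 1
        group
      inv_mem' := by
        rintro x ⟨hx1, hx2⟩
        refine ⟨by rw [map_inv]; exact Γ.inv_mem hx1, ?_⟩
        have := H.inv_mem hx2
        convert this using 1
        group }
  refine ⟨H', ?_, ?_, ⟨?_, ?_⟩, ?_⟩
  · ext h
    show π h ∈ Γ ∧ g⁻¹ * h * g ∈ H ↔ π h ∈ (Γ : Set Q) ∧ g⁻¹ * h * g ∈ D.M
    rw [hM]; rfl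
  · rintro h ⟨h1, h2⟩
    exact ⟨hGg h h2, h1⟩
  · show D.lam (g⁻¹ * 1 * g) = 1
    rw [mul_one, inv_mul_cancel, hc.one]
  · rintro x ⟨hx1, hx2⟩ y ⟨hy1, hy2⟩
    show D.lam (g⁻¹ * x * g) * D.lam (g⁻¹ * y * g) =
      D.α (q⁻¹ * π x * q) (q⁻¹ * π y * q) * D.lam (g⁻¹ * (x * y) * g)
    have e : g⁻¹ * (x * y) * g = (g⁻¹ * x * g) * (g⁻¹ * y * g) := by group
    rw [hc.mul _ hx2 _ hy2, e]
    simp only [map_mul, map_inv, hq]
  · show {t | t ∈ (Γ : Set Q) ∧ q⁻¹ * t * q ∈ D.S} =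
      π '' {h | π h ∈ (Γ : Set Q) ∧ g⁻¹ * h * g ∈ D.M}
    ext t
    rw [hS]
    simp only [Set.mem_setOf_eq, Set.mem_image]
    constructor
    · rintro ⟨ht, m, hm, hmt⟩
      have e : π (g * m * g⁻¹) = t := by
        rw [map_mul, map_mul, map_inv, hq, hmt]
        group
      refine ⟨g * m * g⁻¹, ⟨by rw [e]; exact ht, ?_⟩, e⟩
      have : g⁻¹ * (g * m * g⁻¹) * g = m := by group
      rw [this]; exact hm
    · rintro ⟨h, ⟨h1, h2⟩, rfl⟩
      exact ⟨h1, _, h2, by simp only [map_mul, map_inv, hq]⟩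

theorem sdc_refl {S : Set Q} (hS : (1 : Q) ∈ S) (q : Q) : SameDoubleCoset Γ S q q :=
  ⟨1, Γ.one_mem, 1, hS, by simp⟩

/-- The set `S` of a good datum is a subgroup. -/
theorem good_S (hD : Good G π D) : ∃ S : Subgroup Q, (S : Set Q) = D.S := by
  obtain ⟨H, hH, hG, hc, hS⟩ := hD
  refine ⟨H.map π, ?_⟩
  rw [hS, ← hH]
  rfl

theorem sdc_symm {S : Subgroup Q} {q q' : Q} (h : SameDoubleCoset Γ S q q') :
    SameDoubleCoset Γ S q' q := by
  obtain ⟨x, hx, s, hs, rfl⟩ := h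
  exact ⟨x⁻¹, Γ.inv_mem hx, s⁻¹, S.inv_mem hs, by group⟩

theorem sdc_trans {S : Subgroup Q} {q q' q'' : Q} (h : SameDoubleCoset Γ S q q')
    (h' : SameDoubleCoset Γ S q' q'') : SameDoubleCoset Γ S q q'' := by
  obtain ⟨x, hx, s, hs, rfl⟩ := h
  obtain ⟨x', hx', s', hs', rfl⟩ := h'
  exact ⟨x' * x, Γ.mul_mem hx' hx, s * s', S.mul_mem hs hs', by group⟩

theorem reps_pairwise (E : List Q) (Γ S : Set Q) :
    (reps E Γ S).Pairwise (fun q q' => ¬ SameDoubleCoset Γ S q q') := by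
  classical
  exact List.pairwise_pwFilter _

theorem reps_cover {E : List Q} (hE : ∀ q, q ∈ E) (S : Subgroup Q) (q : Q) :
    ∃ q' ∈ reps E (Γ : Set Q) S, SameDoubleCoset Γ S q q' := by
  classical
  by_contra hcon
  push Not at hcon
  have := (List.forall_mem_pwFilter (R := fun q q' => ¬ SameDoubleCoset (Γ : Set Q) S q q')
    (fun {x y w} h => by
      by_contra h2
      push Not at h2
      exact h (sdc_trans h2.1 h2.2)) q E).1 hcon
  exact this q (hE q) (sdc_refl S.one_mem q)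

/-! ### Counting -/

/-- The part of `G` over a double coset. -/
def cosetPart (G : Subgroup A) (π : A →* Q) (Γ : Subgroup Q) (S : Set Q) (q : Q) : Set A :=
  {g | g ∈ G ∧ SameDoubleCoset Γ S q (π g)}

theorem card_cosetPart [Finite A] {H : Subgroup A} (hH : (H : Set A) = D.M) (hG : H ≤ G)
    (hS : D.S = π '' D.M) {g : A} {q : Q} (hg : g ∈ G) (hq : π g = q) :
    Nat.card (cosetPart G π Γ D.S q) * Nat.card (D.conj Γ π q g).M =
      Nat.card (G ⊓ Γ.comap π : Subgroup A) * Nat.card D.M := by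
  classical
  have hM : ∀ m, m ∈ D.M ↔ m ∈ H := fun m => by rw [← hH]; rfl
  have ex : ∀ y : cosetPart G π Γ D.S q, ∃ x m : A, x ∈ G ∧ π x ∈ Γ ∧ m ∈ H ∧
      (y : A) = x * g * m := by
    rintro ⟨y, hy, x, hx, s, hs, hxs⟩
    rw [hS] at hs
    obtain ⟨m, hm, rfl⟩ := hs
    rw [hM] at hm
    refine ⟨y * m⁻¹ * g⁻¹, m, ?_, ?_, hm, by group⟩
    · exact G.mul_mem (G.mul_mem hy (G.inv_mem (hG hm))) (G.inv_mem hg)
    · have : π (y * m⁻¹ * g⁻¹) = x := by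
        rw [map_mul, map_mul, map_inv, map_inv, hq, hxs]
        group
      rw [this]; exact hx
  choose X Mm hX1 hX2 hM1 hy using ex
  rw [← Nat.card_prod, ← Nat.card_prod]
  have memconj : ∀ h : A, h ∈ (D.conj Γ π q g).M ↔ π h ∈ Γ ∧ g⁻¹ * h * g ∈ H := by
    intro h
    show π h ∈ (Γ : Set Q) ∧ g⁻¹ * h * g ∈ D.M ↔ _
    rw [hM]; rfl
  have hGg : ∀ h : A, g⁻¹ * h * g ∈ H → h ∈ G := by
    intro h hh
    have : h = g * (g⁻¹ * h * g) * g⁻¹ := by group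
    rw [this]
    exact G.mul_mem (G.mul_mem hg (hG hh)) (G.inv_mem hg)
  refine Nat.card_congr ⟨fun p => (⟨X p.1 * p.2.1, ?_, ?_⟩, ⟨g⁻¹ * (p.2.1 : A)⁻¹ * g * Mm p.1, ?_⟩),
    fun p => (⟨p.1.1 * g * p.2.1, ?_, ?_⟩, ⟨(X ⟨p.1.1 * g * p.2.1, ?_, ?_⟩)⁻¹ * p.1.1, ?_⟩), ?_, ?_⟩
  · exact G.mul_mem (hX1 _) (hGg _ ((memconj _).1 p.2.2).2)
  · show π (X p.1 * p.2.1) ∈ Γ
    rw [map_mul]
    exact Γ.mul_mem (hX2 _) ((memconj _).1 p.2.2).1
  · rw [hM]
    refine H.mul_mem ?_ (hM1 _)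
    have := H.inv_mem ((memconj _).1 p.2.2).2
    convert this using 1
    group
  · exact G.mul_mem (G.mul_mem p.1.2.1 hg) (hG ((hM _).1 p.2.2))
  · exact ⟨π p.1.1, p.1.2.2, π p.2.1, hS ▸ ⟨_, p.2.2, rfl⟩, by rw [map_mul, map_mul, hq]⟩
  · exact G.mul_mem (G.mul_mem p.1.2.1 hg) (hG ((hM _).1 p.2.2))
  · exact ⟨π p.1.1, p.1.2.2, π p.2.1, hS ▸ ⟨_, p.2.2, rfl⟩, by rw [map_mul, map_mul, hq]⟩
  · rw [memconj]
    constructor
    · rw [map_mul, map_inv]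
      exact Γ.mul_mem (Γ.inv_mem (hX2 _)) p.1.2.2
    · have e := hy ⟨p.1.1 * g * p.2.1, G.mul_mem (G.mul_mem p.1.2.1 hg) (hG ((hM _).1 p.2.2)),
        ⟨π p.1.1, p.1.2.2, π p.2.1, hS ▸ ⟨_, p.2.2, rfl⟩, by rw [map_mul, map_mul, hq]⟩⟩
      simp only at e
      set y : cosetPart G π Γ D.S q := ⟨p.1.1 * g * p.2.1, G.mul_mem (G.mul_mem p.1.2.1 hg)
        (hG ((hM _).1 p.2.2)), ⟨π p.1.1, p.1.2.2, π p.2.1, hS ▸ ⟨_, p.2.2, rfl⟩,
          by rw [map_mul, map_mul, hq]⟩⟩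
      have e2 : g⁻¹ * ((X y)⁻¹ * p.1.1) * g = Mm y * (p.2.1 : A)⁻¹ := by
        have e3 : (p.1.1 : A) = X y * g * Mm y * (p.2.1 : A)⁻¹ * g⁻¹ := by
          rw [← e]; group
        rw [e3]; group
      rw [e2]
      exact H.mul_mem (hM1 y) (H.inv_mem ((hM _).1 p.2.2))
  · rintro ⟨y, ⟨h, hh⟩⟩
    have e0 : X y * h * g * (g⁻¹ * h⁻¹ * g * Mm y) = y := by
      rw [hy y]; group
    have e1 : ∀ (v : A) (hv : v ∈ cosetPart G π Γ D.S q), v = y → (⟨v, hv⟩ : cosetPart G π Γ D.S q) = y := by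
      intro v hv hvy
      exact Subtype.ext hvy
    apply Prod.ext
    · exact e1 _ _ e0
    · apply Subtype.ext
      have : ∀ Y, Y = y → (X Y)⁻¹ * (X y * h) = h := by
        rintro _ rfl; group
      exact this _ (e1 _ _ e0)
  · rintro ⟨⟨x, hx⟩, ⟨m, hm⟩⟩
    simp only
    have e := hy ⟨x * g * m, G.mul_mem (G.mul_mem hx.1 hg) (hG ((hM _).1 hm)),
        ⟨π x, hx.2, π m, hS ▸ ⟨_, hm, rfl⟩, by rw [map_mul, map_mul, hq]⟩⟩
    simp only at e
    apply Prod.ext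
    · apply Subtype.ext
      simp only
      group
    · apply Subtype.ext
      simp only
      rw [mul_inv_rev, inv_inv]
      have : ∀ X' M' : A, x * g * m = X' * g * M' → g⁻¹ * (x⁻¹ * X') * g * M' = m := by
        intro X' M' h
        have : g⁻¹ * (x⁻¹ * X') * g * M' = g⁻¹ * x⁻¹ * (X' * g * M') := by group
        rw [this, ← h]; group
      exact this _ _ e


theorem card_conj_ker {H : Subgroup A} (hH : (H : Set A) = D.M) {g : A} {q : Q} :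
    Nat.card {h | h ∈ (D.conj Γ π q g).M ∧ π h = 1} = Nat.card {m | m ∈ D.M ∧ π m = 1} := by
  refine Nat.card_congr ⟨fun h => ⟨g⁻¹ * h.1 * g, h.2.1.2, ?_⟩,
    fun m => ⟨g * m.1 * g⁻¹, ⟨?_, ?_⟩, ?_⟩, ?_, ?_⟩
  · simp only [map_mul, h.2.2, map_inv, mul_one, inv_mul_cancel]
  · show π (g * m.1 * g⁻¹) ∈ (Γ : Set Q)
    have : π (g * m.1 * g⁻¹) = 1 := by
      simp only [map_mul, m.2.2, map_inv, mul_one, mul_inv_cancel]
    rw [this]
    exact Γ.one_mem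
  · show g⁻¹ * (g * m.1 * g⁻¹) * g ∈ D.M
    have : g⁻¹ * (g * m.1 * g⁻¹) * g = m.1 := by group
    rw [this]; exact m.2.1
  · simp only [map_mul, m.2.2, map_inv, mul_one, mul_inv_cancel]
  · rintro ⟨h, hh⟩
    apply Subtype.ext
    simp only
    group
  · rintro ⟨h, hh⟩
    apply Subtype.ext
    simp only
    group

theorem sum_ncard {α : Type} [Finite A] (X : α → Set A) (l : List α)
    (h : l.Pairwise (fun a b => Disjoint (X a) (X b))) :
    (l.map (fun a => ((X a).ncard : ℚ))).sum = (Set.ncard {x | ∃ a ∈ l, x ∈ X a} : ℚ) := by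
  induction l with
  | nil => simp
  | cons a l ih =>
    rw [List.pairwise_cons] at h
    rw [List.map_cons, List.sum_cons, ih h.2]
    have e : {x | ∃ b ∈ a :: l, x ∈ X b} = X a ∪ {x | ∃ b ∈ l, x ∈ X b} := by
      ext x
      simp
    rw [e, Set.ncard_union_eq]
    · push_cast; rfl
    · rw [Set.disjoint_left]
      rintro x hx ⟨b, hb, hxb⟩
      exact Set.disjoint_left.1 (h.1 b hb) hx hxb

theorem restrict_count [Finite A] {E : List Q} (hE : ∀ q, q ∈ E) (lift : Q → A)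
    (hl : ∀ q, lift q ∈ G ∧ π (lift q) = q) (hD : Good G π D) :
    (((reps E (Γ : Set Q) D.S).map fun q => D.conj Γ π q (lift q)).map (wt π)).sum =
      (Nat.card G : ℚ) / Nat.card (G ⊓ Γ.comap π : Subgroup A) * wt π D := by
  classical
  obtain ⟨S, hSS⟩ := good_S hD
  obtain ⟨H, hH, hG, hc, hS⟩ := hD
  have posG : (Nat.card (G ⊓ Γ.comap π : Subgroup A) : ℚ) ≠ 0 := by
    exact_mod_cast Nat.card_pos.ne'
  have posM : (Nat.card D.M : ℚ) ≠ 0 := by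
    rw [← hH]
    exact_mod_cast (Nat.card_pos (α := H)).ne'
  have hM' : ∀ q, (Nat.card (D.conj Γ π q (lift q)).M : ℚ) ≠ 0 := by
    intro q
    haveI : Nonempty (D.conj Γ π q (lift q)).M := by
      refine ⟨1, ?_, ?_⟩
      · show π 1 ∈ (Γ : Set Q)
        rw [map_one]; exact Γ.one_mem
      · show (lift q)⁻¹ * 1 * lift q ∈ D.M
        rw [mul_one, inv_mul_cancel, ← hH]
        exact H.one_mem
    exact_mod_cast Nat.card_pos.ne'
  have h1 : ∀ q, wt π (D.conj Γ π q (lift q)) =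
      (Set.ncard (cosetPart G π Γ D.S q) : ℚ) *
        ((Nat.card (G ⊓ Γ.comap π : Subgroup A) : ℚ)⁻¹ * wt π D) := by
    intro q
    have h2 := card_cosetPart (Γ := Γ) hH hG hS (hl q).1 (hl q).2
    have h3 : (Nat.card (cosetPart G π Γ D.S q) : ℚ) * Nat.card (D.conj Γ π q (lift q)).M =
        Nat.card (G ⊓ Γ.comap π : Subgroup A) * Nat.card D.M := by exact_mod_cast h2
    unfold wt
    rw [card_conj_ker hH, ← Nat.card_coe_set_eq]
    have h4 := hM' q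
    rw [mul_inv, mul_inv]
    have h5 : (Nat.card (D.conj Γ π q (lift q)).M : ℚ)⁻¹ =
        (Nat.card (cosetPart G π Γ D.S q) : ℚ) *
          ((Nat.card (G ⊓ Γ.comap π : Subgroup A) : ℚ)⁻¹ * (Nat.card D.M : ℚ)⁻¹) := by
      field_simp
      linarith
    rw [h5]
    ring
  rw [List.map_map]
  have h6 : (List.map (wt π ∘ fun q => D.conj (Γ : Set Q) π q (lift q)) (reps E (Γ : Set Q) D.S)) =
      (reps E (Γ : Set Q) D.S).map (fun q => (Set.ncard (cosetPart G π Γ D.S q) : ℚ) *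
        ((Nat.card (G ⊓ Γ.comap π : Subgroup A) : ℚ)⁻¹ * wt π D)) :=
    List.map_congr_left (fun q _ => h1 q)
  rw [h6, List.sum_map_mul_right, sum_ncard (cosetPart G π Γ D.S)]
  · have h7 : {x | ∃ a ∈ reps E (Γ : Set Q) D.S, x ∈ cosetPart G π Γ D.S a} = (G : Set A) := by
      ext x
      constructor
      · rintro ⟨a, _, hx⟩
        exact hx.1
      · intro hx
        obtain ⟨q', hq', h⟩ := reps_cover (Γ := Γ) hE S (π x)
        rw [hSS] at hq' h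
        refine ⟨q', hq', hx, ?_⟩
        rw [← hSS] at h ⊢
        exact sdc_symm h
    rw [h7, ← Nat.card_coe_set_eq]
    have : (Nat.card (G : Set A) : ℚ) = Nat.card G := rfl
    rw [this]
    ring
  · refine (reps_pairwise E (Γ : Set Q) D.S).imp ?_
    intro q q' hqq
    rw [Set.disjoint_left]
    rintro x ⟨_, hx⟩ ⟨_, hx'⟩
    apply hqq
    rw [← hSS] at hx hx' ⊢
    exact sdc_trans hx (sdc_symm hx')

theorem restrict_covers {Es : List Q} (hEs : ∀ q, q ∈ Es) (lift : Q → A) (hl : ∀ q, lift q ∈ G ∧ π (lift q) = q)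
    {L : List (Dat A Q)} (hL : ∀ D ∈ L, Good G π D) (hcov : Covers.{u} G π L) :
    Covers.{u} (G ⊓ Γ.comap π) π (restrict Es (Γ : Set Q) π lift L) := by
  intro W _ _ ρ hρ1 hρ E hE hinv
  have hΓ : ∀ x ∈ G, π x = 1 → x ∈ G ⊓ Γ.comap π := by
    intro x hx h1
    exact ⟨hx, show π x ∈ Γ by rw [h1]; exact Γ.one_mem⟩
  obtain ⟨D, hD, g, hg, w, hw, hw0, heig⟩ := hcov W ρ hρ1
    (fun x hx y hy h1 h2 => hρ x (hΓ x hx h1) y (hΓ y hy h2) h1 h2) E hE
    (fun x hx h1 => hinv x (hΓ x hx h1) h1)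
  obtain ⟨S, hSS⟩ := good_S (hL D hD)
  obtain ⟨H, hH, hG, hc, hS⟩ := hL D hD
  have hM : ∀ m, m ∈ D.M ↔ m ∈ H := fun m => by rw [← hH]; rfl
  obtain ⟨q, hq, hsdc⟩ := reps_cover (Γ := Γ) hEs S (π g)
  obtain ⟨x, hx, s, hs, hxs⟩ := sdc_symm hsdc
  rw [hSS] at hs hq
  rw [hS] at hs
  obtain ⟨m0, hm0, rfl⟩ := hs
  rw [hM] at hm0
  set r := lift q with hr
  obtain ⟨hrG, hrq⟩ := hl q
  have hx' : π (g * m0⁻¹ * r⁻¹) = x := by
    rw [map_mul, map_mul, map_inv, map_inv, hrq, hxs]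
    group
  refine ⟨D.conj Γ π q r, List.mem_flatMap.2 ⟨D, hD, List.mem_map.2 ⟨q, hq, rfl⟩⟩,
    g * m0⁻¹ * r⁻¹, ⟨?_, ?_⟩, w, hw, hw0, ?_⟩
  · exact G.mul_mem (G.mul_mem hg (G.inv_mem (hG hm0))) (G.inv_mem hrG)
  · show π (g * m0⁻¹ * r⁻¹) ∈ Γ
    rw [hx']; exact hx
  · rintro h ⟨_, hh⟩ h1
    have hm := (hM _).1 hh
    show ρ (g * m0⁻¹ * r⁻¹ * h * (g * m0⁻¹ * r⁻¹)⁻¹) w = (D.lam (r⁻¹ * h * r) : ℂ) • w
    have h2 : π (r⁻¹ * h * r) = 1 := by
      simp only [map_mul, h1, map_inv, mul_one, inv_mul_cancel]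
    have e : g * m0⁻¹ * r⁻¹ * h * (g * m0⁻¹ * r⁻¹)⁻¹ =
        g * (m0⁻¹ * (r⁻¹ * h * r) * m0⁻¹⁻¹) * g⁻¹ := by group
    have h3 : m0⁻¹ * (r⁻¹ * h * r) * m0⁻¹⁻¹ ∈ H :=
      H.mul_mem (H.mul_mem (H.inv_mem hm0) hm) (H.inv_mem (H.inv_mem hm0))
    have h4 : π (m0⁻¹ * (r⁻¹ * h * r) * m0⁻¹⁻¹) = 1 := by
      simp only [map_mul π (m0⁻¹ * (r⁻¹ * h * r)), map_mul π m0⁻¹, h2, map_inv, mul_one,
        mul_inv_cancel]
    rw [e, heig _ ((hM _).2 h3) h4, hc.conj hm h2 (H.inv_mem hm0)]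

/-- Operation 2 preserves complete systems. -/
theorem restrict_system [Finite A] {E : List Q} (hE : ∀ q, q ∈ E) (lift : Q → A)
    (hl : ∀ q, lift q ∈ G ∧ π (lift q) = q) {L : List (Dat A Q)} (h : System.{u} G π L) :
    System.{u} (G ⊓ Γ.comap π) π (restrict E (Γ : Set Q) π lift L) where
  good := by
    intro D' hD'
    obtain ⟨D, hD, hD'⟩ := List.mem_flatMap.1 hD'
    obtain ⟨q, _, rfl⟩ := List.mem_map.1 hD'
    exact conj_good (h.good D hD) (hl q).1 (hl q).2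
  covers := restrict_covers hE lift hl h.good h.covers
  count := by
    have e := sum_flatMap L (fun D => (reps E (Γ : Set Q) D.S).map fun q =>
      D.conj Γ π q (lift q)) (wt π) _ (fun D hD => restrict_count (Γ := Γ) hE lift hl (h.good D hD))
    unfold restrict
    rw [e, List.sum_map_mul_left, h.count]
    have h1 : (Nat.card G : ℚ) ≠ 0 := by exact_mod_cast Nat.card_pos.ne'
    field_simp

end

end Pool.Agent.W_MP_37527c_al
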