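import Pool.Agent.W_MP_37527c_al.Struct
import Pool.Agent.W_MP_37527c_al.PushStep
import Pool.Agent.W_MP_37527c_al.RestrictStep

/-!
# The family is a complete system
-/

set_option autoImplicit false

universe u

namespace Pool.Agent.W_MP_37527c_al

instance Aut.finite (n : ℕ) : Finite (Aut n) := by
  induction n with
  | zero => exact inferInstanceAs (Finite Unit)
  | succ n ih =>
    exact Finite.of_injective (fun g : Wr (Aut n) => (g.sw, g.l, g.r)) (by
      rintro ⟨a, b, c⟩ ⟨a', b', c'⟩ h
      simp only [Prod.mk.injEq] at h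
      obtain ⟨rfl, rfl, rfl⟩ := h
      rfl)

instance wrAut_finite (n : ℕ) : Finite (Wr (Aut n)) := Aut.finite (n + 1)

section

variable {A Q : Type} [Group A] [Group Q]

theorem System.congr {G : Subgroup A} {π π' : A →* Q} {L : List (Dat A Q)}
    (h : ∀ g ∈ G, π g = π' g) (hs : System.{u} G π L) : System.{u} G π' L where
  good := by
    intro D hD
    obtain ⟨H, hH, hG, hc, hS⟩ := hs.good D hD
    refine ⟨H, hH, hG, ⟨hc.one, ?_⟩, ?_⟩
    · intro m hm n hn
      rw [← h m (hG hm), ← h n (hG hn)]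
      exact hc.mul m hm n hn
    · rw [hS]
      apply Set.image_congr
      intro m hm
      rw [← hH] at hm
      exact h m (hG hm)
  covers := by
    intro W _ _ ρ h1 hmul E hE hinv
    obtain ⟨D, hD, g, hg, w, hw, hw0, hm⟩ := hs.covers W ρ h1
      (fun x hx y hy e1 e2 => hmul x hx y hy (by rw [← h x hx]; exact e1)
        (by rw [← h y hy]; exact e2)) E hE
      (fun x hx e w hw => hinv x hx (by rw [← h x hx]; exact e) w hw)
    obtain ⟨H, hH, hG, hc, hS⟩ := hs.good D hD
    refine ⟨D, hD, g, hg, w, hw, hw0, fun m hm' e => hm m hm' ?_⟩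
    rw [← e]
    rw [← hH] at hm'
    exact h m (hG hm')
  count := by
    rw [← hs.count]
    congr 1
    apply List.map_congr_left
    intro D hD
    obtain ⟨H, hH, hG, hc, hS⟩ := hs.good D hD
    unfold wt
    congr 5
    ext m
    simp only [Set.mem_setOf_eq]
    constructor
    · rintro ⟨hm, e⟩
      refine ⟨hm, ?_⟩
      rw [← hH] at hm
      rw [h m (hG hm), e]
    · rintro ⟨hm, e⟩
      refine ⟨hm, ?_⟩
      rw [← hH] at hm
      rw [← h m (hG hm), e]

theorem trivial_system [Finite A] :
    System.{u} (⊤ : Subgroup A) (MonoidHom.id A) [trivialDatum A] where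
  good := by
    intro D hD
    obtain rfl := List.mem_singleton.1 hD
    refine ⟨⊤, rfl, le_refl _, ⟨rfl, fun m _ n _ => ?_⟩, ?_⟩
    · show (1 : ℂˣ) * 1 = 1 * 1
      rfl
    · show (Set.univ : Set A) = (fun x => x) '' Set.univ
      simp
  covers := by
    intro W _ _ ρ h1 hmul E hE hinv
    obtain ⟨w, hw, hw0⟩ := Submodule.exists_mem_ne_zero_of_ne_bot hE
    refine ⟨_, List.mem_singleton.2 rfl, 1, Subgroup.mem_top _, w, hw, hw0, fun m _ e => ?_⟩
    have e' : m = 1 := e
    subst e'
    rw [mul_one, inv_one, mul_one, h1]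
    show w = ((1 : ℂˣ) : ℂ) • w
    simp
  count := by
    have h1 : (trivialDatum A).M = Set.univ := rfl
    have h2 : {m : A | m ∈ (trivialDatum A).M ∧ (MonoidHom.id A) m = 1} = {1} := by
      ext m
      simp [h1]
    simp only [List.map_cons, List.map_nil, List.sum_cons, List.sum_nil, add_zero]
    unfold wt
    rw [h2, h1]
    simp

end

/-! ### The first three levels -/

instance : DecidableEq (Aut 0) := inferInstanceAs (DecidableEq Unit)
instance : Fintype (Aut 0) := inferInstanceAs (Fintype Unit)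
instance : DecidableEq (Aut 1) := inferInstanceAs (DecidableEq (Wr (Aut 0)))
instance : Fintype (Aut 1) := inferInstanceAs (Fintype (Wr (Aut 0)))
instance : DecidableEq (Aut 2) := inferInstanceAs (DecidableEq (Wr (Aut 1)))
instance : Fintype (Aut 2) := inferInstanceAs (Fintype (Wr (Aut 1)))

theorem Gs_top {n : ℕ} (h : Gn n = ⊤) (ha : (⟨false, gena n, 1⟩ : Wr (Aut n)) ∈ Gs n)
    (hb : (⟨false, genb n, 1⟩ : Wr (Aut n)) ∈ Gs n) (hd : (⟨false, gend n, 1⟩ : Wr (Aut n)) ∈ Gs n) :
    Gs n = ⊤ := by
  have hc : (⟨false, genc n, 1⟩ : Wr (Aut n)) ∈ Gs n := by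
    have := mul_mem hb hd
    rw [wr_mul_false, bd, mul_one] at this
    exact this
  have step : ∀ x : Aut n, (⟨false, x, 1⟩ : Wr (Aut n)) ∈ Gs n →
      ∀ y ∈ Gn n, (⟨false, y, 1⟩ : Wr (Aut n)) ∈ Gs n →
        (⟨false, x * y, 1⟩ : Wr (Aut n)) ∈ Gs n := by
    intro x hx y _ hy
    have := mul_mem hx hy
    rw [wr_mul_false, mul_one] at this
    exact this
  have key : ∀ k : Aut n, (⟨false, k, 1⟩ : Wr (Aut n)) ∈ Gs n := by
    intro k
    have hk : k ∈ Gn n := by rw [h]; exact Subgroup.mem_top _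
    exact Gn_induction (p := fun k => (⟨false, k, 1⟩ : Wr (Aut n)) ∈ Gs n) (one_mem (Gs n))
      (step _ ha) (step _ hb) (step _ hc) (step _ hd) hk
  rw [eq_top_iff]
  rintro ⟨s, l, r⟩ -
  have h1 := mul_mem (key l) (swap_mem (key r))
  rw [wr_mul_false, mul_one, one_mul] at h1
  cases s with
  | false => exact h1
  | true =>
    have h2 := mul_mem (key r) (swap_mem (key l))
    rw [wr_mul_false, mul_one, one_mul] at h2
    have h3 : (⟨true, 1, 1⟩ : Wr (Aut n)) ∈ Gs n := a_mem' n
    have h4 := mul_mem h2 h3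
    rw [wr_mul_true, mul_one, mul_one] at h4
    exact h4

theorem Gn0 : Gn 0 = ⊤ := by
  rw [eq_top_iff]
  intro g _
  have : g = 1 := rfl
  rw [this]; exact one_mem _

theorem Gn1 : Gn 1 = ⊤ := Gs_top Gn0 (one_mem (Gs 0)) (one_mem (Gs 0)) (one_mem (Gs 0))

theorem Gn2 : Gn 2 = ⊤ := by
  refine Gs_top Gn1 ?_ ?_ ?_
  · exact b_mem' 1
  · exact one_mem (Gs 1)
  · exact one_mem (Gs 1)

theorem Gn3 : Gn 3 = ⊤ := by
  have hb : (⟨false, genb 2, 1⟩ : Wr (Aut 2)) ∈ Gs 2 := swap_mem (d_mem' 2)
  refine Gs_top Gn2 ?_ hb ?_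
  · have h := mul_mem (b_mem' 2 : _ ∈ Gs 2) (d_mem' 2 : _ ∈ Gs 2)
    rw [wr_mul_false, mul_one] at h
    exact h
  · exact one_mem (Gs 2)

/-! ### The systems -/

theorem wrSub_top {A : Type} [Group A] : wrSub (⊤ : Subgroup A) = ⊤ := by
  rw [eq_top_iff]
  intro g _
  exact ⟨Subgroup.mem_top _, Subgroup.mem_top _⟩

theorem level2_system : System.{u} (⊤ : Subgroup (Aut 2)) (pi2 0) level2 := by
  have hq : Quot (⊤ : Subgroup (Aut 2)) (MonoidHom.id (Aut 2)) (pi2 0) z0 sec0 :=
    { mem := ⟨z0, Subgroup.mem_top _, rfl⟩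
      ne := by decide +kernel
      sq := by decide +kernel
      cent := by
        have : ∀ g : Aut 2, g * z0 = z0 * g := by decide +kernel
        exact fun g _ => this g
      pz := by decide +kernel
      ker := by
        have : ∀ g : Aut 2, pi2 0 g = 1 → g = 1 ∨ g = z0 := by
          decide +kernel
        exact fun g _ => this g
      sec := by
        have : ∀ g : Aut 2, sec0 (pi2 0 g) = g ∨ sec0 (pi2 0 g) = z0 * g := by
          decide +kernel
        exact fun g _ => this g
      one := by decide +kernel }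
  exact push_system hq trivial_system

theorem level3_system : System.{u} (⊤ : Subgroup (Aut 3)) (pi3 0) level3 := by
  have h1 : System.{u} (⊤ : Subgroup (Wr (Aut 2))) (Wr.map (pi2 0)) (wreath level2) := by
    have := wreath_system level2_system.{u}
    rw [wrSub_top] at this
    exact this
  have hq : Quot (⊤ : Subgroup (Wr (Aut 2))) (Wr.map (pi2 0)) pr3 z3 sec3 :=
    { mem := by
        have : ∃ g : Aut 2, pi2 0 g = (-1, -1) := by decide +kernel
        obtain ⟨g, hg⟩ := this
        refine ⟨⟨false, g, g⟩, Subgroup.mem_top _, ?_⟩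
        rw [map_apply, hg]; rfl
      ne := by decide +kernel
      sq := by decide +kernel
      cent := fun g _ => pr3_cent _
      pz := by decide +kernel
      ker := fun g _ => pr3_ker _
      sec := fun g _ => pr3_sec _
      one := by decide +kernel }
  exact push_system hq h1

theorem pi3_succ (m : ℕ) {g : Aut (m + 4)} (hg : g ∈ Gn (m + 4)) :
    pr2 (Wr.map ab (Wr.map (pi3 m) g)) = pi3 (m + 1) g := by
  let f₀ : Wr (Aut (m + 3)) →* Q16 := pr2.comp ((Wr.map ab).comp (Wr.map (pi3 m)))
  let f : Aut (m + 4) →* Q16 := f₀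
  have h : Set.EqOn f (pi3 (m + 1)) (Gn (m + 4)) := by
    apply MonoidHom.eqOn_closure
    rintro x (rfl | rfl | rfl | rfl)
    · rfl
    · rfl
    · rfl
    · rfl
  exact h hg

/-- The lift used in the recursion. -/
def liftW (m : ℕ) (t : Wr Q16) : Wr (Aut (m + 3)) := wmap (lift (m + 3)) t

theorem liftW_spec (m : ℕ) (t : Wr Q16) :
    liftW m t ∈ wrSub (Gn (m + 3)) ∧ Wr.map (pi3 m) (liftW m t) = t := by
  refine ⟨⟨lift_mem _ _, lift_mem _ _⟩, ?_⟩
  rw [map_apply]
  show (⟨t.sw, pi3 m (lift (m + 3) t.l), pi3 m (lift (m + 3) t.r)⟩ : Wr Q16) = t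
  rw [pi3_lift, pi3_lift]

theorem exists_pre (m : ℕ) {t : Wr Q16} (ht : t ∈ Gam) :
    ∃ g ∈ Gs (m + 3), Wr.map (pi3 m) g = t := by
  obtain ⟨h1, h2⟩ := liftW_spec m t
  refine ⟨liftW m t, ?_, h2⟩
  rw [structure_theorem]
  refine ⟨h1, ?_⟩
  show Wr.map (pi3 m) (liftW m t) ∈ GamSub
  rw [h2]
  exact ht

theorem im_gam (m : ℕ) {g : Wr (Aut (m + 3))} (hg : g ∈ Gs (m + 3)) :
    Wr.map (pi3 m) g ∈ Gam := (map_gen m hg).2

theorem quot1 (m : ℕ) : Quot (Gs (m + 3)) (Wr.map (pi3 m)) (Wr.map ab) z1 sec1 where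
  mem := exists_pre m z1_mem
  ne := by decide +kernel
  sq := by decide +kernel
  cent := fun g hg => by
    rw [gam_par (im_gam m hg)]; exact step1_cent _ _ _ _
  pz := by decide +kernel
  ker := fun g hg => by
    rw [gam_par (im_gam m hg)]; exact step1_ker _ _ _ _
  sec := fun g hg => by
    rw [gam_par (im_gam m hg)]; exact step1_sec _ _ _ _
  one := by decide +kernel

theorem quot2 (m : ℕ) :
    Quot (Gs (m + 3)) ((Wr.map ab).comp (Wr.map (pi3 m))) pr2 z2 sec2 where
  mem := by
    obtain ⟨t, ht, h⟩ := z2_pre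
    obtain ⟨g, hg, h'⟩ := exists_pre m ht
    exact ⟨g, hg, by rw [MonoidHom.comp_apply, h', h]⟩
  ne := by decide +kernel
  sq := by decide +kernel
  cent := fun g hg => by
    rw [MonoidHom.comp_apply, gam_par (im_gam m hg)]; exact step2_cent _ _ _ _
  pz := by decide +kernel
  ker := fun g hg => by
    rw [MonoidHom.comp_apply, gam_par (im_gam m hg)]; exact step2_ker _ _ _ _
  sec := fun g hg => by
    rw [MonoidHom.comp_apply, gam_par (im_gam m hg)]; exact step2_sec _ _ _ _
  one := by decide +kernel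

theorem mem_listWr {A : Type} {E : List A} (hE : ∀ x, x ∈ E) (t : Wr A) : t ∈ listWr E := by
  obtain ⟨s, l, r⟩ := t
  unfold listWr
  refine List.mem_flatMap.2 ⟨s, by cases s <;> simp, List.mem_flatMap.2 ⟨l, hE l, ?_⟩⟩
  exact List.mem_map.2 ⟨r, hE r, rfl⟩

theorem mem_listQ : ∀ q, q ∈ listQ := by decide +kernel

theorem next_system (m : ℕ) {L : List (Dat (Aut (m + 3)) Q16)}
    (h : System.{u} (Gn (m + 3)) (pi3 m) L) :
    System.{u} (Gn (m + 4)) (pi3 (m + 1)) (nextLevel m L) := by
  have h1 := wreath_system h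
  have h2 := restrict_system (Γ := GamSub) (mem_listWr mem_listQ) (liftW m) (liftW_spec m) h1
  rw [← structure_theorem] at h2
  have h3 := push_system (quot1 m) h2
  have h4 := push_system (quot2 m) h3
  exact System.congr (A := Aut (m + 4)) (fun g hg => pi3_succ m hg) h4

theorem levels_system (m : ℕ) : System.{u} (Gn (m + 3)) (pi3 m) (levels m) := by
  induction m with
  | zero => rw [Gn3]; exact level3_system
  | succ m ih => exact next_system m ih

/-! ### The last steps -/

section finish

variable {A : Type} [Group A] [Finite A] {G : Subgroup A}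

theorem units_neg_one_ne : (-1 : ℤˣ) ≠ 1 := by decide

theorem units_cases (x : ℤˣ) (h : x ≠ 1) : x = -1 := (Int.units_eq_one_or x).resolve_left h

theorem finish2_system {π : A →* Q4} (hπ : ∀ q, ∃ g ∈ G, π g = q) {L : List (Dat A Q4)}
    (h : System.{u} G π L) : System.{u} G (1 : A →* Unit) (finish2 π L) := by
  have q1 : Quot G π (MonoidHom.snd ℤˣ ℤˣ) (-1, 1) (fun x => (1, x)) :=
    { mem := hπ _
      ne := by decide +kernel
      sq := by decide +kernel
      cent := fun g _ => mul_comm _ _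
      pz := rfl
      ker := by
        have : ∀ q : Q4, q.2 = 1 → q = 1 ∨ q = (-1, 1) := by decide +kernel
        exact fun g _ => this _
      sec := by
        have : ∀ q : Q4, ((1, q.2) : Q4) = q ∨ ((1, q.2) : Q4) = (-1, 1) * q := by decide +kernel
        exact fun g _ => this _
      one := rfl }
  have h1 := push_system q1 h
  have q2 : Quot G ((MonoidHom.snd ℤˣ ℤˣ).comp π) (1 : ℤˣ →* Unit) (-1) (fun _ => 1) :=
    { mem := by
        obtain ⟨g, hg, e⟩ := hπ (1, -1)
        exact ⟨g, hg, by rw [MonoidHom.comp_apply, e]; rfl⟩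
      ne := by decide +kernel
      sq := by decide +kernel
      cent := fun g _ => mul_comm _ _
      pz := rfl
      ker := fun g _ _ => Int.units_eq_one_or _
      sec := by
        have : ∀ q : ℤˣ, (1 : ℤˣ) = q ∨ (1 : ℤˣ) = -1 * q := by decide +kernel
        exact fun g _ => this _
      one := rfl }
  exact push_system q2 h1

theorem finish3_system {π : A →* Q16} (hπ : ∀ q, ∃ g ∈ G, π g = q) {L : List (Dat A Q16)}
    (h : System.{u} G π L) : System.{u} G (1 : A →* Unit) (finish3 π L) := by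
  have q1 : Quot G π ab z4 sec4 :=
    { mem := hπ _
      ne := by decide +kernel
      sq := by decide +kernel
      cent := fun g _ => ab_cent _
      pz := by decide +kernel
      ker := fun g _ => ab_ker _
      sec := fun g _ => ab_sec _
      one := by decide +kernel }
  have h1 := push_system q1 h
  have hab : ∀ x : Q8, ∃ q : Q16, ab q = x := by decide +kernel
  have q2 : Quot G (ab.comp π) (MonoidHom.snd ℤˣ (ℤˣ × ℤˣ)) (-1, 1, 1) (fun x => (1, x)) :=
    { mem := by
        obtain ⟨q, hq⟩ := hab (-1, 1, 1)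
        obtain ⟨g, hg, e⟩ := hπ q
        exact ⟨g, hg, by rw [MonoidHom.comp_apply, e, hq]⟩
      ne := by decide +kernel
      sq := by decide +kernel
      cent := fun g _ => mul_comm _ _
      pz := rfl
      ker := by
        have : ∀ q : Q8, q.2 = 1 → q = 1 ∨ q = (-1, 1, 1) := by decide +kernel
        exact fun g _ => this _
      sec := by
        have : ∀ q : Q8, ((1, q.2) : Q8) = q ∨ ((1, q.2) : Q8) = (-1, 1, 1) * q := by
          decide +kernel
        exact fun g _ => this _
      one := rfl }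
  have h2 := push_system q2 h1
  refine finish2_system (π := (MonoidHom.snd ℤˣ (ℤˣ × ℤˣ)).comp (ab.comp π)) ?_ h2
  intro x
  obtain ⟨q, hq⟩ := hab (1, x)
  obtain ⟨g, hg, e⟩ := hπ q
  exact ⟨g, hg, by rw [MonoidHom.comp_apply, MonoidHom.comp_apply, e, hq]; rfl⟩

end finish

/-- The main theorem on the recursive construction. -/
theorem family_system (n : ℕ) : System.{u} (Gn n) (1 : Aut n →* Unit) (family n) := by
  match n with
  | 0 =>
    rw [Gn0]
    exact trivial_system (A := Aut 0)
  | 1 =>
    rw [Gn1]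
    have q : Quot (⊤ : Subgroup (Aut 1)) (MonoidHom.id (Aut 1)) (1 : Aut 1 →* Unit) (gena 1)
        (fun _ => 1) :=
      { mem := ⟨gena 1, Subgroup.mem_top _, rfl⟩
        ne := by decide +kernel
        sq := by decide +kernel
        cent := by
          have : ∀ g : Aut 1, g * gena 1 = gena 1 * g := by decide +kernel
          exact fun g _ => this g
        pz := rfl
        ker := by
          have : ∀ g : Aut 1, g = 1 ∨ g = gena 1 := by decide +kernel
          exact fun g _ _ => this g
        sec := by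
          have : ∀ g : Aut 1, (1 : Aut 1) = g ∨ (1 : Aut 1) = gena 1 * g := by decide +kernel
          exact fun g _ => this g
        one := rfl }
    exact push_system q trivial_system
  | 2 =>
    rw [Gn2]
    refine finish2_system ?_ level2_system
    have : ∀ q : Q4, ∃ g : Aut 2, pi2 0 g = q := by decide +kernel
    intro q
    obtain ⟨g, hg⟩ := this q
    exact ⟨g, Subgroup.mem_top _, hg⟩
  | m + 3 =>
    exact finish3_system (fun q => ⟨lift (m + 3) q, lift_mem _ _, pi3_lift _ _⟩) (levels_system m)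

end Pool.Agent.W_MP_37527c_al
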