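import Pool.Agent.W_MP_37527c_al.Defs

/-!
# Induced monomial representations
-/

set_option autoImplicit false

namespace Pool.Agent.W_MP_37527c_al

variable {Γ A Q : Type} [Group Γ]

/-- The functions `f` on `Γ` with `f (g * m) = lam (m)⁻¹ * f g` for all `m` in `M`, where `M` and
`lam` are those of the datum `D`, transported to `Γ` by `φ`. -/
def indSpace (φ : Γ → A) (D : Dat A Q) : Submodule ℂ (Γ → ℂ) where
  carrier := {f | ∀ g m, φ m ∈ D.M → f (g * m) = (((D.lam (φ m))⁻¹ : ℂˣ) : ℂ) * f g}
  zero_mem' := fun g m _ => by simp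
  add_mem' := by
    intro f f' h h' g m hm
    simp only [Pi.add_apply, h g m hm, h' g m hm, mul_add]
  smul_mem' := by
    intro c f h g m hm
    simp only [Pi.smul_apply, smul_eq_mul, h g m hm]
    ring

/-- The representation of `Γ` induced from the character `lam` of `M`: the group `Γ` acts on the
space of functions `indSpace φ D` by left translations. -/
def ind (φ : Γ → A) (D : Dat A Q) : Representation ℂ Γ (indSpace φ D) where
  toFun h :=
    { toFun := fun f => ⟨fun g => f.1 (h⁻¹ * g), fun g m hm => by
        show f.1 (h⁻¹ * (g * m)) = _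
        rw [← mul_assoc]; exact f.2 (h⁻¹ * g) m hm⟩
      map_add' := fun f f' => rfl
      map_smul' := fun c f => rfl }
  map_one' := by
    ext f g
    show f.1 (1⁻¹ * g) = f.1 g
    rw [inv_one, one_mul]
  map_mul' h h' := by
    ext f g
    show f.1 ((h * h')⁻¹ * g) = f.1 (h'⁻¹ * (h⁻¹ * g))
    rw [mul_inv_rev, mul_assoc]

end Pool.Agent.W_MP_37527c_al
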