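import Pool.Agent.W_MP_37527c_al.System
import Pool.Agent.W_MP_37527c_al.Ind

/-!
# A complete system for the trivial quotient gives all irreducible representations
-/

set_option autoImplicit false

universe u

open Representation

namespace Pool.Agent.W_MP_37527c_al

section

variable {Γ A Q : Type} [Group Γ] [Group A] [Group Q] {G : Subgroup A}
  {L : List (Dat A Q)} {φ : Γ →* A}

/-- A datum over the trivial group. -/
def Mono (D : Dat A Q) (H : Subgroup A) : Prop :=
  (H : Set A) = D.M ∧ D.lam 1 = 1 ∧ ∀ m ∈ H, ∀ n ∈ H, D.lam (m * n) = D.lam m * D.lam n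

theorem mono_of_good {D : Dat A Q} (h : Good G (1 : A →* Q) D) : ∃ H : Subgroup A, Mono D H ∧ H ≤ G := by
  obtain ⟨H, hH, hG, hc, _⟩ := h
  exact ⟨H, ⟨hH, hc.one, fun m hm n hn => hc.mul_ker hn rfl hm⟩, hG⟩

theorem Mono.inv {D : Dat A Q} {H : Subgroup A} (h : Mono D H) {m : A} (hm : m ∈ H) :
    D.lam m⁻¹ = (D.lam m)⁻¹ := by
  have := h.2.2 _ (H.inv_mem hm) _ hm
  rw [inv_mul_cancel, h.2.1] at this
  exact eq_inv_of_mul_eq_one_left this.symm

theorem ind_apply (D : Dat A Q) (h : Γ) (f : indSpace φ D) (g : Γ) :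
    (ind φ D h f).1 g = f.1 (h⁻¹ * g) := rfl

/-- The eigenvectors of representations of `Γ`. -/
theorem exists_eigen (hφ : Function.Injective φ) (hr : φ.range = G)
    (hL : System.{u} G (1 : A →* Q) L) {V : Type u} [AddCommGroup V] [Module ℂ V]
    (σ : Representation ℂ Γ V) (E : Submodule ℂ V) (hE : E ≠ ⊥)
    (hinv : ∀ g, ∀ v ∈ E, σ g v ∈ E) :
    ∃ D ∈ L, ∃ w ∈ E, w ≠ 0 ∧ ∀ γ : Γ, φ γ ∈ D.M → σ γ w = (D.lam (φ γ) : ℂ) • w := by
  classical
  let pre : A → Γ := fun x => if h : ∃ γ, φ γ = x then h.choose else 1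
  have hpre : ∀ γ, pre (φ γ) = γ := by
    intro γ
    have h : ∃ γ', φ γ' = φ γ := ⟨γ, rfl⟩
    simp only [pre, dif_pos h]
    exact hφ h.choose_spec
  have hmem : ∀ x, x ∈ G ↔ ∃ γ, φ γ = x := fun x => by rw [← hr]; rfl
  obtain ⟨D, hD, g, hg, w, hw, hw0, heig⟩ := hL.covers V (fun x => σ (pre x))
    (by
      have : pre 1 = 1 := by rw [← map_one φ, hpre]
      show σ (pre 1) = _
      rw [this, map_one]; rfl)
    (by
      intro x hx y hy _ _
      obtain ⟨a, rfl⟩ := (hmem x).1 hx
      obtain ⟨b, rfl⟩ := (hmem y).1 hy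
      show σ (pre (φ a * φ b)) = σ (pre (φ a)) ∘ₗ σ (pre (φ b))
      rw [← map_mul, hpre, hpre, hpre, map_mul]
      rfl) E hE
    (by
      intro x hx _ v hv
      exact hinv _ v hv)
  obtain ⟨γ₀, rfl⟩ := (hmem g).1 hg
  refine ⟨D, hD, σ γ₀⁻¹ w, hinv _ w hw, ?_, ?_⟩
  · intro h
    apply hw0
    have : σ γ₀ (σ γ₀⁻¹ w) = w := by
      rw [← Module.End.mul_apply, ← map_mul, mul_inv_cancel, map_one]; rfl
    rw [← this, h, map_zero]
  · intro γ hγ
    have h1 := heig (φ γ) hγ rfl
    rw [← map_mul, ← map_inv, ← map_mul, hpre] at h1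
    have h2 : σ γ (σ γ₀⁻¹ w) = σ γ₀⁻¹ (σ (γ₀ * γ * γ₀⁻¹) w) := by
      rw [← Module.End.mul_apply, ← map_mul, ← Module.End.mul_apply, ← map_mul]
      congr 2
      group
    rw [h2, h1, map_smul]

variable [Fintype Γ]

/-- The intertwining map given by an eigenvector. -/
noncomputable def fromEigen {V : Type u} [AddCommGroup V] [Module ℂ V] (σ : Representation ℂ Γ V)
    (D : Dat A Q) (w : V) : IntertwiningMap (ind φ D) σ :=
  LinearMap.intertwiningMap_of_isIntertwiningMap (ind φ D) σ
    { toFun := fun f => ∑ g, f.1 g • σ g w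
      map_add' := fun f f' => by
        simp only [Submodule.coe_add, Pi.add_apply, add_smul, Finset.sum_add_distrib]
      map_smul' := fun c f => by
        simp only [Submodule.coe_smul, Pi.smul_apply, smul_eq_mul, mul_smul, Finset.smul_sum,
          RingHom.id_apply] }
    (by
      intro h f
      show ∑ g, (f.1 (h⁻¹ * g)) • σ g w = σ h (∑ g, f.1 g • σ g w)
      rw [map_sum]
      refine Fintype.sum_equiv (Equiv.mulLeft h⁻¹) _ _ (fun g => ?_)
      rw [map_smul, Equiv.coe_mulLeft, ← Module.End.mul_apply, ← map_mul, mul_inv_cancel_left])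

theorem fromEigen_apply {V : Type u} [AddCommGroup V] [Module ℂ V] (σ : Representation ℂ Γ V)
    (D : Dat A Q) (w : V) (f : indSpace φ D) :
    fromEigen (φ := φ) σ D w f = ∑ g, f.1 g • σ g w := rfl

open Classical in
/-- The basic function in the induced space. -/
noncomputable def delta (D : Dat A Q) {H : Subgroup A} (h : Mono D H) : indSpace φ D :=
  ⟨fun g => if φ g ∈ D.M then (((D.lam (φ g))⁻¹ : ℂˣ) : ℂ) else 0, by
    intro g m hm
    have hM : ∀ m, m ∈ D.M ↔ m ∈ H := fun m => by rw [← h.1]; rfl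
    rw [hM] at hm
    by_cases hg : φ g ∈ D.M
    · have hg' := (hM _).1 hg
      have hgm : φ (g * m) ∈ D.M := by rw [hM, map_mul]; exact H.mul_mem hg' hm
      simp only [if_pos hg, if_pos hgm]
      rw [map_mul, h.2.2 _ hg' _ hm, mul_inv, mul_comm, Units.val_mul]
    · have hgm : φ (g * m) ∉ D.M := by
        intro h'
        apply hg
        rw [hM, map_mul] at h'
        rw [hM]
        have := H.mul_mem h' (H.inv_mem hm)
        rwa [mul_inv_cancel_right] at this
      simp only [if_neg hg, if_neg hgm, mul_zero]⟩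

theorem delta_apply_one (D : Dat A Q) {H : Subgroup A} (h : Mono D H) :
    (delta (φ := φ) D h).1 1 = 1 := by
  classical
  have : φ 1 ∈ D.M := by rw [map_one, ← h.1]; exact H.one_mem
  show (if φ 1 ∈ D.M then (((D.lam (φ 1))⁻¹ : ℂˣ) : ℂ) else 0) = 1
  rw [if_pos this, map_one, h.2.1, inv_one]
  rfl

theorem fromEigen_delta {V : Type u} [AddCommGroup V] [Module ℂ V] (σ : Representation ℂ Γ V)
    (D : Dat A Q) {H : Subgroup A} (h : Mono D H) {w : V}
    (hw : ∀ γ : Γ, φ γ ∈ D.M → σ γ w = (D.lam (φ γ) : ℂ) • w) :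
    fromEigen (φ := φ) σ D w (delta D h) = (Set.ncard {γ : Γ | φ γ ∈ D.M} : ℂ) • w := by
  classical
  rw [fromEigen_apply]
  have : ∀ g, (delta (φ := φ) D h).1 g • σ g w = if φ g ∈ D.M then w else 0 := by
    intro g
    show (if φ g ∈ D.M then (((D.lam (φ g))⁻¹ : ℂˣ) : ℂ) else 0) • σ g w = _
    by_cases hg : φ g ∈ D.M
    · rw [if_pos hg, if_pos hg, hw g hg, smul_smul, ← Units.val_mul, inv_mul_cancel,
        Units.val_one, one_smul]
    · rw [if_neg hg, if_neg hg, zero_smul]
  simp only [this]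
  rw [← Finset.sum_filter, Finset.sum_const, ← Nat.cast_smul_eq_nsmul ℂ]
  congr 2
  rw [Set.ncard_eq_toFinset_card']
  congr 1
  ext x
  simp

theorem ncard_pos {D : Dat A Q} {H : Subgroup A} (h : Mono D H) :
    0 < Set.ncard {γ : Γ | φ γ ∈ D.M} := by
  rw [Set.ncard_pos]
  exact ⟨1, by show φ 1 ∈ D.M; rw [map_one, ← h.1]; exact H.one_mem⟩

/-! ### The group algebra -/

theorem left_ideal_idem (N : Submodule (MonoidAlgebra ℂ Γ) (MonoidAlgebra ℂ Γ)) :
    ∃ e ∈ N, ∀ v ∈ N, v * e = v := by
  haveI : Invertible (Nat.card Γ : ℂ) := invertibleOfNonzero (by exact_mod_cast Nat.card_pos.ne')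
  obtain ⟨J, hJ⟩ := exists_isCompl N
  have h1 : (1 : MonoidAlgebra ℂ Γ) ∈ N ⊔ J := by rw [hJ.sup_eq_top]; trivial
  obtain ⟨e, he, j, hj, hej⟩ := Submodule.mem_sup.1 h1
  refine ⟨e, he, fun v hv => ?_⟩
  have h2 : v * j ∈ J := J.smul_mem v hj
  have h3 : v * j = v - v * e := by
    have : v * e + v * j = v := by rw [← mul_add, hej, mul_one]
    exact eq_sub_of_add_eq' this
  have h4 : v * j ∈ N := by
    rw [h3]
    exact N.sub_mem hv (N.smul_mem v he)
  have h5 : v * j = 0 := by
    have := Submodule.disjoint_def.1 hJ.disjoint _ h4 h2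
    exact this
  rw [h5] at h3
  exact (sub_eq_zero.1 h3.symm).symm


variable (φ L) in
/-- The action of the group algebra on all the induced representations. -/
noncomputable def bigHom : MonoidAlgebra ℂ Γ →ₐ[ℂ]
    (∀ i : Fin L.length, Module.End ℂ (indSpace φ (L.get i))) :=
  Pi.algHom ℂ _ (fun i => (ind φ (L.get i)).asAlgebraHom)

theorem bigHom_apply (a : MonoidAlgebra ℂ Γ) (i : Fin L.length) :
    bigHom L φ a i = (ind φ (L.get i)).asAlgebraHom a := rfl

/-- Left multiplications. -/
noncomputable def regRep (Γ : Type) [Group Γ] : Representation ℂ Γ (MonoidAlgebra ℂ Γ) where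
  toFun g := LinearMap.mulLeft ℂ (MonoidAlgebra.single g 1)
  map_one' := by
    ext x
    simp [← MonoidAlgebra.one_def]
  map_mul' g h := by
    apply LinearMap.ext
    intro x
    simp only [LinearMap.mulLeft_apply, Module.End.mul_apply]
    rw [← mul_assoc, MonoidAlgebra.single_mul_single, one_mul]

theorem regRep_apply (g : Γ) (x : MonoidAlgebra ℂ Γ) :
    regRep Γ g x = MonoidAlgebra.single g 1 * x := rfl

theorem intertwine_alg {V W : Type*} [AddCommGroup V] [Module ℂ V] [AddCommGroup W] [Module ℂ W]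
    {ρ : Representation ℂ Γ V} {σ : Representation ℂ Γ W} (T : IntertwiningMap ρ σ)
    (a : MonoidAlgebra ℂ Γ) (v : V) : T (ρ.asAlgebraHom a v) = σ.asAlgebraHom a (T v) := by
  induction a using MonoidAlgebra.induction_linear with
  | zero => simp
  | add a b ha hb => simp only [map_add, LinearMap.add_apply, ha, hb]
  | single g r =>
    rw [asAlgebraHom_single, asAlgebraHom_single, LinearMap.smul_apply, LinearMap.smul_apply,
      map_smul, T.isIntertwining]

theorem regRep_alg (a x : MonoidAlgebra ℂ Γ) : (regRep Γ).asAlgebraHom a x = a * x := by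
  induction a using MonoidAlgebra.induction_linear with
  | zero => simp
  | add a b ha hb => simp only [map_add, LinearMap.add_apply, ha, hb, add_mul]
  | single g r =>
    rw [asAlgebraHom_single, LinearMap.smul_apply, regRep_apply, ← smul_mul_assoc,
      MonoidAlgebra.smul_single, smul_eq_mul, mul_one]

/-- Dimension count for algebra homomorphisms into a product of endomorphism algebras. -/
theorem surjective_of_count {R : Type} [Ring R] [Algebra ℂ R] [FiniteDimensional ℂ R] {ι : Type}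
    [Fintype ι] (V : ι → Type) [∀ i, AddCommGroup (V i)] [∀ i, Module ℂ (V i)]
    [∀ i, FiniteDimensional ℂ (V i)] (Φ : R →ₐ[ℂ] (∀ i, Module.End ℂ (V i)))
    (hinj : Function.Injective Φ) (d : ι → ℕ) (hd : ∀ i, Module.finrank ℂ (V i) ≤ d i)
    (hsum : ∑ i, d i * d i = Module.finrank ℂ R) :
    Function.Surjective Φ ∧ ∀ i, Module.finrank ℂ (V i) = d i := by
  have h3 : Module.finrank ℂ (∀ i, Module.End ℂ (V i)) =
      ∑ i, Module.finrank ℂ (V i) * Module.finrank ℂ (V i) := by
    rw [Module.finrank_pi_fintype]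
    refine Finset.sum_congr rfl (fun i _ => ?_)
    exact Module.finrank_linearMap ℂ ℂ _ _
  have hinj' : Function.Injective Φ.toLinearMap := hinj
  have h2 : Module.finrank ℂ R ≤ Module.finrank ℂ (∀ i, Module.End ℂ (V i)) :=
    LinearMap.finrank_le_finrank_of_injective hinj'
  have h5 : ∀ i ∈ Finset.univ, Module.finrank ℂ (V i) * Module.finrank ℂ (V i) ≤ d i * d i :=
    fun i _ => Nat.mul_le_mul (hd i) (hd i)
  rw [h3, ← hsum] at h2
  have h6 := le_antisymm h2 (Finset.sum_le_sum h5)
  have h7 := (Finset.sum_eq_sum_iff_of_le h5).1 h6.symm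
  refine ⟨?_, fun i => Nat.mul_self_inj.1 (h7 i (Finset.mem_univ i))⟩
  have h9 : Module.finrank ℂ R = Module.finrank ℂ (∀ i, Module.End ℂ (V i)) := by
    rw [h3, ← hsum, h6]
  exact (LinearMap.injective_iff_surjective_of_finrank_eq_finrank h9).1 hinj'

theorem bigHom_injective (hφ : Function.Injective φ) (hr : φ.range = G)
    (hL : System.{0} G (1 : A →* Q) L) : Function.Injective (bigHom L φ) := by
  classical
  rw [injective_iff_map_eq_zero]
  intro a ha
  by_contra hne
  -- the kernel as a subspace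
  obtain ⟨D, hD, w, hw, hw0, heig⟩ := exists_eigen hφ hr hL (regRep Γ)
    (LinearMap.ker (bigHom L φ).toLinearMap)
    (by
      intro h
      have : a ∈ LinearMap.ker (bigHom L φ).toLinearMap := ha
      rw [h, Submodule.mem_bot] at this
      exact hne this)
    (by
      intro g v hv
      rw [LinearMap.mem_ker, AlgHom.toLinearMap_apply] at hv ⊢
      rw [regRep_apply, map_mul, hv, mul_zero])
  have hw' : bigHom L φ w = 0 := hw
  obtain ⟨H, hH, hHG⟩ := mono_of_good (hL.good D hD)
  obtain ⟨i, hi⟩ := List.get_of_mem hD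
  -- the kernel kills `w`
  have hkill : ∀ b, bigHom L φ b = 0 → b * w = 0 := by
    intro b hb
    have h1 : (ind φ D).asAlgebraHom b = 0 := by
      rw [← hi]
      exact congrFun hb i
    have h2 := intertwine_alg (fromEigen (φ := φ) (regRep Γ) D w) b (delta D hH)
    rw [h1, LinearMap.zero_apply, map_zero, fromEigen_delta _ _ _ heig, regRep_alg,
      mul_smul_comm] at h2
    have h3 : (Set.ncard {γ : Γ | φ γ ∈ D.M} : ℂ) ≠ 0 := by
      exact_mod_cast (ncard_pos (φ := φ) hH).ne'
    exact (smul_eq_zero.1 h2.symm).resolve_left h3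
  let N : Submodule (MonoidAlgebra ℂ Γ) (MonoidAlgebra ℂ Γ) :=
    { carrier := {v | bigHom L φ v = 0 ∧ ∀ b, bigHom L φ b = 0 → b * v = 0}
      zero_mem' := ⟨map_zero _, fun b _ => mul_zero b⟩
      add_mem' := by
        rintro x y ⟨h1, h2⟩ ⟨h3, h4⟩
        exact ⟨by rw [map_add, h1, h3, add_zero], fun b hb => by
          rw [mul_add, h2 b hb, h4 b hb, add_zero]⟩
      smul_mem' := by
        rintro c x ⟨h1, h2⟩
        refine ⟨by rw [smul_eq_mul, map_mul, h1, mul_zero], fun b hb => ?_⟩
        rw [smul_eq_mul, ← mul_assoc]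
        exact h2 (b * c) (by rw [map_mul, hb, zero_mul]) }
  obtain ⟨e, he, hv⟩ := left_ideal_idem N
  have h1 : e * e = e := hv e he
  have h2 : e * e = 0 := he.2 e he.1
  have h3 := hv w ⟨hw', hkill⟩
  rw [← h1, h2, mul_zero] at h3
  exact hw0 h3.symm

/-! ### Dimensions -/

theorem finrank_le {D : Dat A Q} {H : Subgroup A} (h : Mono D H) :
    FiniteDimensional ℂ (indSpace φ D) ∧
      Module.finrank ℂ (indSpace φ D) ≤ (H.comap φ).index := by
  classical
  let T : indSpace φ D →ₗ[ℂ] (Γ ⧸ H.comap φ → ℂ) :=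
    { toFun := fun f q => f.1 q.out
      map_add' := fun f f' => rfl
      map_smul' := fun c f => rfl }
  have hT : Function.Injective T := by
    rw [injective_iff_map_eq_zero]
    intro f hf
    ext g
    have h1 : f.1 (QuotientGroup.mk g : Γ ⧸ H.comap φ).out = 0 :=
      congrFun hf (QuotientGroup.mk g : Γ ⧸ H.comap φ)
    obtain ⟨m, hm⟩ := QuotientGroup.mk_out_eq_mul (H.comap φ) g
    rw [hm, f.2 g m (by rw [← h.1]; exact m.2)] at h1
    exact (mul_eq_zero.1 h1).resolve_left (Units.ne_zero _)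
  have hfd : FiniteDimensional ℂ (indSpace φ D) := Module.Finite.of_injective T hT
  refine ⟨hfd, ?_⟩
  have h2 := LinearMap.finrank_le_finrank_of_injective hT
  rw [Module.finrank_fintype_fun_eq_card, ← Nat.card_eq_fintype_card] at h2
  exact h2

theorem index_mul {D : Dat A Q} {H : Subgroup A} (hφ : Function.Injective φ) (hr : φ.range = G)
    (h : Mono D H) (hHG : H ≤ G) :
    ((H.comap φ).index : ℚ) = Nat.card Γ * (Nat.card D.M : ℚ)⁻¹ := by
  have h1 := (H.comap φ).card_mul_index
  have h2 : Nat.card (H.comap φ) = Nat.card D.M := by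
    rw [← h.1]
    refine Nat.card_congr (Equiv.ofBijective (fun γ => (⟨φ γ, γ.2⟩ : (H : Set A))) ⟨?_, ?_⟩)
    · intro a b hab
      exact Subtype.ext (hφ (congrArg Subtype.val hab))
    · rintro ⟨x, hx⟩
      obtain ⟨γ, rfl⟩ : x ∈ φ.range := hr ▸ hHG hx
      exact ⟨⟨γ, hx⟩, rfl⟩
  have h3 : (Nat.card D.M : ℚ) ≠ 0 := by
    rw [← h2]
    exact_mod_cast Nat.card_pos.ne'
  rw [← h1, h2]
  push_cast
  field_simp

theorem wt_trivial {D : Dat A Q} {H : Subgroup A} (h : Mono D H) :
    wt (1 : A →* Q) D = (Nat.card D.M : ℚ)⁻¹ * (Nat.card D.M : ℚ)⁻¹ := by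
  unfold wt
  have : {m | m ∈ D.M ∧ (1 : A →* Q) m = 1} = D.M := by
    ext m
    simp
  rw [this, mul_inv]

theorem sum_index (hφ : Function.Injective φ) (hr : φ.range = G)
    (hL : System.{u} G (1 : A →* Q) L) (H : Fin L.length → Subgroup A)
    (hH : ∀ i, Mono (L.get i) (H i)) (hHG : ∀ i, H i ≤ G) :
    ∑ i, ((H i).comap φ).index * ((H i).comap φ).index = Nat.card Γ := by
  have h1 : (∑ i, (((H i).comap φ).index : ℚ) * ((H i).comap φ).index) = Nat.card Γ := by
    have h2 : ∀ i, (((H i).comap φ).index : ℚ) * ((H i).comap φ).index =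
        Nat.card Γ * Nat.card Γ * wt (1 : A →* Q) (L.get i) := by
      intro i
      rw [index_mul hφ hr (hH i) (hHG i), wt_trivial (hH i)]
      ring
    simp only [h2]
    rw [← Finset.mul_sum]
    have h3 : ∑ i : Fin L.length, wt (1 : A →* Q) (L.get i) = (L.map (wt (1 : A →* Q))).sum := by
      conv_rhs => rw [← List.ofFn_get L, List.map_ofFn, List.sum_ofFn]
      rfl
    have h4 : (Nat.card G : ℚ) = Nat.card Γ := by
      rw [← hr]
      exact_mod_cast (Nat.card_congr (MonoidHom.ofInjective hφ).toEquiv).symm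
    rw [h3, hL.count, h4]
    have h5 : (Nat.card Γ : ℚ) ≠ 0 := by exact_mod_cast Nat.card_pos.ne'
    field_simp
  exact_mod_cast h1

theorem finrank_groupAlgebra : Module.finrank ℂ (MonoidAlgebra ℂ Γ) = Nat.card Γ := by
  rw [Nat.card_eq_fintype_card]
  have e : MonoidAlgebra ℂ Γ ≃ₗ[ℂ] (Γ →₀ ℂ) := MonoidAlgebra.coeffLinearEquiv ℂ
  rw [e.finrank_eq, Module.finrank_finsupp_self]

theorem bigHom_surjective (hφ : Function.Injective φ) (hr : φ.range = G)
    (hL : System.{0} G (1 : A →* Q) L) : Function.Surjective (bigHom L φ) ∧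
      ∀ i (H : Subgroup A), Mono (L.get i) H → H ≤ G →
        Module.finrank ℂ (indSpace φ (L.get i)) = (H.comap φ).index := by
  classical
  have hex : ∀ i : Fin L.length, ∃ H : Subgroup A, Mono (L.get i) H ∧ H ≤ G := fun i =>
    mono_of_good (hL.good _ (L.get_mem i))
  choose H hH hHG using hex
  haveI : ∀ i, FiniteDimensional ℂ (indSpace φ (L.get i)) := fun i => (finrank_le (hH i)).1
  haveI : FiniteDimensional ℂ (MonoidAlgebra ℂ Γ) :=
    Module.Finite.equiv (MonoidAlgebra.coeffLinearEquiv (S := ℂ) (M := Γ) ℂ).symm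
  have h4 := sum_index hφ hr hL H hH hHG
  rw [← finrank_groupAlgebra] at h4
  have h := surjective_of_count (fun i => indSpace φ (L.get i)) (bigHom L φ)
    (bigHom_injective hφ hr hL) (fun i => ((H i).comap φ).index)
    (fun i => (finrank_le (hH i)).2) h4
  refine ⟨h.1, ?_⟩
  intro i H' hH' _
  have : H' = H i := by
    have := hH'.1.trans (hH i).1.symm
    exact SetLike.coe_injective this
  rw [this]
  exact h.2 i

/-! ### The main conclusions -/

theorem ind_irreducible (hφ : Function.Injective φ) (hr : φ.range = G)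
    (hL : System.{0} G (1 : A →* Q) L) (i : Fin L.length) :
    IsIrreducible (ind φ (L.get i)) := by
  classical
  obtain ⟨H, hH, hHG⟩ := mono_of_good (hL.good _ (L.get_mem i))
  have hsurj := (bigHom_surjective hφ hr hL).1
  have hne : ∃ f : indSpace φ (L.get i), f ≠ 0 := by
    refine ⟨delta (L.get i) hH, fun h => ?_⟩
    have h1 := delta_apply_one (φ := φ) (L.get i) hH
    rw [h] at h1
    simp at h1
  obtain ⟨f₀, hf₀⟩ := hne
  haveI : Nontrivial (Subrepresentation (ind φ (L.get i))) := by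
    refine ⟨⊥, ⊤, fun h => hf₀ ?_⟩
    have h1 : f₀ ∈ (⊤ : Subrepresentation (ind φ (L.get i))) := trivial
    rw [← h] at h1
    exact h1
  refine ⟨fun U => ?_⟩
  by_cases hU : U = ⊥
  · exact Or.inl hU
  · right
    obtain ⟨u, hu, hu0⟩ : ∃ u ∈ U, u ≠ 0 := by
      by_contra hcon
      push Not at hcon
      apply hU
      apply le_antisymm _ bot_le
      intro x hx
      exact hcon x hx
    have hUa : ∀ a : MonoidAlgebra ℂ Γ, (ind φ (L.get i)).asAlgebraHom a u ∈ U := by
      intro a
      induction a using MonoidAlgebra.induction_linear with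
      | zero => rw [map_zero]; exact U.toSubmodule.zero_mem
      | add a b ha hb =>
        rw [map_add]
        exact U.toSubmodule.add_mem ha hb
      | single g r =>
        rw [asAlgebraHom_single]
        exact U.toSubmodule.smul_mem r (U.apply_mem_toSubmodule g hu)
    apply le_antisymm le_top
    intro v _
    obtain ⟨T, hT⟩ : ∃ T : Module.End ℂ (indSpace φ (L.get i)), T u = v := by
      obtain ⟨ψ, hψ⟩ := Module.Projective.exists_dual_eq_one ℂ hu0
      exact ⟨ψ.smulRight v, by simp [hψ]⟩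
    obtain ⟨a, ha⟩ := hsurj (Pi.single i T)
    have h1 : (ind φ (L.get i)).asAlgebraHom a = T := by
      rw [← bigHom_apply, ha, Pi.single_eq_same]
    have h2 := hUa a
    rw [h1, hT] at h2
    exact h2


theorem ind_not_equiv (hφ : Function.Injective φ) (hr : φ.range = G)
    (hL : System.{0} G (1 : A →* Q) L) {i j : Fin L.length} (hij : i ≠ j) :
    IsEmpty (Representation.Equiv (ind φ (L.get i)) (ind φ (L.get j))) := by
  classical
  constructor
  intro e
  obtain ⟨H, hH, hHG⟩ := mono_of_good (hL.good _ (L.get_mem i))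
  obtain ⟨a, ha⟩ := (bigHom_surjective hφ hr hL).1 (Pi.single i 1)
  have h1 : (ind φ (L.get i)).asAlgebraHom a = 1 := by
    rw [← bigHom_apply, ha, Pi.single_eq_same]
  have h2 : (ind φ (L.get j)).asAlgebraHom a = 0 := by
    rw [← bigHom_apply, ha, Pi.single_eq_of_ne hij.symm]
  have h3 := intertwine_alg e.toIntertwiningMap a (delta (L.get i) hH)
  rw [h1, h2, LinearMap.zero_apply, Module.End.one_apply] at h3
  have h4 : delta (φ := φ) (L.get i) hH = 0 := by
    apply e.toLinearEquiv.injective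
    rw [map_zero]
    exact h3
  have h5 := delta_apply_one (φ := φ) (L.get i) hH
  rw [h4] at h5
  simp at h5

theorem ind_complete (hφ : Function.Injective φ) (hr : φ.range = G)
    (hL0 : System.{0} G (1 : A →* Q) L) (hL : System.{u} G (1 : A →* Q) L) {V : Type u}
    [AddCommGroup V] [Module ℂ V] (σ : Representation ℂ Γ V) (hσ : IsIrreducible σ) :
    ∃ i : Fin L.length, Nonempty (Representation.Equiv (ind φ (L.get i)) σ) := by
  classical
  have htop : (⊤ : Submodule ℂ V) ≠ ⊥ := by
    intro h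
    obtain ⟨U, U', hne⟩ := hσ.toNontrivial
    apply hne
    apply Subrepresentation.toSubmodule_injective
    apply le_antisymm
    · intro x _
      have : x ∈ (⊤ : Submodule ℂ V) := trivial
      rw [h, Submodule.mem_bot] at this
      rw [this]; exact U'.toSubmodule.zero_mem
    · intro x _
      have : x ∈ (⊤ : Submodule ℂ V) := trivial
      rw [h, Submodule.mem_bot] at this
      rw [this]; exact U.toSubmodule.zero_mem
  obtain ⟨D, hD, w, _, hw0, heig⟩ := exists_eigen hφ hr hL σ ⊤ htop (fun g v _ => trivial)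
  obtain ⟨i, rfl⟩ := List.get_of_mem hD
  obtain ⟨H, hH, hHG⟩ := mono_of_good (hL.good _ (L.get_mem i))
  refine ⟨i, ?_⟩
  haveI := ind_irreducible hφ hr hL0 i
  haveI := hσ
  rcases IsIrreducible.bijective_or_eq_zero (fromEigen (φ := φ) σ (L.get i) w) with h | h
  · exact ⟨IntertwiningMap.ofBijective _ h⟩
  · exfalso
    have h1 := fromEigen_delta (φ := φ) σ (L.get i) hH heig
    rw [h] at h1
    have h2 : (Set.ncard {γ : Γ | φ γ ∈ (L.get i).M} : ℂ) ≠ 0 := by
      exact_mod_cast (ncard_pos (φ := φ) hH).ne'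
    exact hw0 ((smul_eq_zero.1 h1.symm).resolve_left h2)

end

end Pool.Agent.W_MP_37527c_al
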