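import Pool.Agent.W_MP_37527c_al.GrigGroup
import Pool.Agent.W_MP_37527c_al.Final

/-!
# Comparison with the induced representations of Mathlib
-/

set_option autoImplicit false

universe u v

open Representation

namespace Pool.Agent.W_MP_37527c_al

section

variable {Γ A Q : Type} [Group Γ]

theorem Pair.line_apply (x : Pair Γ) (m : x.M) (c : ℂ) : x.line m c = (x.χ m : ℂ) * c := rfl

/-- Mathlib's induced and coinduced representations agree for finite groups. -/
noncomputable def Pair.toCoind [Finite Γ] (x : Pair Γ) :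
    Representation.Equiv x.rep (Representation.coind x.M.subtype x.line) := by
  classical
  exact Representation.Equiv.mk (.ofLinearMap (Rep.indToCoind (Rep.of x.line))
    (Rep.coindToInd (Rep.of x.line)) (Rep.coindToInd_indToCoind (Rep.of x.line))
    (Rep.indToCoind_coindToInd (Rep.of x.line))) (fun g => by
      ext a b
      simp [Pair.rep]
      exact Rep.indToCoindAux_fst_mul_inv (A := Rep.of x.line) a g b 1)

/-- The coinduced representation of Mathlib and the representation `ind φ D`. -/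
noncomputable def coindToFun (x : Pair Γ) (φ : Γ → A) (D : Dat A Q)
    (h1 : ∀ g, g ∈ x.M ↔ φ g ∈ D.M) (h2 : ∀ g (h : g ∈ x.M), x.χ ⟨g, h⟩ = D.lam (φ g)) :
    Representation.Equiv (Representation.coind x.M.subtype x.line) (ind φ D) := by
  refine Representation.Equiv.mk
    { toFun := fun F => ⟨fun g => F.1 g⁻¹, ?_⟩
      invFun := fun f => ⟨fun g => f.1 g⁻¹, ?_⟩
      map_add' := fun F F' => rfl
      map_smul' := fun c F => rfl
      left_inv := ?_
      right_inv := ?_ } ?_
  · intro g m hm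
    have hm' : m ∈ x.M := (h1 m).2 hm
    have h := F.2 (⟨m, hm'⟩⁻¹ : x.M) g⁻¹
    have e : (g * m)⁻¹ = x.M.subtype (⟨m, hm'⟩⁻¹ : x.M) * g⁻¹ := by
      rw [mul_inv_rev]; rfl
    show F.1 (g * m)⁻¹ = _
    rw [e, h, Pair.line_apply, map_inv, h2]
  · intro m g
    have hm : φ m.1 ∈ D.M := (h1 m.1).1 m.2
    have e : (x.M.subtype m * g)⁻¹ = g⁻¹ * m.1⁻¹ := by
      rw [mul_inv_rev]; rfl
    show f.1 (x.M.subtype m * g)⁻¹ = _
    have h := f.2 (g⁻¹ * m.1⁻¹) m.1 hm
    rw [inv_mul_cancel_right] at h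
    rw [e, Pair.line_apply]
    show f.1 (g⁻¹ * m.1⁻¹) = (x.χ m : ℂ) * f.1 g⁻¹
    rw [h, ← mul_assoc]
    have e2 : (x.χ m : ℂ) * (((D.lam (φ m.1))⁻¹ : ℂˣ) : ℂ) = 1 := by
      rw [← h2 m.1 m.2, ← Units.val_mul, mul_inv_cancel, Units.val_one]
    rw [e2, one_mul]
  · intro F
    apply Subtype.ext
    funext g
    show F.1 g⁻¹⁻¹ = F.1 g
    rw [inv_inv]
  · intro f
    apply Subtype.ext
    funext g
    show f.1 g⁻¹⁻¹ = f.1 g
    rw [inv_inv]
  · intro h
    apply LinearMap.ext
    intro F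
    apply Subtype.ext
    funext g
    show F.1 (g⁻¹ * h) = F.1 (h⁻¹ * g)⁻¹
    rw [mul_inv_rev, inv_inv]

theorem irreducible_of_equiv {V : Type u} {W : Type v} [AddCommGroup V] [Module ℂ V]
    [AddCommGroup W] [Module ℂ W] {ρ : Representation ℂ Γ V} {σ : Representation ℂ Γ W}
    (e : Representation.Equiv ρ σ) (h : ρ.IsIrreducible) : σ.IsIrreducible := by
  have hc : ∀ g v, e.toLinearEquiv (ρ g v) = σ g (e.toLinearEquiv v) := fun g v =>
    LinearMap.congr_fun (e.isIntertwining' g) v
  let F : Subrepresentation σ → Subrepresentation ρ := fun U =>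
    { toSubmodule := U.toSubmodule.comap e.toLinearEquiv.toLinearMap
      apply_mem_toSubmodule := fun g v hv => by
        show e.toLinearEquiv (ρ g v) ∈ U.toSubmodule
        rw [hc]
        exact U.apply_mem_toSubmodule g hv }
  have hF : ∀ U x, x ∈ F U ↔ e.toLinearEquiv x ∈ U := fun U x => Iff.rfl
  have hinj : ∀ U U', F U = F U' → U = U' := by
    intro U U' hUU
    apply SetLike.ext
    intro y
    obtain ⟨x, rfl⟩ := e.toLinearEquiv.surjective y
    rw [← hF, ← hF, hUU]
  have hbot : F ⊥ = ⊥ := by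
    apply SetLike.ext
    intro x
    rw [hF]
    show e.toLinearEquiv x = 0 ↔ x = 0
    exact LinearEquiv.map_eq_zero_iff _
  have htop : F ⊤ = ⊤ := by
    apply SetLike.ext
    intro x
    exact ⟨fun _ => trivial, fun _ => trivial⟩
  haveI : Nontrivial (Subrepresentation σ) := by
    refine ⟨⊥, ⊤, fun hh => ?_⟩
    have h1 : (⊥ : Subrepresentation ρ) ≠ ⊤ := h.toNontrivial.exists_pair_ne.elim
      fun a ⟨b, hab⟩ hbt => hab (le_antisymm
        (le_top.trans (hbt ▸ bot_le)) (le_top.trans (hbt ▸ bot_le)))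
    apply h1
    rw [← hbot, ← htop, hh]
  refine ⟨fun U => ?_⟩
  rcases h.eq_bot_or_eq_top (F U) with h1 | h1
  · left; exact hinj _ _ (h1.trans hbot.symm)
  · right; exact hinj _ _ (h1.trans htop.symm)

end

end Pool.Agent.W_MP_37527c_al
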