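import Pool.Agent.W_MP_37527c_al.Defs

/-!
# Theory of data: cocycle identities, systems
-/

set_option autoImplicit false

namespace Pool.Agent.W_MP_37527c_al

section Coc

variable {A Q : Type} [Group A] [Group Q]

/-- `lam` is a projective character of `H` with cocycle inflated from `Q`. -/
structure Coc (π : A →* Q) (H : Subgroup A) (lam : A → ℂˣ) (α : Q → Q → ℂˣ) : Prop where
  one : lam 1 = 1
  mul : ∀ m ∈ H, ∀ n ∈ H, lam m * lam n = α (π m) (π n) * lam (m * n)

variable {π : A →* Q} {H : Subgroup A} {lam : A → ℂˣ} {α : Q → Q → ℂˣ}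

namespace Coc

theorem α_one_left (h : Coc π H lam α) {m : A} (hm : m ∈ H) : α 1 (π m) = 1 := by
  have := h.mul 1 H.one_mem m hm
  rw [h.one, one_mul, one_mul, map_one] at this
  exact (mul_eq_right.1 this.symm)

theorem α_one_right (h : Coc π H lam α) {m : A} (hm : m ∈ H) : α (π m) 1 = 1 := by
  have := h.mul m hm 1 H.one_mem
  rw [h.one, mul_one, mul_one, map_one] at this
  exact (mul_eq_right.1 this.symm)

theorem α_eq (h : Coc π H lam α) {m n : A} (hm : m ∈ H) (hn : n ∈ H) :
    α (π m) (π n) = lam m * lam n * (lam (m * n))⁻¹ := by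
  rw [h.mul m hm n hn, mul_inv_cancel_right]

/-- The cocycle identity. -/
theorem cocycle (h : Coc π H lam α) {a b c : A} (ha : a ∈ H) (hb : b ∈ H) (hc : c ∈ H) :
    α (π a) (π b) * α (π a * π b) (π c) = α (π b) (π c) * α (π a) (π b * π c) := by
  rw [← map_mul, ← map_mul, h.α_eq ha hb, h.α_eq (H.mul_mem ha hb) hc, h.α_eq hb hc,
    h.α_eq ha (H.mul_mem hb hc), mul_assoc a b c]
  group
  simp only [mul_comm, mul_left_comm, mul_assoc]
  group

theorem ker_mul (h : Coc π H lam α) {k m : A} (hk : k ∈ H) (hk' : π k = 1) (hm : m ∈ H) :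
    lam (k * m) = lam k * lam m := by
  rw [h.mul k hk m hm, hk', h.α_one_left hm, one_mul]

theorem mul_ker (h : Coc π H lam α) {k m : A} (hk : k ∈ H) (hk' : π k = 1) (hm : m ∈ H) :
    lam (m * k) = lam m * lam k := by
  rw [h.mul m hm k hk, hk', h.α_one_right hm, one_mul]

theorem conj (h : Coc π H lam α) {k m : A} (hk : k ∈ H) (hk' : π k = 1) (hm : m ∈ H) :
    lam (m * k * m⁻¹) = lam k := by
  have h1 : m * k * m⁻¹ ∈ H := H.mul_mem (H.mul_mem hm hk) (H.inv_mem hm)
  have h2 : π (m * k * m⁻¹) = 1 := by simp [hk']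
  have h3 := h.ker_mul h1 h2 hm
  rw [inv_mul_cancel_right, h.mul_ker hk hk' hm, mul_comm] at h3
  exact (mul_right_cancel h3).symm

theorem inv_ker (h : Coc π H lam α) {k : A} (hk : k ∈ H) (hk' : π k = 1) :
    lam k⁻¹ = (lam k)⁻¹ := by
  have := h.ker_mul (H.inv_mem hk) (by simp [hk']) hk
  rw [inv_mul_cancel, h.one] at this
  exact eq_inv_of_mul_eq_one_left this.symm

end Coc

end Coc

end Pool.Agent.W_MP_37527c_al
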