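import Mathlib

/-!
# Monomial data for the finite quotients of the Grigorchuk group: definitions
-/

set_option autoImplicit false

namespace Pool.Agent.W_MP_37527c_al

/-! ### Wreath products with the group of order two -/

/-- The wreath product of `A` with the group of order two.  An automorphism of a binary rooted tree
is given by its action `sw` on the first letter (`true` if it exchanges `0` and `1`) and by its
sections `l` at `0` and `r` at `1`. -/
@[ext] structure Wr (A : Type) where
  sw : Bool
  l : A
  r : A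

namespace Wr

variable {A B : Type} [Group A] [Group B]

instance : Mul (Wr A) :=
  ⟨fun g h => ⟨xor g.sw h.sw, (if h.sw then g.r else g.l) * h.l, (if h.sw then g.l else g.r) * h.r⟩⟩

instance : One (Wr A) := ⟨⟨false, 1, 1⟩⟩

instance : Inv (Wr A) :=
  ⟨fun g => ⟨g.sw, if g.sw then g.r⁻¹ else g.l⁻¹, if g.sw then g.l⁻¹ else g.r⁻¹⟩⟩

theorem mul_def (g h : Wr A) : g * h =
    ⟨xor g.sw h.sw, (if h.sw then g.r else g.l) * h.l, (if h.sw then g.l else g.r) * h.r⟩ := rfl

theorem one_def : (1 : Wr A) = ⟨false, 1, 1⟩ := rfl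

theorem inv_def (g : Wr A) : g⁻¹ =
    ⟨g.sw, if g.sw then g.r⁻¹ else g.l⁻¹, if g.sw then g.l⁻¹ else g.r⁻¹⟩ := rfl

instance : Group (Wr A) := Group.ofLeftAxioms
  (fun x y z => by
    obtain ⟨x1, x2, x3⟩ := x
    obtain ⟨y1, y2, y3⟩ := y
    obtain ⟨z1, z2, z3⟩ := z
    cases x1 <;> cases y1 <;> cases z1 <;> simp [mul_def, mul_assoc])
  (fun x => by
    obtain ⟨x1, x2, x3⟩ := x
    cases x1 <;> simp [mul_def, one_def])
  (fun x => by
    obtain ⟨x1, x2, x3⟩ := x
    cases x1 <;> simp [mul_def, one_def, inv_def])

/-- Apply a homomorphism to both sections. -/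
def map (f : A →* B) : Wr A →* Wr B where
  toFun g := ⟨g.sw, f g.l, f g.r⟩
  map_one' := by simp [one_def]
  map_mul' g h := by
    simp only [mul_def, map_mul]
    cases h.sw <;> simp

/-- The sign of the action on the first letter. -/
def sgn : Wr A →* ℤˣ where
  toFun g := if g.sw then -1 else 1
  map_one' := by simp [one_def]
  map_mul' g h := by
    obtain ⟨g1, g2, g3⟩ := g
    obtain ⟨h1, h2, h3⟩ := h
    cases g1 <;> cases h1 <;> simp [mul_def]

end Wr

/-! ### Data -/

/-- A datum for a homomorphism `π : A → Q` consists of a subgroup `M` of `A` with image `S` in `Q`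
and a function `lam` with `lam m * lam m' = α (π m) (π m') * lam (m * m')` for `m` and `m'` in `M`. -/
structure Dat (A Q : Type) where
  S : Set Q
  α : Q → Q → ℂˣ
  M : Set A
  lam : A → ℂˣ

variable {A Q Q' : Type}

/-- The product of two data. -/
def Dat.prod (D E : Dat A Q) : Dat (Wr A) (Wr Q) where
  S := {t | t.sw = false ∧ t.l ∈ D.S ∧ t.r ∈ E.S}
  α s t := D.α s.l t.l * E.α s.r t.r
  M := {g | g.sw = false ∧ g.l ∈ D.M ∧ g.r ∈ E.M}
  lam g := D.lam g.l * E.lam g.r

/-- The wreath square of a datum. -/
def Dat.sq (D : Dat A Q) : Dat (Wr A) (Wr Q) where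
  S := {t | t.l ∈ D.S ∧ t.r ∈ D.S}
  α s t := if t.sw then D.α s.r t.l * D.α s.l t.r else D.α s.l t.l * D.α s.r t.r
  M := {g | g.l ∈ D.M ∧ g.r ∈ D.M}
  lam g := D.lam g.l * D.lam g.r

/-- Operation 1: the wreath squares of the members of a list, and the products of any two different
members of the list: `wreath (D :: T)` is `D.sq :: (T.map D.prod ++ wreath T)`. -/
noncomputable def wreath (L : List (Dat A Q)) : List (Dat (Wr A) (Wr Q)) :=
  List.rec [] (fun D T ih => D.sq :: (T.map D.prod ++ ih)) L

theorem wreath_nil : wreath ([] : List (Dat A Q)) = [] := rfl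

theorem wreath_cons (D : Dat A Q) (T : List (Dat A Q)) :
    wreath (D :: T) = D.sq :: (T.map D.prod ++ wreath T) := rfl

/-- `q` and `q'` lie in the same double coset of `Γ` and `S`. -/
def SameDoubleCoset [Group Q] (Γ S : Set Q) (q q' : Q) : Prop := ∃ x ∈ Γ, ∃ s ∈ S, q' = x * q * s

open Classical in
/-- A list of representatives of the double cosets of `Γ` and `S` in `Q`, extracted from a list `E`
of all elements of `Q`. -/
noncomputable def reps [Group Q] (E : List Q) (Γ S : Set Q) : List Q :=
  E.pwFilter (fun q q' => ¬ SameDoubleCoset Γ S q q')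

/-- The conjugate of a datum by `q` and its lift `g`, restricted to `Γ`. -/
def Dat.conj [Group A] [Group Q] (Γ : Set Q) (π : A → Q) (q : Q) (g : A) (D : Dat A Q) :
    Dat A Q where
  S := {t | t ∈ Γ ∧ q⁻¹ * t * q ∈ D.S}
  α s t := D.α (q⁻¹ * s * q) (q⁻¹ * t * q)
  M := {h | π h ∈ Γ ∧ g⁻¹ * h * g ∈ D.M}
  lam h := D.lam (g⁻¹ * h * g)

/-- Operation 2: restriction to a subgroup `Γ` of `Q`. The list `E` contains all elements of `Q`,
and `lift q` is an element of `A` over `q`. -/
noncomputable def restrict [Group A] [Group Q] (E : List Q) (Γ : Set Q) (π : A → Q) (lift : Q → A)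
    (L : List (Dat A Q)) : List (Dat A Q) :=
  L.flatMap fun D => (reps E Γ D.S).map fun q => D.conj Γ π q (lift q)

/-- A square root of a nonzero complex number. -/
noncomputable def root (x : ℂˣ) : ℂˣ :=
  Units.mk0 (Complex.exp (Complex.log x / 2)) (Complex.exp_ne_zero _)

open Classical in
/-- The datum over `Q'` obtained from `D` by restriction to the part of `M` over `S₁` and by
multiplication of `lam` by the function `c` on `Q`. -/
noncomputable def Dat.descend [Group Q] (p : Q → Q') (z : Q) (s : Q' → Q) (π : A → Q) (S₁ : Set Q)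
    (c : Q → ℂˣ) (D : Dat A Q) : Dat A Q' :=
  let r : Q' → Q := fun t => if s t ∈ S₁ then s t else z * s t
  { S := p '' S₁
    α := fun t u => D.α (r t) (r u) * c (r t) * c (r u) / c (r t * r u)
    M := {g | g ∈ D.M ∧ π g ∈ S₁}
    lam := fun g => c (π g) * D.lam g }

open Classical in
/-- The correcting function used when the central element `z` lies in `S`. -/
noncomputable def Dat.corr [Group Q] (p : Q → Q') (z : Q) (s : Q' → Q) (η : ℂˣ) (D : Dat A Q) :
    Q → ℂˣ :=
  fun t => if s (p t) = t then 1 else η * D.α z (s (p t))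

open Classical in
/-- The data over `Q'` obtained from one datum over `Q`, where `p : Q → Q'` has kernel `{1, z}` with
`z` central of order two, and `s` is a section of `p`. -/
noncomputable def Dat.push [Group Q] (p : Q → Q') (z : Q) (s : Q' → Q) (π : A → Q) (D : Dat A Q) :
    List (Dat A Q') :=
  let η := (root (D.α z z))⁻¹
  if z ∈ D.S then
    if ∀ t ∈ D.S, D.α t z = D.α z t then
      [D.descend p z s π D.S (D.corr p z s η), D.descend p z s π D.S (D.corr p z s (-η))]
    else [D.descend p z s π {t | t ∈ D.S ∧ D.α t z = D.α z t} (D.corr p z s η)]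
  else [D.descend p z s π D.S 1]

/-- Operation 3: passage to a quotient of `Q` by a central subgroup of order two. -/
noncomputable def push [Group Q] (p : Q → Q') (z : Q) (s : Q' → Q) (π : A → Q)
    (L : List (Dat A Q)) : List (Dat A Q') :=
  L.flatMap (Dat.push p z s π)

/-- The trivial datum for the identity homomorphism. -/
def trivialDatum (A : Type) : Dat A A where
  S := Set.univ
  α _ _ := 1
  M := Set.univ
  lam _ := 1

end Pool.Agent.W_MP_37527c_al
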