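import Pool.Agent.W_MP_37527c_al.Defs

/-!
# The finite groups `G_n` and the recursive construction: definitions
-/

set_option autoImplicit false

namespace Pool.Agent.W_MP_37527c_al

/-! ### Small groups -/

/-- Apply a map to both sections. -/
def wmap {A B : Type} (f : A → B) (g : Wr A) : Wr B := ⟨g.sw, f g.l, f g.r⟩

/-- The sign of the action on the first letter. -/
def sg {A : Type} (g : Wr A) : ℤˣ := if g.sw then -1 else 1

/-- The group `Q`, a direct product of a group of order two and a dihedral group of order eight. -/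
abbrev Q16 : Type := ℤˣ × Wr ℤˣ

/-- The abelianization of `Q`. -/
abbrev Q8 : Type := ℤˣ × ℤˣ × ℤˣ

/-- A group of order four. -/
abbrev Q4 : Type := ℤˣ × ℤˣ

/-- The elements of `ℤˣ`. -/
def listU : List ℤˣ := [1, -1]

/-- The elements of `Wr A`, for a list of the elements of `A`. -/
def listWr {A : Type} (E : List A) : List (Wr A) :=
  [false, true].flatMap fun s => E.flatMap fun x => E.map fun y => ⟨s, x, y⟩

/-- The elements of `Q`. -/
def listQ : List Q16 := listU.flatMap fun e => (listWr listU).map fun x => (e, x)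

/-- The first of the two generators of the dihedral group `Wr ℤˣ`. -/
def da : Wr ℤˣ := ⟨true, 1, 1⟩

/-- The second of the two generators of the dihedral group `Wr ℤˣ`. -/
def dd : Wr ℤˣ := ⟨false, 1, -1⟩

/-- The automorphism of the dihedral group that exchanges the two generators. -/
def theta (x : Wr ℤˣ) : Wr ℤˣ :=
  (if x.sw then dd else 1) * (if x.l = -1 then dd * da * dd else 1) * (if x.r = -1 then da else 1)

/-- The subset `Γ` of the wreath product of `Q` (a subgroup of order 64). -/
def Gam : Set (Wr Q16) := {t | t.r.2 = theta t.l.2}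

/-! ### Quotients of small groups

For each of the four projections, `z` is the nontrivial element of the kernel and `sec` is a
section. -/

/-- The projection of `Q` to its abelianization. -/
def abf (q : Q16) : Q8 := (q.1, sg q.2, q.2.l * q.2.r)

/-- The element `z` for `abf`. -/
def z4 : Q16 := (1, ⟨false, -1, -1⟩)

/-- The section for `abf`. -/
def sec4 (x : Q8) : Q16 := (x.1, ⟨decide (x.2.1 = -1), 1, x.2.2⟩)

/-- The element `z` for `wmap abf`, restricted to `Γ`. -/
def z1 : Wr Q16 := ⟨false, z4, z4⟩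

/-- The section for `wmap abf`, restricted to `Γ`. -/
def sec1 (u : Wr Q8) : Wr Q16 := ⟨u.sw, sec4 u.l, (u.r.1, theta (sec4 u.l).2)⟩

/-- The product of the first and the third component. -/
def beta (q : Q8) : ℤˣ := q.1 * q.2.2

/-- The projection from the image of `Γ` in `Wr Q8` to `Q`. -/
def pr2f (t : Wr Q8) : Q16 := (t.l.2.1 * t.r.2.1, wmap beta t)

/-- The element `z` for `pr2f`. -/
def z2 : Wr Q8 := ⟨false, (-1, -1, -1), (-1, -1, -1)⟩

/-- The section for `pr2f`. -/
def sec2 (q : Q16) : Wr Q8 := ⟨q.2.sw, (q.2.l * q.1, 1, q.1), (q.2.r, q.1, 1)⟩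

/-- The projection `Wr Q4 → Q` used for level three. -/
def pr3f (t : Wr Q4) : Q16 := (t.l.1 * t.r.1, ⟨t.sw, t.l.2 * t.r.1, t.r.2 * t.l.1⟩)

/-- The element `z` for `pr3f`. -/
def z3 : Wr Q4 := ⟨false, (-1, -1), (-1, -1)⟩

/-- The section for `pr3f`. -/
def sec3 (q : Q16) : Wr Q4 := ⟨q.2.sw, (q.1, q.2.l), (1, q.2.r * q.1)⟩

/-! ### Automorphisms of finite binary trees -/

/-- The automorphism group of the binary rooted tree of depth `n`: `Aut 0` is trivial and
`Aut (n + 1)` is `Wr (Aut n)`. -/
def Aut (n : ℕ) : Type := Nat.rec Unit (fun _ A => Wr A) n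

instance Aut.group (n : ℕ) : Group (Aut n) :=
  Nat.rec (motive := fun n => Group (Aut n)) (PUnit.commGroup.toGroup : Group Unit)
    (fun n _ => (Wr.instGroup : Group (Wr (Aut n)))) n

/-- The action of `a` on the tree of depth `n`. -/
def gena (n : ℕ) : Aut n :=
  Nat.rec (motive := Aut) () (fun n _ => (⟨true, 1, 1⟩ : Wr (Aut n))) n

/-- The actions of `b`, `c`, `d` on the tree of depth `n`. -/
def genbcd (n : ℕ) : Aut n × Aut n × Aut n :=
  Nat.rec (motive := fun n => Aut n × Aut n × Aut n) ((), (), ())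
    (fun n g => ((⟨false, gena n, g.2.1⟩ : Wr (Aut n)), (⟨false, gena n, g.2.2⟩ : Wr (Aut n)),
      (⟨false, 1, g.1⟩ : Wr (Aut n)))) n

/-- The action of `b` on the tree of depth `n`. -/
def genb (n : ℕ) : Aut n := (genbcd n).1

/-- The action of `c` on the tree of depth `n`. -/
def genc (n : ℕ) : Aut n := (genbcd n).2.1

/-- The action of `d` on the tree of depth `n`. -/
def gend (n : ℕ) : Aut n := (genbcd n).2.2

/-- The sign of the action on the first letter. -/
def s0f (n : ℕ) (g : Aut (n + 1)) : ℤˣ := sg (A := Aut n) g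

/-- The product of the signs of the actions at the vertices of level one. -/
def s1f (n : ℕ) (g : Aut (n + 2)) : ℤˣ :=
  s0f n (Wr.l (A := Aut (n + 1)) g) * s0f n (Wr.r (A := Aut (n + 1)) g)

/-- The homomorphism to `Q4`. -/
def pi2f (n : ℕ) (g : Aut (n + 2)) : Q4 := (s0f (n + 1) g, s1f n g)

/-- The homomorphism to `Q`. -/
def pi3f (n : ℕ) (g : Aut (n + 3)) : Q16 :=
  (s1f (n + 1) g, ⟨Wr.sw (A := Aut (n + 2)) g,
    s1f n (Wr.l (A := Aut (n + 2)) g) * s0f (n + 1) (Wr.r (A := Aut (n + 2)) g),
    s1f n (Wr.r (A := Aut (n + 2)) g) * s0f (n + 1) (Wr.l (A := Aut (n + 2)) g)⟩)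

/-- A lift to `Aut n` of an element of `Q`. -/
def lift (n : ℕ) (q : Q16) : Aut n :=
  (if q.1 = -1 then genb n else 1) * (if q.2.sw then gena n else 1) *
    (if q.2.l = -1 then gena n * gend n * gena n else 1) * (if q.2.r = -1 then gend n else 1)

/-! ### The recursion -/

/-- From level `n + 3` to level `n + 4`. -/
noncomputable def nextLevel (n : ℕ) (L : List (Dat (Aut (n + 3)) Q16)) :
    List (Dat (Aut (n + 4)) Q16) :=
  push pr2f z2 sec2 (fun g : Wr (Aut (n + 3)) => wmap abf (wmap (pi3f n) g))
    (push (wmap abf) z1 sec1 (wmap (pi3f n))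
      (restrict (listWr listQ) Gam (wmap (pi3f n)) (wmap (lift (n + 3))) (wreath L)))

/-- The element of order two of the kernel of `pi2f`. -/
def z0 : Aut 2 := (⟨false, gena 1, gena 1⟩ : Wr (Aut 1))

/-- A section of `pi2f`. -/
def sec0 (e : Q4) : Aut 2 :=
  (⟨decide (e.1 = -1), if e.2 = -1 then gena 1 else 1, 1⟩ : Wr (Aut 1))

/-- The data for level two. -/
noncomputable def level2 : List (Dat (Aut 2) Q4) :=
  push (pi2f 0) z0 sec0 id [trivialDatum (Aut 2)]

/-- The data for level three. -/
noncomputable def level3 : List (Dat (Aut 3) Q16) :=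
  push pr3f z3 sec3 (wmap (pi2f 0)) (wreath level2)

/-- The data for level `n + 3`. -/
noncomputable def levels (n : ℕ) : List (Dat (Aut (n + 3)) Q16) :=
  Nat.rec (motive := fun n => List (Dat (Aut (n + 3)) Q16)) level3 nextLevel n

/-- The last steps, for level two. -/
noncomputable def finish2 {A : Type} (π : A → Q4) (L : List (Dat A Q4)) : List (Dat A Unit) :=
  push (fun _ => ()) (-1 : ℤˣ) (fun _ => 1) (fun g => (π g).2)
    (push Prod.snd (-1, 1) (fun x => (1, x)) π L)

/-- The last steps. -/
noncomputable def finish3 {A : Type} (π : A → Q16) (L : List (Dat A Q16)) : List (Dat A Unit) :=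
  finish2 (fun g => (abf (π g)).2)
    (push Prod.snd (-1, 1, 1) (fun x => (1, x)) (fun g => abf (π g)) (push abf z4 sec4 π L))

/-- The list of monomial data for `G_n`. -/
noncomputable def family (n : ℕ) : List (Dat (Aut n) Unit) :=
  match n with
  | 0 => [trivialDatum Unit]
  | 1 => push (fun _ => ()) (gena 1) (fun _ => 1) id [trivialDatum (Aut 1)]
  | 2 => finish2 (pi2f 0) level2
  | n + 3 => finish3 (pi3f n) (levels n)

end Pool.Agent.W_MP_37527c_al
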