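import Pool.Agent.W_MP_37527c_al.GrigDefs

/-!
# The Grigorchuk group and its finite quotients
-/

set_option autoImplicit false

namespace Pool.Agent.W_MP_37527c_al

/-- The map `a` on words; `false` and `true` stand for `0` and `1`. -/
def aFun (w : List Bool) : List Bool :=
  match w with
  | [] => []
  | x :: w => (!x) :: w

/-- The maps `b`, `c` and `d` on words, by simultaneous recursion. -/
def bcdFun (w : List Bool) : List Bool × List Bool × List Bool :=
  List.rec ([], [], [])
    (fun x w ih => if x then (true :: ih.2.1, true :: ih.2.2, true :: ih.1)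
      else (false :: aFun w, false :: aFun w, false :: w)) w

/-- The map `b`. -/
def bFun (w : List Bool) : List Bool := (bcdFun w).1

/-- The map `c`. -/
def cFun (w : List Bool) : List Bool := (bcdFun w).2.1

/-- The map `d`. -/
def dFun (w : List Bool) : List Bool := (bcdFun w).2.2

theorem a_cons (x : Bool) (w : List Bool) : aFun (x :: w) = (!x) :: w := rfl
theorem b_false (w : List Bool) : bFun (false :: w) = false :: aFun w := rfl
theorem b_true (w : List Bool) : bFun (true :: w) = true :: cFun w := rfl
theorem c_false (w : List Bool) : cFun (false :: w) = false :: aFun w := rfl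
theorem c_true (w : List Bool) : cFun (true :: w) = true :: dFun w := rfl
theorem d_false (w : List Bool) : dFun (false :: w) = false :: w := rfl
theorem d_true (w : List Bool) : dFun (true :: w) = true :: bFun w := rfl

theorem aFun_inv : Function.Involutive aFun := by
  intro w
  cases w with
  | nil => rfl
  | cons x w => simp [aFun]

theorem bcdFun_inv (w : List Bool) :
    bFun (bFun w) = w ∧ cFun (cFun w) = w ∧ dFun (dFun w) = w := by
  induction w with
  | nil => exact ⟨rfl, rfl, rfl⟩
  | cons x w ih =>
    cases x
    · refine ⟨?_, ?_, ?_⟩
      · rw [b_false, b_false, aFun_inv]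
      · rw [c_false, c_false, aFun_inv]
      · rfl
    · refine ⟨?_, ?_, ?_⟩
      · rw [b_true, b_true, ih.2.1]
      · rw [c_true, c_true, ih.2.2]
      · rw [d_true, d_true, ih.1]

/-- The permutation `a` of the set of words. -/
def aPerm : Equiv.Perm (List Bool) := Function.Involutive.toPerm aFun aFun_inv

/-- The permutation `b` of the set of words. -/
def bPerm : Equiv.Perm (List Bool) := Function.Involutive.toPerm bFun fun w => (bcdFun_inv w).1

/-- The permutation `c` of the set of words. -/
def cPerm : Equiv.Perm (List Bool) := Function.Involutive.toPerm cFun fun w => (bcdFun_inv w).2.1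

/-- The permutation `d` of the set of words. -/
def dPerm : Equiv.Perm (List Bool) := Function.Involutive.toPerm dFun fun w => (bcdFun_inv w).2.2

/-- The Grigorchuk group. -/
def Grig : Subgroup (Equiv.Perm (List Bool)) := Subgroup.closure {aPerm, bPerm, cPerm, dPerm}

theorem length_gen (w : List Bool) : (aFun w).length = w.length ∧ (bFun w).length = w.length ∧
    (cFun w).length = w.length ∧ (dFun w).length = w.length := by
  have ha : ∀ w : List Bool, (aFun w).length = w.length := by
    intro w; cases w <;> simp [aFun]
  induction w with
  | nil => exact ⟨rfl, rfl, rfl, rfl⟩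
  | cons x w ih =>
    refine ⟨ha _, ?_⟩
    cases x
    · rw [b_false, c_false, d_false]
      simp [ha]
    · rw [b_true, c_true, d_true]
      simp [ih]

theorem length_grig {g : Equiv.Perm (List Bool)} (hg : g ∈ Grig) (w : List Bool) :
    (g w).length = w.length := by
  revert w
  refine Subgroup.closure_induction (p := fun g _ => ∀ w : List Bool, (g w).length = w.length)
    ?_ ?_ ?_ ?_ hg
  · rintro x (rfl | rfl | rfl | rfl) w
    · exact (length_gen w).1
    · exact (length_gen w).2.1
    · exact (length_gen w).2.2.1
    · exact (length_gen w).2.2.2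
  · intro w; rfl
  · intro x y _ _ hx hy w
    rw [Equiv.Perm.mul_apply, hx, hy]
  · intro x _ hx w
    have := hx (x⁻¹ w)
    have e : x (x⁻¹ w) = w := x.apply_symm_apply w
    rw [e] at this
    exact this.symm

/-- The subgroup of the elements of the Grigorchuk group that fix every word of length `n`. -/
def St (n : ℕ) : Subgroup Grig where
  carrier := {g | ∀ w : List Bool, w.length = n → g.1 w = w}
  one_mem' := fun w _ => rfl
  mul_mem' := by
    intro g h hg hh w hw
    show g.1 (h.1 w) = w
    rw [hh w hw, hg w hw]
  inv_mem' := by
    intro g hg w hw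
    show g.1⁻¹ w = w
    rw [Equiv.Perm.inv_eq_iff_eq]
    exact (hg w hw).symm

instance St.normal (n : ℕ) : (St n).Normal where
  conj_mem := by
    intro g hg h w hw
    show h.1 (g.1 (h.1⁻¹ w)) = w
    rw [hg]
    · exact h.1.apply_symm_apply w
    · rw [length_grig (inv_mem h.2), hw]

/-- The finite quotient `G_n` of the Grigorchuk group. -/
def Gq (n : ℕ) : Type := Grig ⧸ St n

instance Gq.group (n : ℕ) : Group (Gq n) := QuotientGroup.Quotient.group (St n)

/-- The class in `G_n` of an element of the Grigorchuk group. -/
def Gq.mk {n : ℕ} (g : Grig) : Gq n := (QuotientGroup.mk g : Grig ⧸ St n)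

/-- The portrait to depth `n` of a map `f` of words: the first letter of `f [false]` tells whether
the first letters are exchanged, and `w ↦ (f (x :: w)).tail` is the section at the letter `x`. -/
def por (n : ℕ) : (List Bool → List Bool) → Aut n :=
  Nat.rec (motive := fun n => (List Bool → List Bool) → Aut n) (fun _ => ())
    (fun n ih f => (⟨(f [false]).headD false, ih (fun w => (f (false :: w)).tail),
      ih (fun w => (f (true :: w)).tail)⟩ : Wr (Aut n))) n

/-! ### Induced representations -/

universe u

/-- A subgroup of a group together with a linear character of it. -/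
structure Pair (Γ : Type) [Group Γ] where
  M : Subgroup Γ
  χ : M →* ℂˣ

/-- The one-dimensional representation of `M` given by `χ`. -/
noncomputable def Pair.line {Γ : Type} [Group Γ] (x : Pair Γ) : Representation ℂ x.M ℂ :=
  ((Algebra.lmul ℂ ℂ : ℂ →* Module.End ℂ ℂ).comp (Units.coeHom ℂ)).comp x.χ

/-- The representation induced from `χ`, as defined in Mathlib. -/
noncomputable def Pair.rep {Γ : Type} [Group Γ] (x : Pair Γ) :
    Representation ℂ Γ (Representation.IndV x.M.subtype x.line) :=
  Representation.ind x.M.subtype x.line

/-- The induced representation is irreducible. -/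
def Pair.Irreducible {Γ : Type} [Group Γ] (x : Pair Γ) : Prop := x.rep.IsIrreducible

/-- The two induced representations are equivalent. -/
def Pair.Equivalent {Γ : Type} [Group Γ] (x y : Pair Γ) : Prop := Nonempty (x.rep.Equiv y.rep)

/-- The induced representation is equivalent to `ρ`. -/
def Pair.Affords {Γ : Type} [Group Γ] (x : Pair Γ) {V : Type u} [AddCommGroup V] [Module ℂ V]
    (ρ : Representation ℂ Γ V) : Prop := Nonempty (x.rep.Equiv ρ)

/-- The pair `x` consists of the subgroup `M` and the character `lam` of the datum `D`. -/
def Pair.Of {n : ℕ} (D : Dat (Aut n) Unit) (x : Pair (Gq n)) : Prop :=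
  ∀ g : Grig, (Gq.mk g ∈ x.M ↔ por n g.1 ∈ D.M) ∧
    ∀ h : Gq.mk g ∈ x.M, x.χ ⟨Gq.mk g, h⟩ = D.lam (por n g.1)

end Pool.Agent.W_MP_37527c_al
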