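import Pool.Agent.W_MP_37527c_al.System

/-!
# Operation 1 preserves complete systems
-/

set_option autoImplicit false

universe u

namespace Pool.Agent.W_MP_37527c_al

section

variable {A Q : Type} [Group A] [Group Q]

/-- The wreath product of a subgroup. -/
def wrSub (G : Subgroup A) : Subgroup (Wr A) where
  carrier := {g | g.l ∈ G ∧ g.r ∈ G}
  one_mem' := ⟨G.one_mem, G.one_mem⟩
  mul_mem' := by
    rintro g h ⟨g1, g2⟩ ⟨h1, h2⟩
    simp only [Wr.mul_def, Set.mem_setOf_eq]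
    cases h.sw <;> simp only [if_true, if_false, Bool.false_eq_true] <;>
      exact ⟨G.mul_mem (by assumption) h1, G.mul_mem (by assumption) h2⟩
  inv_mem' := by
    rintro g ⟨g1, g2⟩
    simp only [Wr.inv_def, Set.mem_setOf_eq]
    cases g.sw <;> simp only [if_true, if_false, Bool.false_eq_true] <;>
      exact ⟨G.inv_mem (by assumption), G.inv_mem (by assumption)⟩

theorem mem_wrSub {G : Subgroup A} {g : Wr A} : g ∈ wrSub G ↔ g.l ∈ G ∧ g.r ∈ G := Iff.rfl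

/-- The subgroup of elements fixing the first letter with sections in `G` and `H`. -/
def prSub (G H : Subgroup A) : Subgroup (Wr A) where
  carrier := {g | g.sw = false ∧ g.l ∈ G ∧ g.r ∈ H}
  one_mem' := ⟨rfl, G.one_mem, H.one_mem⟩
  mul_mem' := by
    rintro g h ⟨g0, g1, g2⟩ ⟨h0, h1, h2⟩
    simp only [Wr.mul_def, Set.mem_setOf_eq, g0, h0]
    exact ⟨by simp, G.mul_mem g1 h1, H.mul_mem g2 h2⟩
  inv_mem' := by
    rintro g ⟨g0, g1, g2⟩
    simp only [Wr.inv_def, Set.mem_setOf_eq, g0]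
    exact ⟨by simp, G.inv_mem g1, H.inv_mem g2⟩

theorem map_apply (π : A →* Q) (g : Wr A) : Wr.map π g = ⟨g.sw, π g.l, π g.r⟩ := rfl

theorem map_eq_one {π : A →* Q} {g : Wr A} :
    Wr.map π g = 1 ↔ g.sw = false ∧ π g.l = 1 ∧ π g.r = 1 := by
  rw [map_apply, Wr.one_def, Wr.mk.injEq]

variable {G : Subgroup A} {π : A →* Q} {D E : Dat A Q}

theorem prod_good (hD : Good G π D) (hE : Good G π E) :
    Good (wrSub G) (Wr.map π) (D.prod E) := by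
  obtain ⟨H, hH, hG, hc, hS⟩ := hD
  obtain ⟨H', hH', hG', hc', hS'⟩ := hE
  refine ⟨prSub H H', ?_, fun g hg => ⟨hG hg.2.1, hG' hg.2.2⟩, ⟨?_, ?_⟩, ?_⟩
  · ext g
    show g.sw = false ∧ g.l ∈ H ∧ g.r ∈ H' ↔ g.sw = false ∧ g.l ∈ D.M ∧ g.r ∈ E.M
    rw [← hH, ← hH']
    rfl
  · show D.lam 1 * E.lam 1 = 1
    rw [hc.one, hc'.one, one_mul]
  · rintro m ⟨m0, m1, m2⟩ n ⟨n0, n1, n2⟩
    show D.lam m.l * E.lam m.r * (D.lam n.l * E.lam n.r) =
      D.α (π m.l) (π n.l) * E.α (π m.r) (π n.r) * (D.lam (m * n).l * E.lam (m * n).r)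
    have e1 : (m * n).l = m.l * n.l := by simp [Wr.mul_def, n0]
    have e2 : (m * n).r = m.r * n.r := by simp [Wr.mul_def, n0]
    rw [e1, e2, mul_mul_mul_comm, hc.mul _ m1 _ n1, hc'.mul _ m2 _ n2, mul_mul_mul_comm]
  · show {t : Wr Q | t.sw = false ∧ t.l ∈ D.S ∧ t.r ∈ E.S} =
      (fun g : Wr A => (⟨g.sw, π g.l, π g.r⟩ : Wr Q)) '' {g | g.sw = false ∧ g.l ∈ D.M ∧ g.r ∈ E.M}
    rw [hS, hS']
    ext ⟨t0, t1, t2⟩
    simp only [Set.mem_setOf_eq, Set.mem_image, Wr.mk.injEq]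
    constructor
    · rintro ⟨rfl, ⟨m, hm, rfl⟩, ⟨n, hn, rfl⟩⟩
      exact ⟨⟨false, m, n⟩, ⟨rfl, hm, hn⟩, rfl, rfl, rfl⟩
    · rintro ⟨g, ⟨h0, h1, h2⟩, h3, h4, h5⟩
      exact ⟨h3 ▸ h0, ⟨_, h1, h4⟩, ⟨_, h2, h5⟩⟩

theorem sq_good (hD : Good G π D) : Good (wrSub G) (Wr.map π) D.sq := by
  obtain ⟨H, hH, hG, hc, hS⟩ := hD
  refine ⟨wrSub H, ?_, fun g hg => ⟨hG hg.1, hG hg.2⟩, ⟨?_, ?_⟩, ?_⟩
  · ext g
    show g.l ∈ H ∧ g.r ∈ H ↔ g.l ∈ D.M ∧ g.r ∈ D.M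
    rw [← hH]
    rfl
  · show D.lam 1 * D.lam 1 = 1
    rw [hc.one, one_mul]
  · rintro m ⟨m1, m2⟩ n ⟨n1, n2⟩
    show D.lam m.l * D.lam m.r * (D.lam n.l * D.lam n.r) =
      (if n.sw then D.α (π m.r) (π n.l) * D.α (π m.l) (π n.r) else
        D.α (π m.l) (π n.l) * D.α (π m.r) (π n.r)) * (D.lam (m * n).l * D.lam (m * n).r)
    cases h : n.sw with
    | false =>
      have e1 : (m * n).l = m.l * n.l := by simp [Wr.mul_def, h]
      have e2 : (m * n).r = m.r * n.r := by simp [Wr.mul_def, h]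
      rw [e1, e2, mul_mul_mul_comm, hc.mul _ m1 _ n1, hc.mul _ m2 _ n2, mul_mul_mul_comm]
      simp
    | true =>
      have e1 : (m * n).l = m.r * n.l := by simp [Wr.mul_def, h]
      have e2 : (m * n).r = m.l * n.r := by simp [Wr.mul_def, h]
      rw [e1, e2, mul_comm (D.lam m.l), mul_mul_mul_comm, hc.mul _ m2 _ n1, hc.mul _ m1 _ n2,
        mul_mul_mul_comm]
      simp
  · show {t : Wr Q | t.l ∈ D.S ∧ t.r ∈ D.S} =
      (fun g : Wr A => (⟨g.sw, π g.l, π g.r⟩ : Wr Q)) '' {g | g.l ∈ D.M ∧ g.r ∈ D.M}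
    rw [hS]
    ext ⟨t0, t1, t2⟩
    simp only [Set.mem_setOf_eq, Set.mem_image, Wr.mk.injEq]
    constructor
    · rintro ⟨⟨m, hm, rfl⟩, ⟨n, hn, rfl⟩⟩
      exact ⟨⟨t0, m, n⟩, ⟨hm, hn⟩, rfl, rfl, rfl⟩
    · rintro ⟨g, ⟨h1, h2⟩, h3, h4, h5⟩
      exact ⟨⟨_, h1, h4⟩, ⟨_, h2, h5⟩⟩

/-! ### Membership in `wreath L` -/

theorem mem_wreath {L : List (Dat A Q)} {X : Dat (Wr A) (Wr Q)} (h : X ∈ wreath L) :
    (∃ D ∈ L, X = D.sq) ∨ ∃ D ∈ L, ∃ E ∈ L, X = D.prod E := by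
  induction L with
  | nil => simp [wreath_nil] at h
  | cons D L ih =>
    simp only [wreath_cons, List.mem_cons, List.mem_append, List.mem_map] at h
    rcases h with h | ⟨E, hE, rfl⟩ | h
    · exact Or.inl ⟨D, by simp, h⟩
    · exact Or.inr ⟨D, by simp, E, by simp [hE], rfl⟩
    · rcases ih h with ⟨D', h1, h2⟩ | ⟨D', h1, E', h2, h3⟩
      · exact Or.inl ⟨D', by simp [h1], h2⟩
      · exact Or.inr ⟨D', by simp [h1], E', by simp [h2], h3⟩

theorem sq_mem_wreath {L : List (Dat A Q)} (h : D ∈ L) : D.sq ∈ wreath L := by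
  induction L with
  | nil => simp at h
  | cons D' L ih =>
    simp only [wreath_cons, List.mem_cons, List.mem_append, List.mem_map]
    rcases List.mem_cons.1 h with rfl | h
    · exact Or.inl rfl
    · exact Or.inr (Or.inr (ih h))

theorem prod_mem_wreath {L : List (Dat A Q)} (h : D ∈ L) (h' : E ∈ L) :
    D = E ∨ D.prod E ∈ wreath L ∨ E.prod D ∈ wreath L := by
  induction L with
  | nil => simp at h
  | cons D' L ih =>
    simp only [wreath_cons, List.mem_cons, List.mem_append, List.mem_map]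
    rcases List.mem_cons.1 h with h1 | h1
    · rcases List.mem_cons.1 h' with h2 | h2
      · exact Or.inl (h1.trans h2.symm)
      · exact Or.inr (Or.inl (Or.inr (Or.inl ⟨E, h2, by rw [h1]⟩)))
    · replace h := h1
      rcases List.mem_cons.1 h' with h2 | h'
      · exact Or.inr (Or.inr (Or.inr (Or.inl ⟨D, h1, by rw [h2]⟩)))
      · rcases ih h h' with h | h | h
        · exact Or.inl h
        · exact Or.inr (Or.inl (Or.inr (Or.inr h)))
        · exact Or.inr (Or.inr (Or.inr (Or.inr h)))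

/-! ### Counting -/

theorem card_pr (X Y : Set A) :
    Nat.card {g : Wr A | g.sw = false ∧ g.l ∈ X ∧ g.r ∈ Y} = Nat.card X * Nat.card Y := by
  rw [← Nat.card_prod]
  refine Nat.card_congr ⟨fun g => (⟨g.1.l, g.2.2.1⟩, ⟨g.1.r, g.2.2.2⟩),
    fun p => ⟨⟨false, p.1.1, p.2.1⟩, rfl, p.1.2, p.2.2⟩, ?_, ?_⟩
  · rintro ⟨⟨g0, g1, g2⟩, h0, h1, h2⟩
    simp only at h0
    subst h0
    rfl
  · rintro ⟨⟨x, hx⟩, ⟨y, hy⟩⟩
    rfl

theorem card_wr (X : Set A) :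
    Nat.card {g : Wr A | g.l ∈ X ∧ g.r ∈ X} = 2 * (Nat.card X * Nat.card X) := by
  have : (2 : ℕ) = Nat.card Bool := by simp
  rw [this, ← Nat.card_prod, ← Nat.card_prod]
  refine Nat.card_congr ⟨fun g => (g.1.sw, ⟨g.1.l, g.2.1⟩, ⟨g.1.r, g.2.2⟩),
    fun p => ⟨⟨p.1, p.2.1.1, p.2.2.1⟩, p.2.1.2, p.2.2.2⟩, ?_, ?_⟩
  · rintro ⟨⟨g0, g1, g2⟩, h1, h2⟩
    rfl
  · rintro ⟨b, ⟨x, hx⟩, ⟨y, hy⟩⟩
    rfl

theorem wt_prod : wt (Wr.map π) (D.prod E) = wt π D * wt π E := by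
  unfold wt
  have e : {m | m ∈ (D.prod E).M ∧ Wr.map π m = 1} =
      {g : Wr A | g.sw = false ∧ g.l ∈ {m | m ∈ D.M ∧ π m = 1} ∧
        g.r ∈ {m | m ∈ E.M ∧ π m = 1}} := by
    ext g
    simp only [Set.mem_setOf_eq, map_eq_one]
    show (g.sw = false ∧ g.l ∈ D.M ∧ g.r ∈ E.M) ∧ _ ↔ _
    tauto
  rw [e, show (D.prod E).M = {g : Wr A | g.sw = false ∧ g.l ∈ D.M ∧ g.r ∈ E.M} from rfl,
    card_pr, card_pr]
  push_cast
  simp only [mul_inv]
  ring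

theorem wt_sq : wt (Wr.map π) D.sq = wt π D * wt π D / 2 := by
  unfold wt
  have e : {m | m ∈ D.sq.M ∧ Wr.map π m = 1} =
      {g : Wr A | g.sw = false ∧ g.l ∈ {m | m ∈ D.M ∧ π m = 1} ∧
        g.r ∈ {m | m ∈ D.M ∧ π m = 1}} := by
    ext g
    simp only [Set.mem_setOf_eq, map_eq_one]
    show (g.l ∈ D.M ∧ g.r ∈ D.M) ∧ _ ↔ _
    tauto
  rw [e, show D.sq.M = {g : Wr A | g.l ∈ D.M ∧ g.r ∈ D.M} from rfl, card_pr, card_wr]
  push_cast
  simp only [mul_inv]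
  ring

theorem wreath_count (L : List (Dat A Q)) :
    ((wreath L).map (wt (Wr.map π))).sum = (L.map (wt π)).sum * (L.map (wt π)).sum / 2 := by
  induction L with
  | nil => simp [wreath_nil]
  | cons D L ih =>
    have h : ((L.map D.prod).map (wt (Wr.map π))).sum = wt π D * (L.map (wt π)).sum := by
      rw [List.map_map, ← List.sum_map_mul_left]
      congr 1
      refine List.map_congr_left (fun E _ => wt_prod)
    simp only [wreath_cons, List.map_cons, List.map_append, List.sum_cons, List.sum_append, ih, h, wt_sq]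
    ring

/-! ### The covering property -/

theorem wr_conj (g g' a b : A) :
    (⟨false, g, g'⟩ : Wr A) * ⟨false, a, b⟩ * (⟨false, g, g'⟩ : Wr A)⁻¹ =
      ⟨false, g * a * g⁻¹, g' * b * g'⁻¹⟩ := by
  simp [Wr.mul_def, Wr.inv_def]

theorem wr_conj' (g g' a b : A) :
    (⟨true, g', g⟩ : Wr A) * ⟨false, b, a⟩ * (⟨true, g', g⟩ : Wr A)⁻¹ =
      ⟨false, g * a * g⁻¹, g' * b * g'⁻¹⟩ := by
  simp [Wr.mul_def, Wr.inv_def]

theorem wreath_covers {L : List (Dat A Q)} (hL : ∀ D ∈ L, Good G π D)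
    (hcov : Covers.{u} G π L) : Covers.{u} (wrSub G) (Wr.map π) (wreath L) := by
  intro W _ _ ρ hρ1 hρ E hE hinv
  have hMG : ∀ D ∈ L, ∀ m ∈ D.M, m ∈ G := by
    intro D hD m hm
    obtain ⟨H, hH, hG, _⟩ := hL D hD
    rw [← hH] at hm
    exact hG hm
  have hρ' : ∀ a b c d : A, a ∈ G → b ∈ G → c ∈ G → d ∈ G → π a = 1 → π b = 1 → π c = 1 →
      π d = 1 → ρ ⟨false, a * c, b * d⟩ = ρ ⟨false, a, b⟩ ∘ₗ ρ ⟨false, c, d⟩ := by
    intro a b c d ha hb hc hd ha1 hb1 hc1 hd1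
    have := hρ ⟨false, a, b⟩ ⟨ha, hb⟩ ⟨false, c, d⟩ ⟨hc, hd⟩
      (map_eq_one.2 ⟨rfl, ha1, hb1⟩) (map_eq_one.2 ⟨rfl, hc1, hd1⟩)
    rw [← this]
    simp [Wr.mul_def]
  obtain ⟨D, hD, g, hg, w, hw, hw0, heig⟩ := hcov W (fun x => ρ ⟨false, x, 1⟩) hρ1
    (fun x hx y hy h1 h2 => by
      have := hρ' x 1 y 1 hx G.one_mem hy G.one_mem h1 (map_one _) h2 (map_one _)
      rw [one_mul] at this
      exact this) E hE
    (fun x hx h1 => hinv _ ⟨hx, G.one_mem⟩ (map_eq_one.2 ⟨rfl, h1, map_one _⟩))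
  have hG1 : ∀ m, π m = 1 → π (g * m * g⁻¹) = 1 := fun m h => by simp [h]
  let E₁ : Submodule ℂ W :=
    { carrier := {v | v ∈ E ∧ ∀ m ∈ D.M, π m = 1 →
        ρ ⟨false, g * m * g⁻¹, 1⟩ v = (D.lam m : ℂ) • v}
      zero_mem' := ⟨E.zero_mem, fun m _ _ => by simp⟩
      add_mem' := by
        rintro v v' ⟨h1, h2⟩ ⟨h3, h4⟩
        refine ⟨E.add_mem h1 h3, fun m hm h => ?_⟩
        rw [map_add, h2 m hm h, h4 m hm h, smul_add]
      smul_mem' := by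
        rintro c v ⟨h1, h2⟩
        refine ⟨E.smul_mem c h1, fun m hm h => ?_⟩
        rw [map_smul, h2 m hm h, smul_comm] }
  have hE₁ : E₁ ≠ ⊥ := by
    intro h
    have : w ∈ E₁ := ⟨hw, fun m hm h => heig m hm h⟩
    rw [h, Submodule.mem_bot] at this
    exact hw0 this
  obtain ⟨D', hD', g', hg', w', hw', hw'0, heig'⟩ := hcov W (fun x => ρ ⟨false, 1, x⟩) hρ1
    (fun x hx y hy h1 h2 => by
      have := hρ' 1 x 1 y G.one_mem hx G.one_mem hy (map_one _) h1 (map_one _) h2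
      rw [one_mul] at this
      exact this) E₁ hE₁
    (by
      rintro x hx h1 v ⟨hv1, hv2⟩
      refine ⟨hinv _ ⟨G.one_mem, hx⟩ (map_eq_one.2 ⟨rfl, map_one _, h1⟩) v hv1, ?_⟩
      intro m hm h
      have hgm : g * m * g⁻¹ ∈ G := G.mul_mem (G.mul_mem hg (hMG D hD m hm)) (G.inv_mem hg)
      have h3 := hρ' _ 1 1 x hgm G.one_mem G.one_mem hx (hG1 m h) (map_one _) (map_one _) h1
      have h4 := hρ' 1 x _ 1 G.one_mem hx hgm G.one_mem (map_one _) h1 (hG1 m h) (map_one _)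
      rw [mul_one, one_mul] at h3 h4
      rw [← LinearMap.comp_apply, ← h3, h4, LinearMap.comp_apply, hv2 m hm h, map_smul])
  obtain ⟨hw'E, hw'eig⟩ := hw'
  have key : ∀ m n, m ∈ D.M → n ∈ D'.M → π m = 1 → π n = 1 →
      ρ ⟨false, g * m * g⁻¹, g' * n * g'⁻¹⟩ w' = ((D.lam m * D'.lam n : ℂˣ) : ℂ) • w' := by
    intro m n hm hn hm1 hn1
    have hgm : g * m * g⁻¹ ∈ G := G.mul_mem (G.mul_mem hg (hMG D hD m hm)) (G.inv_mem hg)
    have hgn : g' * n * g'⁻¹ ∈ G := G.mul_mem (G.mul_mem hg' (hMG D' hD' n hn)) (G.inv_mem hg')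
    have h3 := hρ' _ 1 1 _ hgm G.one_mem G.one_mem hgn (hG1 m hm1) (map_one _) (map_one _)
      (by simp [hn1])
    rw [mul_one, one_mul] at h3
    have h5 : ρ ⟨false, 1, g' * n * g'⁻¹⟩ w' = (D'.lam n : ℂ) • w' := heig' n hn hn1
    rw [h3, LinearMap.comp_apply, h5, map_smul, hw'eig m hm hm1, smul_smul]
    congr 1
    push_cast
    ring
  rcases prod_mem_wreath hD hD' with h | h | h
  · subst h
    refine ⟨D.sq, sq_mem_wreath hD, ⟨false, g, g'⟩, ⟨hg, hg'⟩, w', hw'E, hw'0, ?_⟩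
    rintro ⟨m0, m1, m2⟩ ⟨h1, h2⟩ hm
    obtain ⟨h3, h4, h5⟩ := map_eq_one.1 hm
    simp only at h3
    subst h3
    rw [wr_conj]
    exact key m1 m2 h1 h2 h4 h5
  · refine ⟨_, h, ⟨false, g, g'⟩, ⟨hg, hg'⟩, w', hw'E, hw'0, ?_⟩
    rintro ⟨m0, m1, m2⟩ ⟨h0, h1, h2⟩ hm
    obtain ⟨h3, h4, h5⟩ := map_eq_one.1 hm
    simp only at h3
    subst h3
    rw [wr_conj]
    exact key m1 m2 h1 h2 h4 h5
  · refine ⟨_, h, ⟨true, g', g⟩, ⟨hg', hg⟩, w', hw'E, hw'0, ?_⟩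
    rintro ⟨m0, m1, m2⟩ ⟨h0, h1, h2⟩ hm
    obtain ⟨h3, h4, h5⟩ := map_eq_one.1 hm
    simp only at h3
    subst h3
    rw [wr_conj']
    have := key m2 m1 h2 h1 h5 h4
    rw [this, mul_comm]
    rfl

theorem card_wrSub (G : Subgroup A) : Nat.card (wrSub G) = 2 * (Nat.card G * Nat.card G) :=
  card_wr (G : Set A)

/-- Operation 1 preserves complete systems. -/
theorem wreath_system {L : List (Dat A Q)} (h : System.{u} G π L) :
    System.{u} (wrSub G) (Wr.map π) (wreath L) where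
  good := by
    intro X hX
    rcases mem_wreath hX with ⟨D, hD, rfl⟩ | ⟨D, hD, E, hE, rfl⟩
    · exact sq_good (h.good D hD)
    · exact prod_good (h.good D hD) (h.good E hE)
  covers := wreath_covers h.good h.covers
  count := by
    rw [wreath_count, h.count, card_wrSub]
    push_cast
    simp only [mul_inv]
    ring

end

end Pool.Agent.W_MP_37527c_al
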