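import Pool.Agent.W_MP_37527c_al.Small
import Pool.Agent.W_MP_37527c_al.WreathStep

/-!
# The structure of the groups `G_n`
-/

set_option autoImplicit false

namespace Pool.Agent.W_MP_37527c_al

/-- The image of the Grigorchuk group in the automorphism group of the tree of depth `n`. -/
def Gn (n : ℕ) : Subgroup (Aut n) := Subgroup.closure {gena n, genb n, genc n, gend n}

theorem a_mem (n : ℕ) : gena n ∈ Gn n := Subgroup.subset_closure (by simp)
theorem b_mem (n : ℕ) : genb n ∈ Gn n := Subgroup.subset_closure (by simp)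
theorem c_mem (n : ℕ) : genc n ∈ Gn n := Subgroup.subset_closure (by simp)
theorem d_mem (n : ℕ) : gend n ∈ Gn n := Subgroup.subset_closure (by simp)

theorem genb_succ (n : ℕ) : genb (n + 1) = (⟨false, gena n, genc n⟩ : Wr (Aut n)) := rfl
theorem genc_succ (n : ℕ) : genc (n + 1) = (⟨false, gena n, gend n⟩ : Wr (Aut n)) := rfl
theorem gend_succ (n : ℕ) : gend (n + 1) = (⟨false, 1, genb n⟩ : Wr (Aut n)) := rfl
theorem gena_succ (n : ℕ) : gena (n + 1) = (⟨true, 1, 1⟩ : Wr (Aut n)) := rfl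

theorem wr_mul_false {A : Type} [Group A] (s : Bool) (l r l' r' : A) :
    (⟨s, l, r⟩ : Wr A) * ⟨false, l', r'⟩ = ⟨s, l * l', r * r'⟩ := by
  simp [Wr.mul_def]

theorem wr_mul_true {A : Type} [Group A] (s : Bool) (l r l' r' : A) :
    (⟨s, l, r⟩ : Wr A) * ⟨true, l', r'⟩ = ⟨!s, r * l', l * r'⟩ := by
  simp [Wr.mul_def]

theorem aa (n : ℕ) : gena n * gena n = 1 := by
  cases n with
  | zero => rfl
  | succ n =>
    show (⟨true, 1, 1⟩ : Wr (Aut n)) * ⟨true, 1, 1⟩ = 1
    rw [wr_mul_true, mul_one]; rfl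

theorem bcd_rel (n : ℕ) : genb n * genb n = 1 ∧ genc n * genc n = 1 ∧ gend n * gend n = 1 ∧
    genb n * genc n = gend n ∧ genc n * gend n = genb n ∧ gend n * genb n = genc n := by
  induction n with
  | zero => exact ⟨rfl, rfl, rfl, rfl, rfl, rfl⟩
  | succ n ih =>
    obtain ⟨h1, h2, h3, h4, h5, h6⟩ := ih
    refine ⟨?_, ?_, ?_, ?_, ?_, ?_⟩
    · show (⟨false, gena n, genc n⟩ : Wr (Aut n)) * ⟨false, gena n, genc n⟩ = 1
      rw [wr_mul_false, aa, h2]; rfl
    · show (⟨false, gena n, gend n⟩ : Wr (Aut n)) * ⟨false, gena n, gend n⟩ = 1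
      rw [wr_mul_false, aa, h3]; rfl
    · show (⟨false, 1, genb n⟩ : Wr (Aut n)) * ⟨false, 1, genb n⟩ = 1
      rw [wr_mul_false, mul_one, h1]; rfl
    · show (⟨false, gena n, genc n⟩ : Wr (Aut n)) * ⟨false, gena n, gend n⟩ = ⟨false, 1, genb n⟩
      rw [wr_mul_false, aa, h5]
    · show (⟨false, gena n, gend n⟩ : Wr (Aut n)) * ⟨false, 1, genb n⟩ = ⟨false, gena n, genc n⟩
      rw [wr_mul_false, mul_one, h6]
    · show (⟨false, 1, genb n⟩ : Wr (Aut n)) * ⟨false, gena n, genc n⟩ = ⟨false, gena n, gend n⟩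
      rw [wr_mul_false, one_mul, h4]

theorem bb (n : ℕ) : genb n * genb n = 1 := (bcd_rel n).1
theorem cc (n : ℕ) : genc n * genc n = 1 := (bcd_rel n).2.1
theorem ddn (n : ℕ) : gend n * gend n = 1 := (bcd_rel n).2.2.1
theorem bc (n : ℕ) : genb n * genc n = gend n := (bcd_rel n).2.2.2.1
theorem cd (n : ℕ) : genc n * gend n = genb n := (bcd_rel n).2.2.2.2.1
theorem db (n : ℕ) : gend n * genb n = genc n := (bcd_rel n).2.2.2.2.2

theorem inv_eq_self {X : Type*} [Group X] {x : X} (h : x * x = 1) : x⁻¹ = x :=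
  inv_eq_of_mul_eq_one_left h

theorem bd (n : ℕ) : genb n * gend n = genc n := by
  rw [← cd n, mul_assoc, ddn, mul_one]

/-- The relation `(ad)^4 = 1`. -/
theorem ad4 (n : ℕ) : gena n * gend n * gena n * gend n = gend n * gena n * gend n * gena n := by
  cases n with
  | zero => rfl
  | succ n =>
    show (⟨true, 1, 1⟩ : Wr (Aut n)) * ⟨false, 1, genb n⟩ * ⟨true, 1, 1⟩ * ⟨false, 1, genb n⟩ =
      ⟨false, 1, genb n⟩ * ⟨true, 1, 1⟩ * ⟨false, 1, genb n⟩ * ⟨true, 1, 1⟩
    simp only [wr_mul_true, wr_mul_false, mul_one, one_mul, Bool.not_true, Bool.not_false]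

/-! ### Normal forms modulo a normal subgroup -/

section normal

variable {X : Type*} [Group X]

/-- The normal form of an element of `Q` in the elements `a`, `b`, `d` of a group. -/
def nf (a b d : X) (q : Q16) : X :=
  (if q.1 = -1 then b else 1) * (if q.2.sw then a else 1) *
    (if q.2.l = -1 then a * d * a else 1) * (if q.2.r = -1 then d else 1)

theorem lift_eq (n : ℕ) (q : Q16) : lift n q = nf (gena n) (genb n) (gend n) q := rfl

theorem nf_a {a b d : X} (ha : a * a = 1) (hab : a * b = b * a) (q : Q16) :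
    a * nf a b d q = nf a b d ((1, da) * q) := by
  obtain ⟨c, s, j, i⟩ := q
  have e : ((1, da) : Q16) * (c, ⟨s, j, i⟩) = (c, ⟨!s, j, i⟩) := by
    show ((1 * c, da * ⟨s, j, i⟩) : Q16) = _
    rw [one_mul]
    cases s <;> simp [da, Wr.mul_def]
  rw [e]
  unfold nf
  simp only
  have h1 : a * (if c = -1 then b else 1) = (if c = -1 then b else 1) * a := by
    split_ifs
    · exact hab
    · rw [mul_one, one_mul]
  rw [← mul_assoc, ← mul_assoc, ← mul_assoc, h1]
  congr 2
  rw [mul_assoc]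
  congr 1
  cases s
  · simp
  · simp [ha]

theorem nf_b {a b d : X} (hb : b * b = 1) (q : Q16) :
    b * nf a b d q = nf a b d ((-1, 1) * q) := by
  obtain ⟨c, s, j, i⟩ := q
  have e : ((-1, 1) : Q16) * (c, ⟨s, j, i⟩) = (-c, ⟨s, j, i⟩) := by
    show ((-1 * c, 1 * ⟨s, j, i⟩) : Q16) = _
    rw [one_mul, neg_one_mul]
  rw [e]
  unfold nf
  simp only
  rw [← mul_assoc, ← mul_assoc, ← mul_assoc]
  congr 3
  rcases Int.units_eq_one_or c with rfl | rfl
  · simp
  · simp [hb]

theorem nf_d {a b d : X} (ha : a * a = 1) (hd : d * d = 1) (hbd : b * d = d * b)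
    (had : a * d * a * d = d * a * d * a) (q : Q16) :
    d * nf a b d q = nf a b d ((1, dd) * q) := by
  obtain ⟨c, s, j, i⟩ := q
  have ha' : ∀ y, a * (a * y) = y := fun y => by rw [← mul_assoc, ha, one_mul]
  have hd' : ∀ y, d * (d * y) = y := fun y => by rw [← mul_assoc, hd, one_mul]
  have had1 : a * (d * (a * d)) = d * (a * (d * a)) := by
    simp only [mul_assoc] at had; exact had
  have had2 : ∀ y, a * (d * (a * (d * y))) = d * (a * (d * (a * y))) := by
    intro y
    have := congrArg (· * y) had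
    simp only [mul_assoc] at this
    exact this
  have e : ((1, dd) : Q16) * (c, ⟨s, j, i⟩) =
      (c, ⟨s, if s then -j else j, if s then i else -i⟩) := by
    show ((1 * c, dd * ⟨s, j, i⟩) : Q16) = _
    rw [one_mul]
    cases s <;> simp [dd, Wr.mul_def]
  rw [e]
  unfold nf
  simp only
  have h1 : d * (if c = -1 then b else 1) = (if c = -1 then b else 1) * d := by
    split_ifs
    · exact hbd.symm
    · rw [mul_one, one_mul]
  rw [← mul_assoc, ← mul_assoc, ← mul_assoc, h1]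
  simp only [mul_assoc]
  congr 1
  rcases Int.units_eq_one_or j with rfl | rfl <;> rcases Int.units_eq_one_or i with rfl | rfl <;>
    cases s <;> simp [mul_assoc, ha, hd, ha', hd', had1, had2]

end normal


/-! ### Values on the generators -/

theorem pi3_a (m : ℕ) : pi3 m (gena (m + 3)) = (1, da) := rfl
theorem pi3_b (m : ℕ) : pi3 m (genb (m + 3)) = (-1, 1) := rfl
theorem pi3_c (m : ℕ) : pi3 m (genc (m + 3)) = (-1, dd) := rfl
theorem pi3_d (m : ℕ) : pi3 m (gend (m + 3)) = (1, dd) := rfl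

theorem nf_self : ∀ q : Q16, nf ((1, da) : Q16) (-1, 1) (1, dd) q = q := by
  decide +kernel

theorem pi3_lift (m : ℕ) (q : Q16) : pi3 m (lift (m + 3) q) = q := by
  have h : pi3 m (lift (m + 3) q) = nf ((1, da) : Q16) (-1, 1) (1, dd) q := by
    rw [lift_eq]
    unfold nf
    simp only [map_mul, apply_ite (pi3 m), map_one, pi3_a, pi3_b, pi3_d]
  rw [h, nf_self]

theorem lift_mem (n : ℕ) (q : Q16) : lift n q ∈ Gn n := by
  unfold lift
  refine mul_mem (mul_mem (mul_mem ?_ ?_) ?_) ?_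
  · split_ifs
    · exact b_mem n
    · exact one_mem _
  · split_ifs
    · exact a_mem n
    · exact one_mem _
  · split_ifs
    · exact mul_mem (mul_mem (a_mem n) (d_mem n)) (a_mem n)
    · exact one_mem _
  · split_ifs
    · exact d_mem n
    · exact one_mem _

/-- Induction on elements of `Gn n`. -/
theorem Gn_induction {n : ℕ} {p : Aut n → Prop} (one : p 1)
    (ha : ∀ y ∈ Gn n, p y → p (gena n * y)) (hb : ∀ y ∈ Gn n, p y → p (genb n * y))
    (hc : ∀ y ∈ Gn n, p y → p (genc n * y)) (hd : ∀ y ∈ Gn n, p y → p (gend n * y))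
    {x : Aut n} (hx : x ∈ Gn n) : p x := by
  refine Subgroup.closure_induction_left (p := fun x _ => p x) one ?_ ?_ hx
  · rintro x (rfl | rfl | rfl | rfl) y hy h
    · exact ha y hy h
    · exact hb y hy h
    · exact hc y hy h
    · exact hd y hy h
  · rintro x (rfl | rfl | rfl | rfl) y hy h
    · rw [inv_eq_self (aa n)]; exact ha y hy h
    · rw [inv_eq_self (bb n)]; exact hb y hy h
    · rw [inv_eq_self (cc n)]; exact hc y hy h
    · rw [inv_eq_self (ddn n)]; exact hd y hy h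

theorem nf_one {X : Type*} [Group X] (a b d : X) : nf a b d 1 = 1 := by
  unfold nf
  have h1 : ((1 : Q16).1 = -1) = False := by simp
  have h2 : (1 : Q16).2.sw = false := rfl
  have h3 : (1 : Q16).2.l = 1 := rfl
  have h4 : (1 : Q16).2.r = 1 := rfl
  rw [h2, h3, h4]
  simp

/-- Homomorphisms killing the relator `(ab)^2` factor through `Q`. -/
theorem factor (m : ℕ) {X : Type*} [Group X] (f : Gn (m + 3) →* X)
    (hf : f ⟨gena (m + 3), a_mem _⟩ * f ⟨genb (m + 3), b_mem _⟩ =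
      f ⟨genb (m + 3), b_mem _⟩ * f ⟨gena (m + 3), a_mem _⟩) (g : Gn (m + 3)) :
    f g = f ⟨lift (m + 3) (pi3 m g), lift_mem _ _⟩ := by
  set a : X := f ⟨gena (m + 3), a_mem _⟩ with ha
  set b : X := f ⟨genb (m + 3), b_mem _⟩ with hb
  set d : X := f ⟨gend (m + 3), d_mem _⟩ with hd
  have haa : a * a = 1 := by
    rw [ha, ← map_mul]
    have : (⟨gena (m + 3), a_mem _⟩ : Gn (m + 3)) * ⟨gena (m + 3), a_mem _⟩ = 1 :=
      Subtype.ext (aa (m + 3))
    rw [this, map_one]
  have hbb : b * b = 1 := by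
    rw [hb, ← map_mul]
    have : (⟨genb (m + 3), b_mem _⟩ : Gn (m + 3)) * ⟨genb (m + 3), b_mem _⟩ = 1 :=
      Subtype.ext (bb (m + 3))
    rw [this, map_one]
  have hdd : d * d = 1 := by
    rw [hd, ← map_mul]
    have : (⟨gend (m + 3), d_mem _⟩ : Gn (m + 3)) * ⟨gend (m + 3), d_mem _⟩ = 1 :=
      Subtype.ext (ddn (m + 3))
    rw [this, map_one]
  have hbd : b * d = d * b := by
    rw [hb, hd, ← map_mul, ← map_mul]
    congr 1
    apply Subtype.ext
    show genb (m + 3) * gend (m + 3) = gend (m + 3) * genb (m + 3)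
    rw [bd, db]
  have had : a * d * a * d = d * a * d * a := by
    rw [ha, hd, ← map_mul, ← map_mul, ← map_mul, ← map_mul, ← map_mul, ← map_mul]
    congr 1
    exact Subtype.ext (ad4 (m + 3))
  have hc : f ⟨genc (m + 3), c_mem _⟩ = b * d := by
    rw [hb, hd, ← map_mul]
    congr 1
    exact Subtype.ext (bd (m + 3)).symm
  have hlift : ∀ q, f ⟨lift (m + 3) q, lift_mem _ _⟩ = nf a b d q := by
    intro q
    have : (⟨lift (m + 3) q, lift_mem _ _⟩ : Gn (m + 3)) =
        nf (⟨gena (m + 3), a_mem _⟩ : Gn (m + 3)) ⟨genb (m + 3), b_mem _⟩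
          ⟨gend (m + 3), d_mem _⟩ q := by
      apply Subtype.ext
      show lift (m + 3) q = ((nf (⟨gena (m + 3), a_mem _⟩ : Gn (m + 3)) ⟨genb (m + 3), b_mem _⟩
          ⟨gend (m + 3), d_mem _⟩ q : Gn (m + 3)) : Aut (m + 3))
      unfold lift nf
      simp only [Subgroup.coe_mul, apply_ite (Subtype.val), Subgroup.coe_one]
    rw [this]
    unfold nf
    simp only [map_mul, apply_ite f, map_one, ← ha, ← hb, ← hd]
  obtain ⟨g, hg⟩ := g
  have key : ∀ (hg : g ∈ Gn (m + 3)), f ⟨g, hg⟩ = nf a b d (pi3 m g) := by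
    refine Gn_induction (p := fun g => ∀ (hg : g ∈ Gn (m + 3)), f ⟨g, hg⟩ = nf a b d (pi3 m g))
      ?_ ?_ ?_ ?_ ?_ hg
    · intro h
      rw [map_one]
      have : (⟨1, h⟩ : Gn (m + 3)) = 1 := rfl
      rw [this, map_one]
      exact (nf_one a b d).symm
    · intro y hy ih h
      have : (⟨gena (m + 3) * y, h⟩ : Gn (m + 3)) = ⟨gena (m + 3), a_mem _⟩ * ⟨y, hy⟩ := rfl
      rw [this, map_mul, ih hy, map_mul, pi3_a, ← ha, nf_a haa hf]
    · intro y hy ih h
      have : (⟨genb (m + 3) * y, h⟩ : Gn (m + 3)) = ⟨genb (m + 3), b_mem _⟩ * ⟨y, hy⟩ := rfl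
      rw [this, map_mul, ih hy, map_mul, pi3_b, ← hb, nf_b hbb]
    · intro y hy ih h
      have : (⟨genc (m + 3) * y, h⟩ : Gn (m + 3)) = ⟨genc (m + 3), c_mem _⟩ * ⟨y, hy⟩ := rfl
      rw [this, map_mul, ih hy, map_mul, pi3_c, hc, mul_assoc, nf_d haa hdd hbd had, nf_b hbb,
        ← mul_assoc]
      rfl
    · intro y hy ih h
      have : (⟨gend (m + 3) * y, h⟩ : Gn (m + 3)) = ⟨gend (m + 3), d_mem _⟩ * ⟨y, hy⟩ := rfl
      rw [this, map_mul, ih hy, map_mul, pi3_d, ← hd, nf_d haa hdd hbd had]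
  rw [hlift]
  exact key hg

end Pool.Agent.W_MP_37527c_al
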