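import Pool.Agent.W_MP_37527c_al.GrigDefs

/-!
# The maps used in the recursion are homomorphisms
-/

set_option autoImplicit false

namespace Pool.Agent.W_MP_37527c_al

instance Wr.decEq {A : Type} [DecidableEq A] : DecidableEq (Wr A) := fun x y =>
  decidable_of_iff (x.sw = y.sw ∧ x.l = y.l ∧ x.r = y.r)
    ⟨fun h => Wr.ext h.1 h.2.1 h.2.2, fun h => by subst h; exact ⟨rfl, rfl, rfl⟩⟩

instance Wr.fintype {A : Type} [Fintype A] : Fintype (Wr A) :=
  Fintype.ofEquiv (Bool × A × A)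
    ⟨fun t => ⟨t.1, t.2.1, t.2.2⟩, fun g => (g.sw, g.l, g.r), fun _ => rfl, fun _ => rfl⟩

/-- The product of the values of `f` at the two sections. -/
def Wr.both {A C : Type} [Group A] [CommGroup C] (f : A →* C) : Wr A →* C where
  toFun g := f g.l * f g.r
  map_one' := by simp [Wr.one_def]
  map_mul' g h := by
    simp only [Wr.mul_def, map_mul]
    cases h.sw <;> simp only [if_true, if_false, Bool.false_eq_true]
    · rw [mul_mul_mul_comm]
    · rw [mul_mul_mul_comm, mul_comm (f g.r)]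

/-- A homomorphism between wreath products that mixes the two sections. -/
def Wr.mix {A C : Type} [Group A] [CommGroup C] (f f' : A →* C) : Wr A →* Wr C where
  toFun g := ⟨g.sw, f g.l * f' g.r, f g.r * f' g.l⟩
  map_one' := by simp [Wr.one_def]
  map_mul' g h := by
    simp only [Wr.mul_def, map_mul]
    cases h.sw <;> simp only [if_true, if_false, Bool.false_eq_true] <;> congr 1 <;>
      rw [mul_mul_mul_comm]

/-- The projection of `Q` to its abelianization. -/
def ab : Q16 →* Q8 :=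
  (MonoidHom.fst _ _).prod ((Wr.sgn.comp (MonoidHom.snd _ _)).prod
    ((Wr.both (MonoidHom.id ℤˣ)).comp (MonoidHom.snd _ _)))

theorem coe_ab : ⇑ab = abf := rfl

/-- The homomorphism given by `beta`. -/
def beta8 : Q8 →* ℤˣ where
  toFun := beta
  map_one' := by simp [beta]
  map_mul' x y := by
    simp only [beta, Prod.fst_mul, Prod.snd_mul]
    rw [mul_mul_mul_comm]

/-- The second projection `Wr Q8 → Q`. -/
def pr2 : Wr Q8 →* Q16 :=
  (Wr.both ((MonoidHom.fst ℤˣ ℤˣ).comp (MonoidHom.snd _ _))).prod (Wr.map beta8)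

theorem coe_pr2 : ⇑pr2 = pr2f := rfl

/-- The projection `Wr Q4 → Q` used for level three. -/
def pr3 : Wr Q4 →* Q16 :=
  (Wr.both (MonoidHom.fst ℤˣ ℤˣ)).prod (Wr.mix (MonoidHom.snd ℤˣ ℤˣ) (MonoidHom.fst ℤˣ ℤˣ))

theorem coe_pr3 : ⇑pr3 = pr3f := rfl

/-- The sign of the action on the first letter. -/
def s0 (n : ℕ) : Aut (n + 1) →* ℤˣ := Wr.sgn (A := Aut n)

/-- The product of the signs of the actions at the vertices of level one. -/
def s1 (n : ℕ) : Aut (n + 2) →* ℤˣ := Wr.both (A := Aut (n + 1)) (s0 n)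

/-- The homomorphism to `Q4`. -/
def pi2 (n : ℕ) : Aut (n + 2) →* Q4 := (s0 (n + 1)).prod (s1 n)

/-- The homomorphism to `Q`. -/
def pi3 (n : ℕ) : Aut (n + 3) →* Q16 :=
  (s1 (n + 1)).prod (Wr.mix (A := Aut (n + 2)) (s1 n) (s0 (n + 1)))

theorem coe_pi2 (n : ℕ) : ⇑(pi2 n) = pi2f n := rfl

theorem coe_pi3 (n : ℕ) : ⇑(pi3 n) = pi3f n := rfl

end Pool.Agent.W_MP_37527c_al
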