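import Pool.Agent.W_MP_37527c_al.Struct
import Pool.Agent.W_MP_37527c_al.GrigGroup

/-!
# The embedding of `G_n` in the automorphism group of the finite tree
-/

set_option autoImplicit false

namespace Pool.Agent.W_MP_37527c_al

/-! ### Portraits -/

/-- The action of an automorphism of the tree of depth `n` on words, where only the first `n`
letters can be changed. -/
def act : (n : ℕ) → Aut n → List Bool → List Bool
  | 0, _, w => w
  | _ + 1, _, [] => []
  | n + 1, g, x :: w =>
    xor x (Wr.sw (A := Aut n) g) :: act n (if x then Wr.r (A := Aut n) g else Wr.l (A := Aut n) g) w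

theorem exists_mk {n : ℕ} (g : Aut (n + 1)) :
    ∃ (s : Bool) (l r : Aut n), g = (⟨s, l, r⟩ : Wr (Aut n)) :=
  ⟨Wr.sw (A := Aut n) g, Wr.l (A := Aut n) g, Wr.r (A := Aut n) g, rfl⟩

theorem act_nil (n : ℕ) (g : Aut n) : act n g [] = [] := by
  cases n <;> rfl

theorem act_cons (n : ℕ) (s : Bool) (l r : Aut n) (x : Bool) (w : List Bool) :
    act (n + 1) (⟨s, l, r⟩ : Wr (Aut n)) (x :: w) = xor x s :: act n (if x then r else l) w := rfl

theorem act_one (n : ℕ) (w : List Bool) : act n 1 w = w := by
  induction n generalizing w with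
  | zero => rfl
  | succ n ih =>
    cases w with
    | nil => rfl
    | cons x w =>
      show act (n + 1) (⟨false, 1, 1⟩ : Wr (Aut n)) (x :: w) = x :: w
      rw [act_cons]
      cases x <;> simp [ih]

theorem act_mul (n : ℕ) (g h : Aut n) (w : List Bool) : act n (g * h) w = act n g (act n h w) := by
  induction n generalizing w with
  | zero => rfl
  | succ n ih =>
    obtain ⟨gs, gl, gr, rfl⟩ := exists_mk g
    obtain ⟨hs, hl, hr, rfl⟩ := exists_mk h
    cases w with
    | nil => rfl
    | cons x w =>
      show act (n + 1) (⟨xor gs hs, (if hs then gr else gl) * hl, (if hs then gl else gr) * hr⟩ :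
        Wr (Aut n)) (x :: w) = act (n + 1) (⟨gs, gl, gr⟩ : Wr (Aut n))
          (act (n + 1) (⟨hs, hl, hr⟩ : Wr (Aut n)) (x :: w))
      rw [act_cons, act_cons, act_cons]
      cases x <;> cases hs <;> simp [ih]

theorem act_faithful (n : ℕ) (g : Aut n) (h : ∀ w : List Bool, w.length = n → act n g w = w) :
    g = 1 := by
  induction n with
  | zero => rfl
  | succ n ih =>
    obtain ⟨gs, gl, gr, rfl⟩ := exists_mk g
    have h1 : gs = false := by
      have := h (false :: List.replicate n false) (by simp)
      rw [act_cons] at this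
      simpa using (List.cons.inj this).1
    have h2 : gl = 1 := ih gl fun w hw => by
      have := h (false :: w) (by simp [hw])
      rw [act_cons] at this
      simpa using (List.cons.inj this).2
    have h3 : gr = 1 := ih gr fun w hw => by
      have := h (true :: w) (by simp [hw])
      rw [act_cons] at this
      simpa using (List.cons.inj this).2
    subst h1 h2 h3
    rfl

theorem por_succ (n : ℕ) (f : List Bool → List Bool) : por (n + 1) f =
    (⟨(f [false]).headD false, por n (fun w => (f (false :: w)).tail),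
      por n (fun w => (f (true :: w)).tail)⟩ : Wr (Aut n)) := rfl

theorem por_eq (n : ℕ) (f : List Bool → List Bool) (x : Aut n)
    (h : ∀ w : List Bool, w.length ≤ n → f w = act n x w) : por n f = x := by
  induction n generalizing f with
  | zero => rfl
  | succ n ih =>
    obtain ⟨s, l, r, rfl⟩ := exists_mk x
    have h1 : (f [false]).headD false = s := by
      rw [h [false] (by simp), act_cons]
      simp
    have h2 : por n (fun w => (f (false :: w)).tail) = l := ih _ l fun w hw => by
      rw [h (false :: w) (by simpa using hw), act_cons]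
      simp
    have h3 : por n (fun w => (f (true :: w)).tail) = r := ih _ r fun w hw => by
      rw [h (true :: w) (by simpa using hw), act_cons]
      simp
    rw [por_succ, h1, h2, h3]

theorem act_a (n : ℕ) (w : List Bool) (hw : w.length ≤ n) : aFun w = act n (gena n) w := by
  cases n with
  | zero =>
    obtain rfl : w = [] := List.length_eq_zero_iff.1 (Nat.le_zero.1 hw)
    rfl
  | succ n =>
    cases w with
    | nil => rfl
    | cons x w =>
      show (!x) :: w = act (n + 1) (⟨true, 1, 1⟩ : Wr (Aut n)) (x :: w)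
      rw [act_cons]
      cases x <;> simp [act_one]

theorem act_bcd (n : ℕ) (w : List Bool) (hw : w.length ≤ n) : bFun w = act n (genb n) w ∧
    cFun w = act n (genc n) w ∧ dFun w = act n (gend n) w := by
  induction n generalizing w with
  | zero =>
    obtain rfl : w = [] := List.length_eq_zero_iff.1 (Nat.le_zero.1 hw)
    exact ⟨by rw [act_nil]; rfl, by rw [act_nil]; rfl, by rw [act_nil]; rfl⟩
  | succ n ih =>
    cases w with
    | nil => exact ⟨by rw [act_nil]; rfl, by rw [act_nil]; rfl, by rw [act_nil]; rfl⟩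
    | cons x w =>
      have hw' : w.length ≤ n := by simpa using hw
      obtain ⟨h1, h2, h3⟩ := ih w hw'
      have h0 := act_a n w hw'
      refine ⟨?_, ?_, ?_⟩
      · show bFun (x :: w) = act (n + 1) (⟨false, gena n, genc n⟩ : Wr (Aut n)) (x :: w)
        rw [act_cons]
        cases x
        · rw [b_false]; simp [h0]
        · rw [b_true]; simp [h2]
      · show cFun (x :: w) = act (n + 1) (⟨false, gena n, gend n⟩ : Wr (Aut n)) (x :: w)
        rw [act_cons]
        cases x
        · rw [c_false]; simp [h0]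
        · rw [c_true]; simp [h3]
      · show dFun (x :: w) = act (n + 1) (⟨false, 1, genb n⟩ : Wr (Aut n)) (x :: w)
        rw [act_cons]
        cases x
        · rw [d_false]; simp [act_one]
        · rw [d_true]; simp [h1]

theorem exists_act (n : ℕ) {g : Equiv.Perm (List Bool)} (hg : g ∈ Grig) :
    ∃ x ∈ Gn n, ∀ w : List Bool, w.length ≤ n → g w = act n x w := by
  refine Subgroup.closure_induction
    (p := fun g _ => ∃ x ∈ Gn n, ∀ w : List Bool, w.length ≤ n → g w = act n x w) ?_ ?_ ?_ ?_ hg
  · rintro x (rfl | rfl | rfl | rfl)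
    · exact ⟨_, a_mem n, act_a n⟩
    · exact ⟨_, b_mem n, fun w hw => (act_bcd n w hw).1⟩
    · exact ⟨_, c_mem n, fun w hw => (act_bcd n w hw).2.1⟩
    · exact ⟨_, d_mem n, fun w hw => (act_bcd n w hw).2.2⟩
  · exact ⟨1, one_mem _, fun w _ => (act_one n w).symm⟩
  · rintro g h _ hh ⟨x, hx, hx'⟩ ⟨y, hy, hy'⟩
    refine ⟨x * y, mul_mem hx hy, fun w hw => ?_⟩
    rw [Equiv.Perm.mul_apply, act_mul, ← hy' w hw, hx']
    rw [length_grig hh]; exact hw
  · rintro g hg ⟨x, hx, hx'⟩
    refine ⟨x⁻¹, inv_mem hx, fun w hw => ?_⟩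
    have h1 := length_grig (inv_mem hg) w
    have h2 := hx' (g⁻¹ w) (by rw [h1]; exact hw)
    have e : g (g⁻¹ w) = w := g.apply_symm_apply w
    rw [e] at h2
    conv_rhs => rw [h2]
    rw [← act_mul, inv_mul_cancel, act_one]

/-- The portrait as a homomorphism. -/
def grigPor (n : ℕ) : Grig →* Aut n where
  toFun g := por n g.1
  map_one' := por_eq n _ 1 fun w _ => (act_one n w).symm
  map_mul' := by
    rintro ⟨g, hg⟩ ⟨h, hh⟩
    obtain ⟨x, hx, hx'⟩ := exists_act n hg
    obtain ⟨y, hy, hy'⟩ := exists_act n hh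
    show por n (g * h : Equiv.Perm (List Bool)) = por n g * por n h
    rw [por_eq n g x hx', por_eq n h y hy']
    refine por_eq n _ _ fun w hw => ?_
    rw [Equiv.Perm.mul_apply, act_mul, ← hy' w hw, hx']
    rw [length_grig hh]; exact hw

theorem grigPor_apply (n : ℕ) (g : Grig) : grigPor n g = por n g.1 := rfl

theorem grigPor_act (n : ℕ) (g : Grig) (w : List Bool) (hw : w.length ≤ n) :
    act n (grigPor n g) w = g.1 w := by
  obtain ⟨x, hx, hx'⟩ := exists_act n g.2
  rw [grigPor_apply, por_eq n _ x hx', hx' w hw]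

theorem grigPor_ker (n : ℕ) (g : Grig) : grigPor n g = 1 ↔ g ∈ St n := by
  constructor
  · intro h w hw
    rw [← grigPor_act n g w hw.le, h, act_one]
  · intro h
    apply act_faithful
    intro w hw
    rw [grigPor_act n g w hw.le]
    exact h w hw

theorem grigPor_range (n : ℕ) : (grigPor n).range = Gn n := by
  apply le_antisymm
  · rintro _ ⟨g, rfl⟩
    obtain ⟨x, hx, hx'⟩ := exists_act n g.2
    rw [grigPor_apply, por_eq n _ x hx']
    exact hx
  · unfold Gn
    rw [Subgroup.closure_le]
    rintro x (rfl | rfl | rfl | rfl)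
    · exact ⟨⟨aPerm, Subgroup.subset_closure (by simp)⟩, por_eq n _ _ (act_a n)⟩
    · exact ⟨⟨bPerm, Subgroup.subset_closure (by simp)⟩,
        por_eq n _ _ fun w hw => (act_bcd n w hw).1⟩
    · exact ⟨⟨cPerm, Subgroup.subset_closure (by simp)⟩,
        por_eq n _ _ fun w hw => (act_bcd n w hw).2.1⟩
    · exact ⟨⟨dPerm, Subgroup.subset_closure (by simp)⟩,
        por_eq n _ _ fun w hw => (act_bcd n w hw).2.2⟩

/-- The portrait homomorphism of `G_n`: it sends the class of `g` to the portrait of `g`. -/
def portrait (n : ℕ) : Gq n →* Aut n :=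
  (QuotientGroup.lift (St n) (grigPor n) fun g hg => (grigPor_ker n g).2 hg :
    (Grig ⧸ St n) →* Aut n)

theorem portrait_mk (n : ℕ) (g : Grig) : portrait n (Gq.mk g) = por n g.1 := rfl

theorem mk_surjective {n : ℕ} (q : Gq n) : ∃ g : Grig, Gq.mk g = q :=
  QuotientGroup.mk_surjective q

theorem mk_eq_one {n : ℕ} (g : Grig) : (Gq.mk g : Gq n) = 1 ↔ g ∈ St n :=
  QuotientGroup.eq_one_iff g

theorem portrait_injective (n : ℕ) : Function.Injective (portrait n) := by
  rw [injective_iff_map_eq_one]
  intro q
  obtain ⟨g, rfl⟩ := mk_surjective q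
  intro h
  exact (mk_eq_one g).2 ((grigPor_ker n g).1 h)

theorem portrait_range (n : ℕ) : (portrait n).range = Gn n := by
  rw [← grigPor_range]
  apply le_antisymm
  · rintro _ ⟨q, rfl⟩
    obtain ⟨g, rfl⟩ := mk_surjective q
    exact ⟨g, rfl⟩
  · rintro _ ⟨g, rfl⟩
    exact ⟨Gq.mk g, rfl⟩

end Pool.Agent.W_MP_37527c_al
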