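import Pool.Agent.W_MP_37527c_al.Core

/-!
# Systems of data and the passage to a quotient
-/

set_option autoImplicit false

universe u

namespace Pool.Agent.W_MP_37527c_al

section System

variable {A Q Q' : Type} [Group A] [Group Q] [Group Q']

/-- The datum `D` satisfies its defining properties, and its group is contained in `G`. -/
def Good (G : Subgroup A) (π : A →* Q) (D : Dat A Q) : Prop :=
  ∃ H : Subgroup A, (H : Set A) = D.M ∧ H ≤ G ∧ Coc π H D.lam D.α ∧ D.S = π '' D.M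

/-- Every nonzero representation of the kernel of `π` on `G` contains an eigenvector for a conjugate
of a member of `L`. -/
def Covers (G : Subgroup A) (π : A →* Q) (L : List (Dat A Q)) : Prop :=
  ∀ (W : Type u) [AddCommGroup W] [Module ℂ W] (ρ : A → W →ₗ[ℂ] W),
    ρ 1 = LinearMap.id →
    (∀ x ∈ G, ∀ y ∈ G, π x = 1 → π y = 1 → ρ (x * y) = ρ x ∘ₗ ρ y) →
    ∀ E : Submodule ℂ W, E ≠ ⊥ → (∀ x ∈ G, π x = 1 → ∀ w ∈ E, ρ x w ∈ E) →
      ∃ D ∈ L, ∃ g ∈ G, ∃ w ∈ E, w ≠ 0 ∧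
        ∀ m ∈ D.M, π m = 1 → ρ (g * m * g⁻¹) w = (D.lam m : ℂ) • w

/-- The weight of a datum. -/
noncomputable def wt (π : A →* Q) (D : Dat A Q) : ℚ :=
  ((Nat.card D.M : ℚ) * Nat.card {m | m ∈ D.M ∧ π m = 1})⁻¹

/-- A complete system of data. -/
structure System (G : Subgroup A) (π : A →* Q) (L : List (Dat A Q)) : Prop where
  good : ∀ D ∈ L, Good G π D
  covers : Covers.{u} G π L
  count : (L.map (wt π)).sum = (Nat.card G : ℚ)⁻¹

theorem sum_flatMap {α β : Type*} (L : List α) (f : α → List β) (w : β → ℚ) (v : α → ℚ)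
    (h : ∀ D ∈ L, ((f D).map w).sum = v D) : ((L.flatMap f).map w).sum = (L.map v).sum := by
  induction L with
  | nil => simp
  | cons a L ih =>
    rw [List.flatMap_cons, List.map_append, List.sum_append, h a (by simp),
      ih (fun D hD => h D (by simp [hD]))]
    simp

/-! ### Passage to a quotient -/

/-- The hypotheses on `p`, `z` and `s`. -/
structure Quot (G : Subgroup A) (π : A →* Q) (p : Q →* Q') (z : Q) (s : Q' → Q) : Prop where
  mem : ∃ g ∈ G, π g = z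
  ne : z ≠ 1
  sq : z * z = 1
  cent : ∀ g ∈ G, π g * z = z * π g
  pz : p z = 1
  ker : ∀ g ∈ G, p (π g) = 1 → π g = 1 ∨ π g = z
  sec : ∀ g ∈ G, s (p (π g)) = π g ∨ s (p (π g)) = z * π g
  one : s 1 = 1

variable {G : Subgroup A} {π : A →* Q} {p : Q →* Q'} {z : Q} {s : Q' → Q}

/-- The function that has to be invariant. -/
def FF (α : Q → Q → ℂˣ) (c : Q → ℂˣ) (t u : Q) : ℂˣ := α t u * c t * c u / c (t * u)

theorem descend_good (hq : Quot G π p z s) {D : Dat A Q} {H : Subgroup A}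
    (hH : (H : Set A) = D.M) (hG : H ≤ G) (hc : Coc π H D.lam D.α) (hS : D.S = π '' D.M)
    {S₁ : Set Q} (hS₁ : S₁ ⊆ D.S) {H₁ : Subgroup A} (hH₁ : ∀ m, m ∈ H₁ ↔ m ∈ H ∧ π m ∈ S₁)
    {c : Q → ℂˣ} (c1 : c 1 = 1)
    (hl : ∀ t ∈ S₁, ∀ u ∈ S₁, z * t ∈ S₁ → FF D.α c (z * t) u = FF D.α c t u)
    (hr : ∀ t ∈ S₁, ∀ u ∈ S₁, z * u ∈ S₁ → FF D.α c t (z * u) = FF D.α c t u) :
    Good G (p.comp π) (D.descend p z s π S₁ c) := by
  classical
  have hM : ∀ m, m ∈ D.M ↔ m ∈ H := fun m => by rw [← hH]; rfl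
  refine ⟨H₁, ?_, fun m hm => hG ((hH₁ m).1 hm).1, ⟨?_, ?_⟩, ?_⟩
  · ext m
    show m ∈ H₁ ↔ m ∈ D.M ∧ π m ∈ S₁
    rw [hH₁, hM]
  · show c (π 1) * D.lam 1 = 1
    rw [map_one, c1, hc.one, one_mul]
  · intro m hm n hn
    obtain ⟨hm1, hm2⟩ := (hH₁ m).1 hm
    obtain ⟨hn1, hn2⟩ := (hH₁ n).1 hn
    have key : ∀ m ∈ H, π m ∈ S₁ → ∀ r, r = (if s (p (π m)) ∈ S₁ then s (p (π m)) else
        z * s (p (π m))) → r = π m ∨ (r = z * π m ∧ z * π m ∈ S₁) := by
      intro m hm hmS r hr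
      rcases hq.sec m (hG hm) with h | h
      · left; rw [hr, h, if_pos hmS]
      · rw [h] at hr
        by_cases h' : z * π m ∈ S₁
        · right; rw [hr, if_pos h']; exact ⟨rfl, h'⟩
        · left; rw [hr, if_neg h', ← mul_assoc, hq.sq, one_mul]
    show c (π m) * D.lam m * (c (π n) * D.lam n) = FF D.α c (if s (p (π m)) ∈ S₁ then s (p (π m)) else
        z * s (p (π m))) (if s (p (π n)) ∈ S₁ then s (p (π n)) else z * s (p (π n))) *
        (c (π (m * n)) * D.lam (m * n))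
    have h1 : FF D.α c (if s (p (π m)) ∈ S₁ then s (p (π m)) else
        z * s (p (π m))) (if s (p (π n)) ∈ S₁ then s (p (π n)) else z * s (p (π n))) =
        FF D.α c (π m) (π n) := by
      rcases key m hm1 hm2 _ rfl with h | ⟨h, h'⟩ <;> rcases key n hn1 hn2 _ rfl with k | ⟨k, k'⟩ <;>
        rw [h, k]
      · exact hr _ hm2 _ hn2 k'
      · exact hl _ hm2 _ hn2 h'
      · rw [hl _ hm2 _ k' h', hr _ hm2 _ hn2 k']
    rw [h1]
    have h2 := hc.mul m hm1 n hn1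
    unfold FF
    rw [map_mul, div_mul_eq_mul_div, eq_div_iff_mul_eq']
    calc c (π m) * D.lam m * (c (π n) * D.lam n) * c (π m * π n)
        = c (π m * π n) * c (π m) * c (π n) * (D.lam m * D.lam n) := by
          simp only [mul_comm, mul_left_comm, mul_assoc]
      _ = _ := by
          rw [h2]
          simp only [mul_comm, mul_left_comm, mul_assoc]
  · show p '' S₁ = (fun x => p (π x)) '' {m | m ∈ D.M ∧ π m ∈ S₁}
    ext t
    simp only [Set.mem_image, Set.mem_setOf_eq]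
    constructor
    · rintro ⟨x, hx, rfl⟩
      obtain ⟨m, hm, rfl⟩ : x ∈ π '' D.M := hS ▸ hS₁ hx
      exact ⟨m, ⟨hm, hx⟩, rfl⟩
    · rintro ⟨m, ⟨_, hx⟩, rfl⟩
      exact ⟨_, hx, rfl⟩


section corr

variable {D : Dat A Q} {H : Subgroup A} {η : ℂˣ}

theorem corr_one (hq : Quot G π p z s) : D.corr p z s η 1 = 1 := by
  unfold Dat.corr
  rw [map_one, hq.one, if_pos rfl]

theorem corr_mul (hq : Quot G π p z s) (hG : H ≤ G) (hc : Coc π H D.lam D.α) {mz : A}
    (hmz : mz ∈ H) (hz : π mz = z) (hη : η * η * D.α z z = 1) {m : A} (hm : m ∈ H) :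
    D.corr p z s η (z * π m) = η * D.α z (π m) * D.corr p z s η (π m) := by
  have hp : p (z * π m) = p (π m) := by rw [map_mul, hq.pz, one_mul]
  have hne : ∀ t : Q, t ≠ z * t := fun t h => hq.ne (mul_eq_right.1 h.symm)
  unfold Dat.corr
  rw [hp]
  rcases hq.sec m (hG hm) with h | h
  · rw [h, if_pos rfl, if_neg (hne _), mul_one]
  · rw [h, if_pos rfl, if_neg (fun h' => hne _ h'.symm)]
    have h1 := hc.cocycle hmz hmz hm
    rw [hz, hq.sq, hc.α_one_left hm, mul_one] at h1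
    calc (1 : ℂˣ) = η * η * D.α z z := hη.symm
      _ = _ := by
        rw [h1]
        simp only [mul_comm, mul_left_comm, mul_assoc]

theorem FF_left (hq : Quot G π p z s) (hG : H ≤ G) (hc : Coc π H D.lam D.α) {mz : A}
    (hmz : mz ∈ H) (hz : π mz = z) (hη : η * η * D.α z z = 1) {m n : A} (hm : m ∈ H)
    (hn : n ∈ H) : FF D.α (D.corr p z s η) (z * π m) (π n) = FF D.α (D.corr p z s η) (π m) (π n) := by
  unfold FF
  rw [corr_mul hq hG hc hmz hz hη hm, mul_assoc z, ← map_mul,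
    corr_mul hq hG hc hmz hz hη (H.mul_mem hm hn), map_mul]
  have h1 := hc.cocycle hmz hm hn
  rw [hz] at h1
  rw [div_eq_div_iff_mul_eq_mul]
  calc _ = (D.α z (π m) * D.α (z * π m) (π n)) * (η * D.corr p z s η (π m) * D.corr p z s η (π n) *
        D.corr p z s η (π m * π n)) := by simp only [mul_comm, mul_left_comm, mul_assoc]
    _ = _ := by
      rw [h1]
      simp only [mul_comm, mul_left_comm, mul_assoc]

theorem FF_right (hq : Quot G π p z s) (hG : H ≤ G) (hc : Coc π H D.lam D.α) {mz : A}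
    (hmz : mz ∈ H) (hz : π mz = z) (hη : η * η * D.α z z = 1) {m n : A} (hm : m ∈ H)
    (hn : n ∈ H) (hω : D.α (π m) z = D.α z (π m)) :
    FF D.α (D.corr p z s η) (π m) (z * π n) = FF D.α (D.corr p z s η) (π m) (π n) := by
  unfold FF
  have h0 : π m * (z * π n) = z * (π m * π n) := by
    rw [← mul_assoc, hq.cent m (hG hm), mul_assoc]
  rw [corr_mul hq hG hc hmz hz hη hn, h0, ← map_mul,
    corr_mul hq hG hc hmz hz hη (H.mul_mem hm hn), map_mul]
  have h1 := hc.cocycle hmz hm hn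
  have h2 := hc.cocycle hm hmz hn
  rw [hz] at h1 h2
  rw [hq.cent m (hG hm), hω, h1] at h2
  rw [div_eq_div_iff_mul_eq_mul]
  calc _ = (D.α z (π n) * D.α (π m) (z * π n)) * (η * D.corr p z s η (π m) * D.corr p z s η (π n) *
        D.corr p z s η (π m * π n)) := by simp only [mul_comm, mul_left_comm, mul_assoc]
    _ = _ := by
      rw [← h2]
      simp only [mul_comm, mul_left_comm, mul_assoc]

end corr

/-! ### The commutator character -/

section chi

variable {H : Subgroup A} {lam : A → ℂˣ} {α : Q → Q → ℂˣ}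

theorem kap_mem {mz m : A} (hmz : mz ∈ H) (hm : m ∈ H) : m * mz * m⁻¹ * mz⁻¹ ∈ H :=
  H.mul_mem (H.mul_mem (H.mul_mem hm hmz) (H.inv_mem hm)) (H.inv_mem hmz)

theorem kap_ker {mz m : A} (hcent : π m * π mz = π mz * π m) : π (m * mz * m⁻¹ * mz⁻¹) = 1 := by
  simp only [map_mul, map_inv, hcent]
  group

/-- The commutator character. -/
noncomputable def chi (hc : Coc π H lam α) {mz : A} (hmz : mz ∈ H)
    (hcent : ∀ m ∈ H, π m * π mz = π mz * π m) : H →* ℂˣ where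
  toFun m := lam (m * mz * (m : A)⁻¹ * mz⁻¹)
  map_one' := by
    simp only [Subgroup.coe_one, one_mul, inv_one, mul_one, mul_inv_cancel]
    exact hc.one
  map_mul' m n := by
    have h1 : ((m * n : H) : A) * mz * ((m * n : H) : A)⁻¹ * mz⁻¹ =
        (m * (n * mz * (n : A)⁻¹ * mz⁻¹) * (m : A)⁻¹) * (m * mz * (m : A)⁻¹ * mz⁻¹) := by
      push_cast
      group
    have h2 := kap_mem hmz n.2
    have h3 : π ((n : A) * mz * (n : A)⁻¹ * mz⁻¹) = 1 := kap_ker (hcent _ n.2)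
    have h4 : (m * (n * mz * (n : A)⁻¹ * mz⁻¹) * (m : A)⁻¹) ∈ H :=
      H.mul_mem (H.mul_mem m.2 h2) (H.inv_mem m.2)
    have h5 : π (m * (n * mz * (n : A)⁻¹ * mz⁻¹) * (m : A)⁻¹) = 1 := by
      rw [map_mul, map_mul, h3, mul_one, ← map_mul, mul_inv_cancel, map_one]
    rw [h1, hc.ker_mul h4 h5 (kap_mem hmz m.2), hc.conj h2 h3 m.2, mul_comm]

theorem chi_sq (hc : Coc π H lam α) {mz : A} (hmz : mz ∈ H)
    (hcent : ∀ m ∈ H, π m * π mz = π mz * π m) (hsq : π mz * π mz = 1) (m : H) :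
    chi hc hmz hcent m * chi hc hmz hcent m = 1 := by
  have hk := kap_mem hmz m.2
  have hk' : π ((m : A) * mz * (m : A)⁻¹ * mz⁻¹) = 1 := kap_ker (hcent _ m.2)
  set k : A := (m : A) * mz * (m : A)⁻¹ * mz⁻¹ with hkdef
  have h1 : (m : A) * (mz * mz) * (m : A)⁻¹ = k * ((mz * k * mz⁻¹) * (mz * mz)) := by
    rw [hkdef]; group
  have hzz : mz * mz ∈ H := H.mul_mem hmz hmz
  have hzz' : π (mz * mz) = 1 := by rw [map_mul, hsq]
  have h2 := hc.conj hzz hzz' m.2
  have h3 : mz * k * mz⁻¹ ∈ H := H.mul_mem (H.mul_mem hmz hk) (H.inv_mem hmz)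
  have h4 : π (mz * k * mz⁻¹) = 1 := by
    rw [map_mul, map_mul, hk', mul_one, ← map_mul, mul_inv_cancel, map_one]
  rw [h1, hc.ker_mul hk hk' (H.mul_mem h3 hzz), hc.ker_mul h3 h4 hzz, hc.conj hk hk' hmz,
    ← mul_assoc] at h2
  exact mul_eq_right.1 h2

theorem chi_eq_one_iff (hc : Coc π H lam α) {mz : A} (hmz : mz ∈ H)
    (hcent : ∀ m ∈ H, π m * π mz = π mz * π m) (m : H) :
    chi hc hmz hcent m = 1 ↔ α (π m) (π mz) = α (π mz) (π m) := by
  have h1 : (m : A) * mz = ((m : A) * mz * (m : A)⁻¹ * mz⁻¹) * (mz * m) := by group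
  have h2 : lam (m * mz) = chi hc hmz hcent m * lam (mz * m) := by
    conv_lhs => rw [h1]
    exact hc.ker_mul (kap_mem hmz m.2) (kap_ker (hcent _ m.2)) (H.mul_mem hmz m.2)
  rw [hc.α_eq m.2 hmz, hc.α_eq hmz m.2, mul_comm (lam mz), h2]
  constructor
  · intro h
    rw [h, one_mul]
  · intro h
    have h3 := mul_left_cancel h
    rw [inv_inj] at h3
    exact mul_eq_right.1 h3

end chi

end System

end Pool.Agent.W_MP_37527c_al
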