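import Pool.Agent.W_MP_37527c_al.Homs
import Pool.Agent.W_MP_37527c_al.System

/-!
# Finite checks in the small groups
-/

set_option autoImplicit false

namespace Pool.Agent.W_MP_37527c_al

theorem theta_mul : ∀ x y : Wr ℤˣ, theta (x * y) = theta x * theta y := by decide +kernel

theorem theta_theta : ∀ x : Wr ℤˣ, theta (theta x) = x := by decide +kernel

theorem theta_one : theta 1 = 1 := by decide +kernel

instance : DecidablePred (· ∈ Gam) := fun t =>
  inferInstanceAs (Decidable (t.r.2 = theta t.l.2))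

/-- `Γ` as a subgroup. -/
def GamSub : Subgroup (Wr Q16) where
  carrier := Gam
  one_mem' := theta_one.symm
  mul_mem' := by
    intro s t hs ht
    have hs' : s.r.2 = theta s.l.2 := hs
    have ht' : t.r.2 = theta t.l.2 := ht
    show (s * t).r.2 = theta (s * t).l.2
    simp only [Wr.mul_def]
    cases t.sw with
    | false =>
      simp only [Bool.false_eq_true, if_false, Prod.snd_mul, theta_mul, hs', ht']
    | true =>
      simp only [if_true, Prod.snd_mul, theta_mul, hs', ht', theta_theta]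
  inv_mem' := by
    intro s hs
    have hs' : s.r.2 = theta s.l.2 := hs
    have hinv : ∀ x : Wr ℤˣ, theta x⁻¹ = (theta x)⁻¹ := fun x => by
      rw [eq_inv_iff_mul_eq_one, ← theta_mul, inv_mul_cancel, theta_one]
    show s⁻¹.r.2 = theta s⁻¹.l.2
    simp only [Wr.inv_def]
    cases s.sw with
    | false => simp only [Bool.false_eq_true, if_false, Prod.snd_inv, hs', hinv]
    | true => simp only [if_true, Prod.snd_inv, hs', hinv, theta_theta]

theorem mem_GamSub {t : Wr Q16} : t ∈ GamSub ↔ t.r.2 = theta t.l.2 := Iff.rfl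

theorem coe_GamSub : (GamSub : Set (Wr Q16)) = Gam := rfl

/-! ### The chain of quotients -/

theorem ab_ker : ∀ q : Q16, ab q = 1 → q = 1 ∨ q = z4 := by decide +kernel

theorem ab_sec : ∀ q : Q16, sec4 (ab q) = q ∨ sec4 (ab q) = z4 * q := by decide +kernel

theorem ab_cent : ∀ q : Q16, q * z4 = z4 * q := by
  decide +kernel

/-- A parametrization of `Γ`. -/
def gpar (b : Bool) (e e' : ℤˣ) (x : Wr ℤˣ) : Wr Q16 := ⟨b, (e, x), (e', theta x)⟩

theorem gam_par {t : Wr Q16} (ht : t ∈ Gam) : t = gpar t.sw t.l.1 t.r.1 t.l.2 := by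
  have h : t.r.2 = theta t.l.2 := ht
  obtain ⟨b, ⟨e, x⟩, ⟨e', y⟩⟩ := t
  simp only at h
  subst h
  rfl

theorem step1_ker : ∀ (b : Bool) (e e' : ℤˣ) (x : Wr ℤˣ),
    Wr.map ab (gpar b e e' x) = 1 → gpar b e e' x = 1 ∨ gpar b e e' x = z1 := by
  intro b e e'
  rcases Int.units_eq_one_or e with rfl | rfl <;> rcases Int.units_eq_one_or e' with rfl | rfl <;>
    cases b <;> decide +kernel

theorem step1_sec : ∀ (b : Bool) (e e' : ℤˣ) (x : Wr ℤˣ),
    sec1 (Wr.map ab (gpar b e e' x)) = gpar b e e' x ∨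
      sec1 (Wr.map ab (gpar b e e' x)) = z1 * gpar b e e' x := by decide +kernel

theorem step1_cent : ∀ (b : Bool) (e e' : ℤˣ) (x : Wr ℤˣ),
    gpar b e e' x * z1 = z1 * gpar b e e' x := by decide +kernel

theorem step2_ker : ∀ (b : Bool) (e e' : ℤˣ) (x : Wr ℤˣ),
    pr2 (Wr.map ab (gpar b e e' x)) = 1 → Wr.map ab (gpar b e e' x) = 1 ∨
      Wr.map ab (gpar b e e' x) = z2 := by decide +kernel

theorem step2_sec : ∀ (b : Bool) (e e' : ℤˣ) (x : Wr ℤˣ),
    sec2 (pr2 (Wr.map ab (gpar b e e' x))) = Wr.map ab (gpar b e e' x) ∨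
      sec2 (pr2 (Wr.map ab (gpar b e e' x))) = z2 * Wr.map ab (gpar b e e' x) := by decide +kernel

theorem step2_cent : ∀ (b : Bool) (e e' : ℤˣ) (x : Wr ℤˣ),
    Wr.map ab (gpar b e e' x) * z2 = z2 * Wr.map ab (gpar b e e' x) := by decide +kernel

/-- A preimage of `z2` in `Γ`. -/
theorem z2_pre : ∃ t ∈ Gam, Wr.map ab t = z2 :=
  ⟨⟨false, (-1, ⟨true, 1, -1⟩), (-1, theta ⟨true, 1, -1⟩)⟩, rfl, by decide +kernel⟩

theorem z1_mem : z1 ∈ Gam := by decide +kernel

/-! ### Level three -/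

theorem pr3_ker : ∀ t : Wr Q4, pr3 t = 1 → t = 1 ∨ t = z3 := by
  decide +kernel

theorem pr3_sec : ∀ t : Wr Q4, sec3 (pr3 t) = t ∨ sec3 (pr3 t) = z3 * t := by decide +kernel

theorem pr3_cent : ∀ t : Wr Q4, t * z3 = z3 * t := by decide +kernel

end Pool.Agent.W_MP_37527c_al
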