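import Pool.Agent.W_MP_37527c_al.Group

/-!
# `G_{n+1}` as a subgroup of the wreath product of `G_n`
-/

set_option autoImplicit false

namespace Pool.Agent.W_MP_37527c_al

theorem a_mem' (n : ℕ) : (⟨true, 1, 1⟩ : Wr (Aut n)) ∈ (Gn (n + 1) : Subgroup (Aut (n + 1))) :=
  a_mem (n + 1)
theorem b_mem' (n : ℕ) : (⟨false, gena n, genc n⟩ : Wr (Aut n)) ∈
    (Gn (n + 1) : Subgroup (Aut (n + 1))) := b_mem (n + 1)
theorem c_mem' (n : ℕ) : (⟨false, gena n, gend n⟩ : Wr (Aut n)) ∈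
    (Gn (n + 1) : Subgroup (Aut (n + 1))) := c_mem (n + 1)
theorem d_mem' (n : ℕ) : (⟨false, 1, genb n⟩ : Wr (Aut n)) ∈
    (Gn (n + 1) : Subgroup (Aut (n + 1))) := d_mem (n + 1)

/-- `G_{n+1}`, as a subgroup of the wreath product. -/
def Gs (n : ℕ) : Subgroup (Wr (Aut n)) := Gn (n + 1)

theorem swap_mem {n : ℕ} {l r : Aut n} (h : (⟨false, l, r⟩ : Wr (Aut n)) ∈ Gs n) :
    (⟨false, r, l⟩ : Wr (Aut n)) ∈ Gs n := by
  have h1 : (⟨true, 1, 1⟩ : Wr (Aut n)) ∈ Gs n := a_mem' n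
  have h2 := mul_mem (mul_mem h1 h) h1
  rw [wr_mul_false, wr_mul_true, mul_one, mul_one, one_mul, one_mul] at h2
  exact h2

theorem pair_mem (n : ℕ) {l : Aut n} (hl : l ∈ Gn n) :
    ∃ r ∈ Gn n, (⟨false, l, r⟩ : Wr (Aut n)) ∈ Gs n := by
  have step : ∀ x x' : Aut n, x' ∈ Gn n → (⟨false, x, x'⟩ : Wr (Aut n)) ∈ Gs n →
      ∀ y ∈ Gn n, (∃ r ∈ Gn n, (⟨false, y, r⟩ : Wr (Aut n)) ∈ Gs n) →
        ∃ r ∈ Gn n, (⟨false, x * y, r⟩ : Wr (Aut n)) ∈ Gs n := by
    rintro x x' hx' hx y - ⟨r, hr, h⟩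
    refine ⟨x' * r, mul_mem hx' hr, ?_⟩
    have := mul_mem hx h
    rw [wr_mul_false] at this
    exact this
  refine Gn_induction (p := fun l => ∃ r ∈ Gn n, (⟨false, l, r⟩ : Wr (Aut n)) ∈ Gs n)
    ⟨1, one_mem _, one_mem (Gs n)⟩ (step _ (genc n) (c_mem n) (b_mem' n))
    (step _ 1 (one_mem _) (swap_mem (d_mem' n))) (step _ (gena n) (a_mem n) (swap_mem (b_mem' n)))
    (step _ (gena n) (a_mem n) (swap_mem (c_mem' n))) hl

/-- The elements `k` of `G_n` with `(k, 1)` in `G_{n+1}`. -/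
def Nn (n : ℕ) : Subgroup (Gn n) where
  carrier := {k | (⟨false, k.1, 1⟩ : Wr (Aut n)) ∈ Gs n}
  one_mem' := one_mem (Gs n)
  mul_mem' := by
    intro x y hx hy
    have := mul_mem (S := Subgroup (Wr (Aut n))) (s := Gs n) hx hy
    rw [wr_mul_false, mul_one] at this
    exact this
  inv_mem' := by
    intro x hx
    have hx' : (⟨false, x.1, 1⟩ : Wr (Aut n)) ∈ Gs n := hx
    have := inv_mem hx'
    rw [Wr.inv_def] at this
    simp only [Bool.false_eq_true, if_false, inv_one] at this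
    exact this

instance (n : ℕ) : (Nn n).Normal where
  conj_mem := by
    rintro ⟨k, hk⟩ h ⟨g, hg⟩
    obtain ⟨r, -, hr⟩ := pair_mem n hg
    have h' : (⟨false, k, 1⟩ : Wr (Aut n)) ∈ Gs n := h
    have := mul_mem (mul_mem hr h') (inv_mem hr)
    rw [Wr.inv_def] at this
    simp only [Bool.false_eq_true, if_false, wr_mul_false, mul_one, mul_inv_cancel] at this
    exact this

theorem ker_sub (m : ℕ) {k : Aut (m + 3)} (hk : k ∈ Gn (m + 3)) (h : pi3 m k = 1) :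
    (⟨false, k, 1⟩ : Wr (Aut (m + 3))) ∈ Gs (m + 3) := by
  have hf := factor m (QuotientGroup.mk' (Nn (m + 3))) ?_ ⟨k, hk⟩
  · rw [h] at hf
    have h1 : (⟨lift (m + 3) 1, lift_mem _ _⟩ : Gn (m + 3)) = 1 := Subtype.ext (nf_one _ _ _)
    rw [h1, map_one] at hf
    have h2 := (QuotientGroup.eq_one_iff _).1 hf
    exact h2
  · rw [← map_mul, ← map_mul]
    rw [QuotientGroup.mk'_apply, QuotientGroup.mk'_apply, QuotientGroup.eq]
    show (⟨false, (gena (m + 3) * genb (m + 3))⁻¹ * (genb (m + 3) * gena (m + 3)), 1⟩ :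
      Wr (Aut (m + 3))) ∈ Gs (m + 3)
    have e1 : (⟨false, gena (m + 3), genc (m + 3)⟩ : Wr (Aut (m + 3))) ∈ Gs (m + 3) := b_mem' _
    have e2 : (⟨false, genb (m + 3), 1⟩ : Wr (Aut (m + 3))) ∈ Gs (m + 3) := swap_mem (d_mem' _)
    have e3 := mul_mem (inv_mem (mul_mem e1 e2)) (mul_mem e2 e1)
    rw [wr_mul_false, wr_mul_false, Wr.inv_def] at e3
    simp only [Bool.false_eq_true, if_false, wr_mul_false, mul_one, one_mul, inv_mul_cancel] at e3
    exact e3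

theorem map_gen (m : ℕ) {g : Wr (Aut (m + 3))} (hg : g ∈ Gs (m + 3)) :
    g ∈ wrSub (Gn (m + 3)) ⊓ GamSub.comap (Wr.map (pi3 m)) := by
  have : Gs (m + 3) ≤ wrSub (Gn (m + 3)) ⊓ GamSub.comap (Wr.map (pi3 m)) := by
    refine (Subgroup.closure_le (G := Wr (Aut (m + 3))) _).2 ?_
    rintro x (rfl | rfl | rfl | rfl)
    · refine ⟨⟨one_mem _, one_mem _⟩, ?_⟩
      show (pi3 m 1).2 = theta (pi3 m 1).2
      rw [map_one]; exact theta_one.symm
    · refine ⟨⟨a_mem _, c_mem _⟩, ?_⟩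
      show (pi3 m (genc (m + 3))).2 = theta (pi3 m (gena (m + 3))).2
      rw [pi3_a, pi3_c]; decide +kernel
    · refine ⟨⟨a_mem _, d_mem _⟩, ?_⟩
      show (pi3 m (gend (m + 3))).2 = theta (pi3 m (gena (m + 3))).2
      rw [pi3_a, pi3_d]; decide +kernel
    · refine ⟨⟨one_mem _, b_mem _⟩, ?_⟩
      show (pi3 m (genb (m + 3))).2 = theta (pi3 m 1).2
      rw [pi3_b, map_one]; decide +kernel
  exact this hg

/-- The structure of `G_{n+1}` for `n ≥ 3`. -/
theorem structure_theorem (m : ℕ) :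
    Gs (m + 3) = wrSub (Gn (m + 3)) ⊓ GamSub.comap (Wr.map (pi3 m)) := by
  apply le_antisymm
  · intro g hg
    exact map_gen m hg
  · have key : ∀ l ∈ Gn (m + 3), ∀ r ∈ Gn (m + 3),
        (⟨false, l, r⟩ : Wr (Aut (m + 3))) ∈ GamSub.comap (Wr.map (pi3 m)) →
        (⟨false, l, r⟩ : Wr (Aut (m + 3))) ∈ Gs (m + 3) := by
      intro l hl r hr hΓ
      obtain ⟨r', hr', h⟩ := pair_mem _ hl
      have h1 : (⟨false, l, r'⟩ : Wr (Aut (m + 3))) ∈ GamSub.comap (Wr.map (pi3 m)) :=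
        (map_gen m h).2
      have h2 := mul_mem (inv_mem h1) hΓ
      rw [Wr.inv_def] at h2
      simp only [Bool.false_eq_true, if_false, wr_mul_false, inv_mul_cancel] at h2
      have h3 : (pi3 m (r'⁻¹ * r)).2 = 1 := by
        have : (pi3 m (r'⁻¹ * r)).2 = theta (pi3 m 1).2 := h2
        rw [this, map_one]; exact theta_one
      have h4 : (⟨false, 1, r'⁻¹ * r⟩ : Wr (Aut (m + 3))) ∈ Gs (m + 3) := by
        rcases Int.units_eq_one_or (pi3 m (r'⁻¹ * r)).1 with e | e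
        · exact swap_mem (ker_sub m (mul_mem (inv_mem hr') hr) (Prod.ext e h3))
        · have h5 : pi3 m (r'⁻¹ * r * genb (m + 3)) = 1 := by
            rw [map_mul, pi3_b]
            refine Prod.ext ?_ ?_
            · rw [Prod.fst_mul, e]; rfl
            · rw [Prod.snd_mul, h3]; rfl
          have h6 := swap_mem (ker_sub m (mul_mem (mul_mem (inv_mem hr') hr) (b_mem _)) h5)
          have h7 : (⟨false, 1, genb (m + 3)⟩ : Wr (Aut (m + 3))) ∈ Gs (m + 3) := d_mem' _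
          have h8 := mul_mem h6 h7
          rw [wr_mul_false, mul_one, mul_assoc, bb, mul_one] at h8
          exact h8
      have h9 := mul_mem h h4
      rw [wr_mul_false, mul_one, mul_inv_cancel_left] at h9
      exact h9
    rintro ⟨s, l, r⟩ ⟨⟨hl, hr⟩, hΓ⟩
    cases s with
    | false => exact key l hl r hr hΓ
    | true =>
      have h1 : (⟨true, 1, 1⟩ : Wr (Aut (m + 3))) ∈ Gs (m + 3) := a_mem' _
      have h2 : (⟨true, 1, 1⟩ : Wr (Aut (m + 3))) ∈ GamSub.comap (Wr.map (pi3 m)) :=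
        (map_gen m h1).2
      have h3 := mul_mem hΓ h2
      rw [wr_mul_true, mul_one, mul_one] at h3
      have h4 := mul_mem (key r hr l hl h3) h1
      rw [wr_mul_true, mul_one, mul_one] at h4
      exact h4

end Pool.Agent.W_MP_37527c_al
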